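import Mathlib

set_option autoImplicit false

/-!
The curves `y² = f(ψ(x)²)`, `f = a₀ T^n + a₁ T^(n-1) + ... + aₙ` with arbitrary integral
coefficients: local solubility and the Selmer set of the classes of `ψ(x)² - θ`. Definitions of the
statement.
-/

namespace Stoll308.BF

open Polynomial Finset

/-- The polynomial `a₀ T^n + a₁ T^(n-1) + ... + aₙ`. -/
noncomputable def gpol {R : Type*} [CommRing R] {n : ℕ} (a : Fin (n + 1) → R) : R[X] :=
  ∑ i : Fin (n + 1), C (a i) * X ^ (n - (i : ℕ))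

/-- The polynomial with integral coefficients `a`, over the ring `R`. -/
noncomputable abbrev GZ (R : Type*) [CommRing R] {n : ℕ} (a : Fin (n + 1) → ℤ) : R[X] :=
  gpol (fun i => (a i : R))

/-- The smooth projective curve with the affine equation `y² = f(ψ(x)²)` (`f` of degree `n`) has a
point over the field `K`: an affine one, or one of the two points at infinity, which are defined
over `K` if and only if the leading coefficient `a₀` of `f` is a square in `K`. -/
def HasPoint {n : ℕ} (ψ : ℤ[X]) (a : Fin (n + 1) → ℤ) (K : Type*) [Field K] : Prop :=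
  (∃ x y : K, y ^ 2 = (GZ K a).eval ((aeval x ψ) ^ 2)) ∨ IsSquare (a 0 : K)

/-- The curve has points over all completions of `ℚ`. -/
def ELS {n : ℕ} (ψ : ℤ[X]) (a : Fin (n + 1) → ℤ) : Prop :=
  (∀ (p : ℕ) [Fact p.Prime], HasPoint ψ a ℚ_[p]) ∧ HasPoint ψ a ℝ

/-- The polynomial `f` has degree `n` and `f(ψ(x)²)` has no multiple factor. -/
def Smooth {n : ℕ} (ψ : ℤ[X]) (a : Fin (n + 1) → ℤ) : Prop :=
  a 0 ≠ 0 ∧ Squarefree ((GZ ℚ a).comp ((ψ.map (Int.castRingHom ℚ)) ^ 2))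

/-- There is an affine point `(x, y)`, `y ≠ 0`, of the curve over the field `K ⊇ ℚ` such that
`ψ(x)² - θ` is `δ` times a square in `K[θ] = K[T]/(f)`, where `θ` is the class of `T`. -/
def LocalImage {n : ℕ} (ψ : ℤ[X]) (a : Fin (n + 1) → ℤ) (δ : ℚ[X]) (K : Type*) [Field K]
    [Algebra ℚ K] : Prop :=
  ∃ (x y : K) (s : K[X]), y ≠ 0 ∧ y ^ 2 = (GZ K a).eval ((aeval x ψ) ^ 2) ∧
    GZ K a ∣ (C ((aeval x ψ) ^ 2) - X) - δ.map (algebraMap ℚ K) * s ^ 2

/-- The Selmer set is nonempty: some `δ ∈ ℚ[θ]ˣ` is in the image of the local points at all places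
of `ℚ`. -/
def Sel {n : ℕ} (ψ : ℤ[X]) (a : Fin (n + 1) → ℤ) : Prop :=
  ∃ δ : ℚ[X], IsCoprime δ (GZ ℚ a) ∧
    (∀ (p : ℕ) [Fact p.Prime], LocalImage ψ a δ ℚ_[p]) ∧ LocalImage ψ a δ ℝ

open Classical in
/-- The number of vectors `a = (a₀, ..., aₙ)` of integers with `|a_i| ≤ H` which have the property
`P`. -/
noncomputable def cnt (n : ℕ) (P : (Fin (n + 1) → ℤ) → Prop) (H : ℕ) : ℕ :=
  ((Fintype.piFinset fun _ : Fin (n + 1) => Icc (-(H : ℤ)) (H : ℤ)).filter P).card

end Stoll308.BF
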