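import Pool.Agent.Work.MP_308fa9_nt.BF.Basic
import Pool.Agent.Work.MP_308fa9_nt.BG.BadCount
import Pool.Agent.Work.MP_308fa9_nt.BG.Cube

set_option autoImplicit false

/-!
The number of bad residue classes modulo `l²`.
-/

namespace Stoll308.BF

open Finset Matrix BG
open Stoll308.BE.BadCount (red)

namespace BCount

/-- The same condition in `ZMod (l ^ 2)`. -/
def BadR {n : ℕ} (l : ℕ) (A : Matrix (Fin n) (Fin n) (ZMod l))
    (B : Matrix (Fin n) (Fin n) (ZMod (l ^ 2))) : Prop :=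
  red l B.det = 0 ∧ B.det ≠ 0 ∧ ((B.map (red l)).adjugate * A).trace ≠ 0 ∧
    ∃ _h : Fact l.Prime, ∃ i, quadraticChar (ZMod l)
      ((-1) ^ (n / 2 + 1) * (B.map (red l)).adjugate i i) = -1

lemma bad_iff {n : ℕ} (l : ℕ) (A B : Matrix (Fin n) (Fin n) ℤ) :
    Bad l A B ↔ BadR l (A.map (Int.castRingHom (ZMod l)))
      (B.map (Int.castRingHom (ZMod (l ^ 2)))) := by
  unfold Bad BadR
  rw [BG.BadCount.map_red, ← BG.BadCount.cast_det, map_intCast, ← BG.BadCount.cast_trace]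
  simp only [← BG.BadCount.cast_adj]
  rw [ZMod.intCast_zmod_eq_zero_iff_dvd, Ne, ZMod.intCast_zmod_eq_zero_iff_dvd, Ne,
    ZMod.intCast_zmod_eq_zero_iff_dvd]
  simp only [legendreSym]
  push_cast
  rfl

lemma map_symM {n : ℕ} (m : ℕ) (v v' : Ix n → ℤ) (h : ∀ i, (m : ℤ) ∣ v i - v' i) :
    (symM v).map (Int.castRingHom (ZMod m)) = (symM v').map (Int.castRingHom (ZMod m)) := by
  ext i j
  simp only [Matrix.map_apply, symM, eq_intCast]
  have := (ZMod.intCast_zmod_eq_zero_iff_dvd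
    (v ⟨(min i j, max i j), min_le_max⟩ - v' ⟨(min i j, max i j), min_le_max⟩) m).2 (h _)
  rw [Int.cast_sub, sub_eq_zero] at this
  exact this

/-- Bad in the monic setting implies bad. -/
lemma bad_of {n : ℕ} (hn : 4 ≤ n) (he : Even n) (l : ℕ) (_hl : l.Prime)
    (A B : Matrix (Fin n) (Fin n) ℤ) (hd : ¬ (l : ℤ) ∣ A.det)
    (h : BG.Bad ((-1) ^ (n / 2) * A.det) l A B) : Bad l A B := by
  obtain ⟨h1, h2, h3, hF, i, hi⟩ := h
  refine ⟨h1, h2, h3, hF, i, ?_⟩
  have ho : Odd (n - 1) := by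
    obtain ⟨k, hk⟩ := he
    exact ⟨k - 1, by omega⟩
  have e : (-1 : ℤ) ^ (n - 1) * B.adjugate i i * A.det * ((-1) ^ (n / 2) * A.det) =
      ((-1) ^ (n / 2 + 1) * B.adjugate i i) * A.det ^ 2 := by
    rw [ho.neg_one_pow, pow_succ]
    ring
  rw [e, legendreSym.mul] at hi
  have h4 : (A.det : ZMod l) ≠ 0 := by
    rwa [Ne, ZMod.intCast_zmod_eq_zero_iff_dvd]
  rw [legendreSym.sq_one' l h4, mul_one] at hi
  exact hi

end BCount

open BCount

lemma bad_congr {n : ℕ} (l : ℕ) (v v' : Ix n ⊕ Ix n → ℤ)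
    (h : ∀ i, ((l ^ 2 : ℕ) : ℤ) ∣ v i - v' i) :
    Bad l (symM fun p => v (Sum.inl p)) (symM fun p => v (Sum.inr p)) ↔
      Bad l (symM fun p => v' (Sum.inl p)) (symM fun p => v' (Sum.inr p)) := by
  rw [bad_iff, bad_iff]
  have e1 : (symM fun p => v (Sum.inl p)).map (Int.castRingHom (ZMod l)) =
      (symM fun p => v' (Sum.inl p)).map (Int.castRingHom (ZMod l)) :=
    map_symM l _ _ fun i => dvd_trans (by exact_mod_cast dvd_pow_self l two_ne_zero) (h _)
  have e2 : (symM fun p => v (Sum.inr p)).map (Int.castRingHom (ZMod (l ^ 2))) =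
      (symM fun p => v' (Sum.inr p)).map (Int.castRingHom (ZMod (l ^ 2))) :=
    map_symM (l ^ 2) _ _ fun i => h _
  rw [e1, e2]

namespace BCount

open Classical in
/-- The number of nonsingular classes modulo `l²`. -/
lemma card_nonsing {n : ℕ} (l : ℕ) (hl : l.Prime) :
    (l - 1) ^ n * l ^ (n * (n - 1) / 2) * l ^ (n * (n + 1) / 2) ≤
      (univ.filter fun v : Ix n → Fin (l ^ 2) =>
        ¬ (l : ℤ) ∣ (symM fun p => ((v p : ℕ) : ℤ)).det).card := by
  have : Fact l.Prime := ⟨hl⟩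
  have h1 := BG.BadSym.card_nonsing (l := l) n
  have h2 : (Finset.univ : Finset (Ix n → Fin l)).card = l ^ (n * (n + 1) / 2) := by
    rw [Finset.card_univ, Fintype.card_fun, Fintype.card_fin, BG.cube_ix]
  refine (Nat.mul_le_mul_right _ h1).trans ?_
  rw [← h2, ← Finset.card_product]
  have hlt : ∀ (w : ZMod l) (b : Fin l), w.val + l * (b : ℕ) < l ^ 2 := by
    intro w b
    have h3 := ZMod.val_lt w
    have h4 : (b : ℕ) + 1 ≤ l := b.2
    calc w.val + l * (b : ℕ) < l + l * (b : ℕ) := by omega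
      _ = l * ((b : ℕ) + 1) := by ring
      _ ≤ l * l := Nat.mul_le_mul_left _ h4
      _ = l ^ 2 := (pow_two l).symm
  refine Finset.card_le_card_of_injOn
    (fun q p => (⟨(q.1 p).val + l * (q.2 p : ℕ), hlt _ _⟩ : Fin (l ^ 2))) ?_ ?_
  · rintro ⟨w, b⟩ hq
    have hq' := (Finset.mem_filter.1 (Finset.mem_product.1 (Finset.mem_coe.1 hq)).1).2
    refine Finset.mem_coe.2 (Finset.mem_filter.2 ⟨Finset.mem_univ _, ?_⟩)
    intro hdvd
    apply hq'
    have h5 := (ZMod.intCast_zmod_eq_zero_iff_dvd _ l).2 hdvd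
    rw [BG.BadCount.cast_det] at h5
    have e : (symM fun p : Ix n => (((⟨(w p).val + l * (b p : ℕ), hlt _ _⟩ : Fin (l ^ 2)) : ℕ)
        : ℤ)).map (Int.castRingHom (ZMod l)) = symM w := by
      ext i j
      simp only [Matrix.map_apply, symM, eq_intCast]
      push_cast
      rw [ZMod.natCast_zmod_val, ZMod.natCast_self, zero_mul, add_zero]
    rw [e] at h5
    exact h5
  · rintro ⟨w, b⟩ _ ⟨w', b'⟩ _ h
    have h6 : ∀ p, (w p).val = (w' p).val ∧ (b p : ℕ) = (b' p : ℕ) := by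
      intro p
      have h7 := congrArg Fin.val (congrFun h p)
      simp only at h7
      have h8 := ZMod.val_lt (w p)
      have h9 := ZMod.val_lt (w' p)
      have h10 := congrArg (· % l) h7
      simp only [Nat.add_mul_mod_self_left, Nat.mod_eq_of_lt h8, Nat.mod_eq_of_lt h9] at h10
      refine ⟨h10, ?_⟩
      rw [h10] at h7
      exact Nat.eq_of_mul_eq_mul_left hl.pos (Nat.add_left_cancel h7)
    refine Prod.ext ?_ ?_
    · funext p
      exact ZMod.val_injective l (h6 p).1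
    · funext p
      exact Fin.ext (h6 p).2

end BCount

open Classical in
theorem bad_count {n : ℕ} (hn : 4 ≤ n) (he : Even n) (l : ℕ) (hl : l.Prime) (h5 : 5 ≤ l) :
    (l : ℝ) ^ (2 * (n * (n + 1)) - 1) / 2 ^ (2 * n + 3) ≤
      ((univ.filter fun v : Ix n ⊕ Ix n → Fin (l ^ 2) =>
        Bad l (symM fun p => ((v (Sum.inl p) : ℕ) : ℤ))
          (symM fun p => ((v (Sum.inr p) : ℕ) : ℤ))).card : ℝ) := by
  set SA := univ.filter fun v : Ix n → Fin (l ^ 2) =>
        ¬ (l : ℤ) ∣ (symM fun p => ((v p : ℕ) : ℤ)).det with hSA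
  set M : ℝ := (l : ℝ) ^ (n * (n + 1) - 1) / 2 ^ (n + 3) with hM
  have hM0 : 0 ≤ M := by positivity
  have h1 : ∀ v ∈ SA, M ≤ ((univ.filter fun w : Ix n → Fin (l ^ 2) =>
      Bad l (symM fun p => ((v p : ℕ) : ℤ)) (symM fun p => ((w p : ℕ) : ℤ))).card : ℝ) := by
    intro v hv
    have hd := (Finset.mem_filter.1 hv).2
    have hκ : ¬ (l : ℤ) ∣ (-1) ^ (n / 2) * (symM fun p => ((v p : ℕ) : ℤ)).det := by
      rwa [(isUnit_one.neg.pow _).dvd_mul_left]
    refine (BG.bad_count (by omega) ((-1) ^ (n / 2) * (symM fun p => ((v p : ℕ) : ℤ)).det)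
      (symM fun p => ((v p : ℕ) : ℤ)) (BG.BadSym.symM_isSymm _) l hl h5 hκ hd).trans ?_
    refine Nat.cast_le.2 (Finset.card_le_card ?_)
    intro w hw
    have hw' := (@Finset.mem_filter _ _ (_) _ _).1 hw
    exact (@Finset.mem_filter _ _ (_) _ _).2 ⟨hw'.1, bad_of hn he l hl _ _ hd hw'.2⟩
  have h2 : ∑ v ∈ SA, (univ.filter fun w : Ix n → Fin (l ^ 2) =>
      Bad l (symM fun p => ((v p : ℕ) : ℤ)) (symM fun p => ((w p : ℕ) : ℤ))).card ≤
      (univ.filter fun v : Ix n ⊕ Ix n → Fin (l ^ 2) =>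
        Bad l (symM fun p => ((v (Sum.inl p) : ℕ) : ℤ))
          (symM fun p => ((v (Sum.inr p) : ℕ) : ℤ))).card := by
    rw [← Finset.card_sigma]
    refine Finset.card_le_card_of_injOn (fun s => Sum.elim s.1 s.2) ?_ ?_
    · rintro ⟨v, w⟩ hs
      have hs' := Finset.mem_sigma.1 (Finset.mem_coe.1 hs)
      exact Finset.mem_coe.2 (Finset.mem_filter.2 ⟨Finset.mem_univ _,
        (Finset.mem_filter.1 hs'.2).2⟩)
    · rintro ⟨v, w⟩ _ ⟨v', w'⟩ _ h
      have e1 : v = v' := funext fun p => congrFun h (Sum.inl p)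
      have e2 : w = w' := funext fun p => congrFun h (Sum.inr p)
      subst e1 e2
      rfl
  have h3 : (SA.card : ℝ) * M ≤ ((univ.filter fun v : Ix n ⊕ Ix n → Fin (l ^ 2) =>
        Bad l (symM fun p => ((v (Sum.inl p) : ℕ) : ℤ))
          (symM fun p => ((v (Sum.inr p) : ℕ) : ℤ))).card : ℝ) := by
    refine le_trans ?_ (Nat.cast_le.2 h2)
    rw [Nat.cast_sum, ← nsmul_eq_mul]
    exact Finset.card_nsmul_le_sum _ _ _ h1
  refine le_trans ?_ h3
  have h4 := BCount.card_nonsing (n := n) l hl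
  have h6 : ((l : ℝ) / 2) ^ n * (l : ℝ) ^ (n * (n - 1) / 2) * (l : ℝ) ^ (n * (n + 1) / 2) ≤
      (SA.card : ℝ) := by
    have h7 : (((l - 1 : ℕ) : ℝ)) ^ n * (l : ℝ) ^ (n * (n - 1) / 2) *
        (l : ℝ) ^ (n * (n + 1) / 2) ≤ (SA.card : ℝ) := by exact_mod_cast h4
    refine le_trans ?_ h7
    have h8 : (l : ℝ) / 2 ≤ ((l - 1 : ℕ) : ℝ) := by
      rw [Nat.cast_sub (by omega)]
      have : (5 : ℝ) ≤ l := by exact_mod_cast h5
      push_cast
      linarith
    gcongr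
  refine le_trans (le_of_eq ?_) (mul_le_mul_of_nonneg_right h6 hM0)
  have hexp : n + (n * (n - 1) / 2 + (n * (n + 1) / 2 + (n * (n + 1) - 1))) =
      2 * (n * (n + 1)) - 1 := by
    obtain ⟨k, rfl⟩ : ∃ k, n = k + 1 := ⟨n - 1, by omega⟩
    have e1 : 2 ∣ (k + 1) * (k + 1 - 1) := by
      rw [Nat.add_sub_cancel, mul_comm]; exact (Nat.even_mul_succ_self k).two_dvd
    have e2 : 2 ∣ (k + 1) * (k + 1 + 1) := (Nat.even_mul_succ_self (k + 1)).two_dvd
    obtain ⟨a, ha⟩ := e1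
    obtain ⟨b, hb⟩ := e2
    rw [ha, hb, Nat.mul_div_cancel_left _ two_pos, Nat.mul_div_cancel_left _ two_pos]
    rw [Nat.add_sub_cancel] at ha
    have e4 : (k + 1) * k = k * k + k := by ring
    have e5 : (k + 1) * (k + 1 + 1) = k * k + 3 * k + 2 := by ring
    rw [e4] at ha
    rw [e5] at hb
    omega
  rw [hM, ← hexp, pow_add, pow_add, pow_add, div_pow,
    show 2 * n + 3 = n + (n + 3) by ring, pow_add (2 : ℝ) n (n + 3)]
  field_simp

end Stoll308.BF
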