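import Pool.Agent.Work.MP_308fa9_nt.BF.Defs
import Pool.Agent.Work.MP_308fa9_nt.BG.Basic

set_option autoImplicit false

/-!
Working definitions of the full family.
-/

namespace Stoll308.BF

open Polynomial Finset Matrix BG

/-- The monic multiple of `f` over a field. -/
noncomputable def mon (K : Type*) [Field K] {n : ℕ} (a : Fin (n + 1) → ℤ) : K[X] :=
  C ((a 0 : K)⁻¹) * GZ K a

/-- Local condition: a point `y² = f(x²)`, `y ≠ 0`, such that `x² - θ` is `δ` times a square. -/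
def MLoc {n : ℕ} (a : Fin (n + 1) → ℤ) (δ : ℚ[X]) (K : Type*) [Field K] [Algebra ℚ K] : Prop :=
  ∃ (x y : K) (s : K[X]), y ≠ 0 ∧ y ^ 2 = (GZ K a).eval (x ^ 2) ∧
    GZ K a ∣ (C (x ^ 2) - X) - δ.map (algebraMap ℚ K) * s ^ 2

/-- The pair of integral matrices `(A, B)` is the pair of forms `τ(δ λ μ)`, `τ(θ δ λ μ)` in some
basis, `τ(μ) = [θ^(n-1)](μ) / a₀`. -/
def IsPair {n : ℕ} (a : Fin (n + 1) → ℤ) (δ : ℚ[X]) (A B : Matrix (Fin n) (Fin n) ℤ) : Prop :=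
  ∃ G : Matrix (Fin n) (Fin n) ℚ, G.det ≠ 0 ∧
    A.map (Int.cast : ℤ → ℚ) = (a 0 : ℚ)⁻¹ • (G * Hank n (mon ℚ a) δ * Gᵀ) ∧
    B.map (Int.cast : ℤ → ℚ) = (a 0 : ℚ)⁻¹ • (G * Hank n (mon ℚ a) (X * δ) * Gᵀ)

/-- The characteristic polynomial of the pair `(A, B)` is `± f`. -/
def HasChar {n : ℕ} (a : Fin (n + 1) → ℤ) (A B : Matrix (Fin n) (Fin n) ℤ) : Prop :=
  ((X : ℤ[X]) • A.map C - B.map C).det = C ((-1) ^ (n / 2)) * GZ ℤ a

/-- The local condition at the prime `l` fails for the pair. -/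
def Bad {n : ℕ} (l : ℕ) (A B : Matrix (Fin n) (Fin n) ℤ) : Prop :=
  (l : ℤ) ∣ B.det ∧ ¬ (l : ℤ) ^ 2 ∣ B.det ∧ ¬ (l : ℤ) ∣ (B.adjugate * A).trace ∧
    ∃ _h : Fact l.Prime, ∃ i, legendreSym l ((-1) ^ (n / 2 + 1) * B.adjugate i i) = -1

/-- A reduced pair: `K` is a constant, `H` the height, `t` the lengths of the basis. -/
structure RPair {n : ℕ} (K H : ℝ) (a : Fin (n + 1) → ℤ) (A B : Matrix (Fin n) (Fin n) ℤ)
    (t : Fin n → ℝ) : Prop where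
  symA : A.IsSymm
  symB : B.IsSymm
  char : HasChar a A B
  pos : ∀ i, 0 < t i
  hA : ∀ i j, |(A i j : ℝ)| ≤ t i * t j
  hB : ∀ i j, |(B i j : ℝ)| ≤ t i * t j
  mono : ∀ i j, i ≤ j → t i ≤ t j
  prod : (∏ i, t i) ^ 2 ≤ K * H
  prod' : ∀ i, |(a i : ℝ)| ≤ K * (∏ i, t i) ^ 2

end Stoll308.BF
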