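import Mathlib

set_option autoImplicit false

/-!
The inequality of the exponents.
-/

namespace Stoll308.BF

open Finset

namespace ExpoAux

lemma flip (N : ℕ) (f : ℕ → ℝ) :
    ∑ j ∈ range (N + 1), f (N - j) = ∑ j ∈ range (N + 1), f j := by
  have := Finset.sum_range_reflect f (N + 1)
  simpa using this

/-- one term of the sum -/
lemma term (m : ℕ) (Y : ℕ → ℝ) (hY : ∀ i j, i ≤ j → j ≤ 2 * m + 1 → Y j ≤ Y i)
    (hc : ∀ i, i ≤ 2 * m → Y i + Y (2 * m - i) ≤ 0) (i j : ℕ) (hj : j ≤ 2 * m + 1) :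
    2 * (if i ≤ j then max 0 (Y i + Y j) else 0) +
        (if i = 0 ∧ j = m ∧ 1 ≤ m then (Y 0 - 2 * Y m + Y (2 * m)) / 2 else 0) ≤
      (if i ≤ j ∧ i + j < 2 * m then Y i - Y (2 * m - j) else 0) +
        (if i ≤ j ∧ i + j < 2 * m then Y j - Y (2 * m - i) else 0) := by
  by_cases hij : i ≤ j
  swap
  · have z1 : ¬(i ≤ j ∧ i + j < 2 * m) := fun h => hij h.1
    have z2 : ¬(i = 0 ∧ j = m ∧ 1 ≤ m) := fun h => hij (by omega)
    rw [if_neg hij, if_neg z1, if_neg z1, if_neg z2]
    norm_num
  rw [if_pos hij]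
  by_cases hs : i + j < 2 * m
  · have z1 : i ≤ j ∧ i + j < 2 * m := ⟨hij, hs⟩
    rw [if_pos z1, if_pos z1]
    have a := hc i (by omega)
    have b := hc j (by omega)
    have c := hY i (2 * m - j) (by omega) (by omega)
    have d := hY j (2 * m - i) (by omega) (by omega)
    by_cases h0 : i = 0 ∧ j = m ∧ 1 ≤ m
    · rw [if_pos h0]
      obtain ⟨rfl, rfl, hm⟩ := h0
      have e1 : 2 * j - j = j := by omega
      rw [e1] at b c ⊢
      rw [Nat.sub_zero] at a d ⊢
      rcases max_cases 0 (Y 0 + Y j) with ⟨h1, h2⟩ | ⟨h1, h2⟩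
      · rw [h1]
        linarith
      · rw [h1]
        linarith
    · rw [if_neg h0]
      rcases max_cases 0 (Y i + Y j) with ⟨h1, h2⟩ | ⟨h1, h2⟩
      · rw [h1]
        linarith
      · rw [h1]
        linarith
  · have z1 : ¬(i ≤ j ∧ i + j < 2 * m) := fun h => hs h.2
    have z2 : ¬(i = 0 ∧ j = m ∧ 1 ≤ m) := fun h => hs (by omega)
    rw [if_neg z1, if_neg z1, if_neg z2]
    have a : Y i + Y j ≤ 0 := by
      by_cases hi : i ≤ 2 * m
      · have := hc i hi
        have := hY (2 * m - i) j (by omega) hj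
        linarith
      · have a1 := hc 0 (by omega)
        have a2 := hY 0 i (by omega) (by omega)
        have a3 := hY (2 * m - 0) j (by omega) hj
        linarith
    rw [max_eq_left a]
    norm_num

lemma core (m : ℕ) (Y : ℕ → ℝ) (hY : ∀ i j, i ≤ j → j ≤ 2 * m + 1 → Y j ≤ Y i)
    (hc : ∀ i, i ≤ 2 * m → Y i + Y (2 * m - i) ≤ 0) :
    2 * (∑ i ∈ range (2 * m + 2), ∑ j ∈ range (2 * m + 2),
        if i ≤ j then max 0 (Y i + Y j) else 0) + (Y 0 - Y (2 * m + 1)) / 2 ≤
      ∑ i ∈ range (2 * m + 2), ∑ j ∈ range (2 * m + 2), if j < i then Y j - Y i else 0 := by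
  set N := 2 * m with hN
  -- the sum of the terms
  have h1 : 2 * (∑ i ∈ range (N + 2), ∑ j ∈ range (N + 2),
        if i ≤ j then max 0 (Y i + Y j) else 0) +
        (if 1 ≤ m then (Y 0 - 2 * Y m + Y N) / 2 else 0) ≤
      (∑ i ∈ range (N + 2), ∑ j ∈ range (N + 2),
        if i ≤ j ∧ i + j < N then Y i - Y (N - j) else 0) +
      (∑ i ∈ range (N + 2), ∑ j ∈ range (N + 2),
        if i ≤ j ∧ i + j < N then Y j - Y (N - i) else 0) := by
    have e : (if 1 ≤ m then (Y 0 - 2 * Y m + Y N) / 2 else 0) =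
        ∑ i ∈ range (N + 2), ∑ j ∈ range (N + 2),
          if i = 0 ∧ j = m ∧ 1 ≤ m then (Y 0 - 2 * Y m + Y N) / 2 else 0 := by
      rw [Finset.sum_eq_single 0]
      · rw [Finset.sum_eq_single m]
        · simp
        · intro j _ hj
          rw [if_neg (fun h => hj h.2.1)]
        · intro h
          exact absurd (Finset.mem_range.mpr (by omega)) h
      · intro i _ hi
        refine Finset.sum_eq_zero fun j _ => ?_
        rw [if_neg (fun h => hi h.1)]
      · intro h
        exact absurd (Finset.mem_range.mpr (by omega)) h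
    rw [e, Finset.mul_sum, ← Finset.sum_add_distrib, ← Finset.sum_add_distrib]
    refine Finset.sum_le_sum fun i _ => ?_
    rw [Finset.mul_sum, ← Finset.sum_add_distrib, ← Finset.sum_add_distrib]
    refine Finset.sum_le_sum fun j hj => ?_
    exact term m Y hY hc i j (by
      have := Finset.mem_range.mp hj
      omega)
  -- the first half
  have h2 : (∑ i ∈ range (N + 2), ∑ j ∈ range (N + 2),
        if i ≤ j ∧ i + j < N then Y i - Y (N - j) else 0) =
      ∑ a ∈ range (N + 1), ∑ b ∈ range (N + 1), if a < b ∧ a + b ≤ N then Y a - Y b else 0 := by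
    rw [Finset.sum_range_succ _ (N + 1)]
    have z : (∑ j ∈ range (N + 2), if N + 1 ≤ j ∧ N + 1 + j < N then Y (N + 1) - Y (N - j) else 0)
        = 0 := Finset.sum_eq_zero fun j _ => if_neg (by omega)
    rw [z, add_zero]
    refine Finset.sum_congr rfl fun i _ => ?_
    rw [Finset.sum_range_succ, if_neg (by omega), add_zero,
      ← flip N (fun b => if i < b ∧ i + b ≤ N then Y i - Y b else 0)]
    refine Finset.sum_congr rfl fun j hj => ?_
    have hj' := Finset.mem_range.mp hj
    by_cases h : i ≤ j ∧ i + j < N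
    · rw [if_pos h, if_pos (by omega)]
    · rw [if_neg h, if_neg (by omega)]
  have h3 : (∑ i ∈ range (N + 2), ∑ j ∈ range (N + 2),
        if i ≤ j ∧ i + j < N then Y j - Y (N - i) else 0) =
      ∑ a ∈ range (N + 1), ∑ b ∈ range (N + 1), if a < b ∧ N ≤ a + b then Y a - Y b else 0 := by
    rw [Finset.sum_comm, Finset.sum_range_succ _ (N + 1)]
    have z : (∑ i ∈ range (N + 2), if i ≤ N + 1 ∧ i + (N + 1) < N then Y (N + 1) - Y (N - i) else 0)
        = 0 := Finset.sum_eq_zero fun j _ => if_neg (by omega)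
    rw [z, add_zero]
    refine Finset.sum_congr rfl fun j hj => ?_
    have hj' := Finset.mem_range.mp hj
    rw [Finset.sum_range_succ, if_neg (by omega), add_zero,
      ← flip N (fun b => if j < b ∧ N ≤ j + b then Y j - Y b else 0)]
    refine Finset.sum_congr rfl fun i hi => ?_
    have hi' := Finset.mem_range.mp hi
    by_cases h : i ≤ j ∧ i + j < N
    · rw [if_pos h, if_pos (by omega)]
    · rw [if_neg h, if_neg (by omega)]
  have h4 : (∑ a ∈ range (N + 1), ∑ b ∈ range (N + 1),
        if a < b ∧ a + b ≤ N then Y a - Y b else 0) +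
      (∑ a ∈ range (N + 1), ∑ b ∈ range (N + 1), if a < b ∧ N ≤ a + b then Y a - Y b else 0) =
      (∑ a ∈ range (N + 1), ∑ b ∈ range (N + 1), if a < b then Y a - Y b else 0) +
        ∑ a ∈ range m, (Y a - Y (N - a)) := by
    have e : ∑ a ∈ range m, (Y a - Y (N - a)) =
        ∑ a ∈ range (N + 1), ∑ b ∈ range (N + 1), if a < b ∧ a + b = N then Y a - Y b else 0 := by
      have e1 : range m = (range (N + 1)).filter (· < m) := by
        ext k
        rw [Finset.mem_filter, Finset.mem_range, Finset.mem_range]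
        omega
      rw [e1, Finset.sum_filter]
      refine Finset.sum_congr rfl fun a ha => ?_
      have ha' := Finset.mem_range.mp ha
      rw [Finset.sum_eq_single (N - a)]
      · by_cases h : a < m
        · rw [if_pos h, if_pos (by omega)]
        · rw [if_neg h, if_neg (by omega)]
      · intro b _ hb
        rw [if_neg (by omega)]
      · intro h
        exact absurd (Finset.mem_range.mpr (by omega)) h
    rw [e, ← Finset.sum_add_distrib, ← Finset.sum_add_distrib]
    refine Finset.sum_congr rfl fun a _ => ?_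
    rw [← Finset.sum_add_distrib, ← Finset.sum_add_distrib]
    refine Finset.sum_congr rfl fun b _ => ?_
    by_cases hab : a < b
    · rcases lt_trichotomy (a + b) N with h | h | h
      · rw [if_pos ⟨hab, h.le⟩, if_neg (by omega), if_pos hab, if_neg (by omega)]
      · rw [if_pos ⟨hab, h.le⟩, if_pos ⟨hab, h.ge⟩, if_pos hab, if_pos ⟨hab, h⟩]
      · rw [if_neg (by omega), if_pos ⟨hab, h.le⟩, if_pos hab, if_neg (by omega), zero_add,
          add_zero]
    · rw [if_neg (fun h => hab h.1), if_neg (fun h => hab h.1), if_neg hab,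
        if_neg (fun h => hab h.1)]
  -- the right-hand side
  have h5 : (∑ i ∈ range (N + 2), ∑ j ∈ range (N + 2), if j < i then Y j - Y i else 0) =
      (∑ a ∈ range (N + 1), ∑ b ∈ range (N + 1), if a < b then Y a - Y b else 0) +
        ∑ a ∈ range (N + 1), (Y a - Y (N + 1)) := by
    rw [Finset.sum_comm, Finset.sum_range_succ _ (N + 1)]
    have z : (∑ i ∈ range (N + 2), if N + 1 < i then Y (N + 1) - Y i else 0) = 0 :=
      Finset.sum_eq_zero fun j hj => if_neg (by
        have := Finset.mem_range.mp hj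
        omega)
    rw [z, add_zero, ← Finset.sum_add_distrib]
    refine Finset.sum_congr rfl fun a ha => ?_
    have ha' := Finset.mem_range.mp ha
    rw [Finset.sum_range_succ, if_pos ha']
  have h6 : (∑ a ∈ range m, (Y a - Y (N - a))) + (Y m - Y (N + 1)) ≤
      ∑ a ∈ range (N + 1), (Y a - Y (N + 1)) := by
    have e1 : ∑ a ∈ range (m + 1), (Y a - Y (N + 1)) ≤ ∑ a ∈ range (N + 1), (Y a - Y (N + 1)) := by
      refine Finset.sum_le_sum_of_subset_of_nonneg ?_ ?_
      · intro k hk
        rw [Finset.mem_range] at hk ⊢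
        omega
      · intro k hk _
        have := hY k (N + 1) (by
          have := Finset.mem_range.mp hk
          omega) (by omega)
        linarith
    rw [Finset.sum_range_succ] at e1
    have e2 : ∑ a ∈ range m, (Y a - Y (N - a)) ≤ ∑ a ∈ range m, (Y a - Y (N + 1)) := by
      refine Finset.sum_le_sum fun a _ => ?_
      have := hY (N - a) (N + 1) (by omega) (by omega)
      linarith
    linarith
  rw [h5]
  rw [h2, h3, h4] at h1
  have h7 : Y (N + 1) ≤ Y N := hY N (N + 1) (by omega) (by omega)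
  rcases Nat.eq_zero_or_pos m with hm | hm
  · rw [if_neg (by omega)] at h1
    have h8 : Y 0 = Y m := by rw [hm]
    have h9 := hY 0 (N + 1) (by omega) (by omega)
    rw [← h8] at h6
    linarith
  · rw [if_pos (show 1 ≤ m from hm)] at h1
    linarith

end ExpoAux

theorem expo (n : ℕ) (hn : 2 ≤ n) (he : Even n) (y : Fin n → ℝ) (hy : ∀ i j, i ≤ j → y j ≤ y i)
    (hc : ∀ i j : Fin n, (i : ℕ) + j = n - 2 → y i + y j ≤ 0) :
    2 * ∑ i, ∑ j ∈ univ.filter (i ≤ ·), max 0 (y i + y j) +
        (y ⟨0, by omega⟩ - y ⟨n - 1, by omega⟩) / 2 ≤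
      ∑ i, ∑ j ∈ univ.filter (· < i), (y j - y i) := by
  obtain ⟨m, rfl⟩ : ∃ m, n = 2 * m + 2 := by
    obtain ⟨r, hr⟩ := he
    exact ⟨r - 1, by omega⟩
  set Y : ℕ → ℝ := fun k => if h : k < 2 * m + 2 then y ⟨k, h⟩ else 0 with hYd
  have hYv : ∀ k (h : k < 2 * m + 2), Y k = y ⟨k, h⟩ := fun k h => by
    rw [hYd]
    simp only [h, dif_pos]
  have key := ExpoAux.core m Y
    (fun i j hij hj => by
      rw [hYv i (by omega), hYv j (by omega)]
      exact hy _ _ hij)
    (fun i hi => by
      rw [hYv i (by omega), hYv (2 * m - i) (by omega)]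
      exact hc _ _ (by simp only []; omega))
  rw [hYv 0 (by omega), hYv (2 * m + 1) (by omega)] at key
  have e1 : ∑ i, ∑ j ∈ univ.filter (i ≤ ·), max 0 (y i + y j) =
      ∑ i ∈ range (2 * m + 2), ∑ j ∈ range (2 * m + 2),
        if i ≤ j then max 0 (Y i + Y j) else 0 := by
    rw [← Fin.sum_univ_eq_sum_range (fun i => ∑ j ∈ range (2 * m + 2),
        if i ≤ j then max 0 (Y i + Y j) else 0)]
    refine Finset.sum_congr rfl fun i _ => ?_
    rw [← Fin.sum_univ_eq_sum_range (fun j => if (i : ℕ) ≤ j then max 0 (Y i + Y j) else 0),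
      Finset.sum_filter]
    refine Finset.sum_congr rfl fun j _ => ?_
    rw [hYv i i.2, hYv j j.2]
    by_cases h : i ≤ j
    · rw [if_pos h, if_pos (Fin.le_def.mp h)]
    · rw [if_neg h, if_neg (fun h' => h (Fin.le_def.mpr h'))]
  have e2 : ∑ i, ∑ j ∈ univ.filter (· < i), (y j - y i) =
      ∑ i ∈ range (2 * m + 2), ∑ j ∈ range (2 * m + 2), if j < i then Y j - Y i else 0 := by
    rw [← Fin.sum_univ_eq_sum_range (fun i => ∑ j ∈ range (2 * m + 2),
        if j < i then Y j - Y i else 0)]
    refine Finset.sum_congr rfl fun i _ => ?_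
    rw [← Fin.sum_univ_eq_sum_range (fun j => if j < (i : ℕ) then Y j - Y i else 0),
      Finset.sum_filter]
    refine Finset.sum_congr rfl fun j _ => ?_
    rw [hYv i i.2, hYv j j.2]
    by_cases h : j < i
    · rw [if_pos h, if_pos (Fin.lt_def.mp h)]
    · rw [if_neg h, if_neg (fun h' => h (Fin.lt_def.mpr h'))]
  rw [e1, e2]
  exact key

end Stoll308.BF
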