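import Pool.Agent.Work.MP_308fa9_nt.BF.Basic
import Pool.Agent.Work.MP_308fa9_nt.BG.Irr

set_option autoImplicit false

/-!
Irreducibility: no large zero blocks, no unitriangular automorphisms.
-/

namespace Stoll308.BF

open Polynomial Finset Matrix BG

namespace Irr

theorem gpol_coeff {R : Type*} [CommRing R] {n : ℕ} (a : Fin (n + 1) → R) (i : Fin (n + 1)) :
    (gpol a).coeff (n - (i : ℕ)) = a i := by
  unfold gpol
  rw [finsetSum_coeff]
  simp only [coeff_C_mul, coeff_X_pow]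
  rw [Finset.sum_eq_single i]
  · simp
  · intro b _ hb
    rw [if_neg]
    · simp
    · intro h
      apply hb
      apply Fin.ext
      have h1 := b.2
      have h2 := i.2
      omega
  · simp

theorem gpol_natDegree {R : Type*} [CommRing R] {n : ℕ} (a : Fin (n + 1) → R)
    (h0 : a 0 ≠ 0) : (gpol a).natDegree = n := by
  refine le_antisymm ?_ ?_
  · unfold gpol
    refine natDegree_sum_le_of_forall_le _ _ (fun i _ => ?_)
    exact (natDegree_C_mul_X_pow_le _ _).trans (Nat.sub_le _ _)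
  · apply le_natDegree_of_ne_zero
    have := gpol_coeff a 0
    rw [Fin.val_zero, Nat.sub_zero] at this
    rw [this]
    exact h0

theorem GZ_natDegree {n : ℕ} (a : Fin (n + 1) → ℤ) (h0 : a 0 ≠ 0) :
    (GZ ℚ a).natDegree = n :=
  gpol_natDegree _ (by exact_mod_cast h0)

theorem det_eq {n : ℕ} {a : Fin (n + 1) → ℤ} {A B : Matrix (Fin n) (Fin n) ℤ}
    (h : HasChar a A B) : A.det = (-1) ^ (n / 2) * a 0 := by
  have h1 : ((X : ℤ[X]) • A.map C - B.map C).det.coeff n
      = (C ((-1) ^ (n / 2)) * GZ ℤ a).coeff n := by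
    rw [h]
  have h2 : ((X : ℤ[X]) • A.map C - B.map C) = ((X : ℤ[X]) • A.map C + (-B).map C) := by
    ext i j
    simp [sub_eq_add_neg]
  rw [h2] at h1
  have h3 := Polynomial.coeff_det_X_add_C_card A (-B)
  rw [Fintype.card_fin] at h3
  rw [h3, coeff_C_mul] at h1
  have h4 := gpol_coeff (fun i => (a i : ℤ)) 0
  rw [Fin.val_zero, Nat.sub_zero] at h4
  rw [h1]
  unfold GZ
  congr 1

theorem setup {n : ℕ} (a : Fin (n + 1) → ℤ) (ha : a 0 ≠ 0) (A B : Matrix (Fin n) (Fin n) ℤ)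
    (h : HasChar a A B) :
    ∃ M : Matrix (Fin n) (Fin n) ℚ, A.map (Int.cast : ℤ → ℚ) * M = B.map (Int.cast : ℤ → ℚ) ∧
      IsUnit (A.map (Int.cast : ℤ → ℚ)) ∧ aeval M (GZ ℚ a) = 0 := by
  have h0 : A.det ≠ 0 := by
    rw [det_eq h]
    exact mul_ne_zero (pow_ne_zero _ (by norm_num)) ha
  have h1 := h
  unfold HasChar at h1
  set A' : Matrix (Fin n) (Fin n) ℚ := A.map (Int.cast : ℤ → ℚ) with hA'
  set B' : Matrix (Fin n) (Fin n) ℚ := B.map (Int.cast : ℤ → ℚ) with hB'
  have hdet : A'.det = (A.det : ℚ) := by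
    rw [hA']
    exact (RingHom.map_det (Int.castRingHom ℚ) A).symm
  have hdet0 : A'.det ≠ 0 := by
    rw [hdet]; exact_mod_cast h0
  have hu : IsUnit A'.det := isUnit_iff_ne_zero.2 hdet0
  refine ⟨A'⁻¹ * B', ?_, (Matrix.isUnit_iff_isUnit_det _).2 hu, ?_⟩
  · rw [← Matrix.mul_assoc, Matrix.mul_nonsing_inv _ hu, Matrix.one_mul]
  · have hchar : C A'.det * (A'⁻¹ * B').charpoly = C ((-1) ^ (n / 2)) * GZ ℚ a := by
      have h2 := congrArg (Polynomial.map (Int.castRingHom ℚ)) h1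
      rw [Polynomial.map_mul, Polynomial.map_C] at h2
      have h3 : Polynomial.map (Int.castRingHom ℚ) (GZ ℤ a) = GZ ℚ a := by
        simp [GZ, gpol, Polynomial.map_sum]
      rw [h3] at h2
      have h4 : Polynomial.map (Int.castRingHom ℚ) ((X : ℤ[X]) • A.map C - B.map C).det =
          ((X : ℚ[X]) • A'.map C - B'.map C).det := by
        have := RingHom.map_det (Polynomial.mapRingHom (Int.castRingHom ℚ))
          ((X : ℤ[X]) • A.map C - B.map C)
        rw [Polynomial.coe_mapRingHom] at this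
        rw [this]
        congr 1
        ext i j
        simp [hA', hB']
      rw [h4] at h2
      have h5 : (X : ℚ[X]) • A'.map C - B'.map C =
          (A'.map C) * charmatrix (A'⁻¹ * B') := by
        rw [charmatrix, Matrix.mul_sub]
        congr 1
        · rw [Matrix.scalar_apply, ← Matrix.smul_one_eq_diagonal, Matrix.mul_smul, Matrix.mul_one]
        · have : (A' * (A'⁻¹ * B')).map (C : ℚ → ℚ[X]) = B'.map C := by
            rw [← Matrix.mul_assoc, Matrix.mul_nonsing_inv _ hu, Matrix.one_mul]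
          rw [← this]
          exact Matrix.map_mul (f := (C : ℚ →+* ℚ[X]))
      rw [h5, Matrix.det_mul] at h2
      have h6 : (A'.map (C : ℚ → ℚ[X])).det = C A'.det :=
        (RingHom.map_det (C : ℚ →+* ℚ[X]) A').symm
      rw [h6] at h2
      rw [Matrix.charpoly, h2]
      simp
    have h8 := Matrix.aeval_self_charpoly (A'⁻¹ * B')
    have h9 : aeval (A'⁻¹ * B') (C ((-1 : ℚ) ^ (n / 2)) * GZ ℚ a) = 0 := by
      rw [← hchar, map_mul, h8, mul_zero]
    have h10 : aeval (A'⁻¹ * B') (C ((-1 : ℚ) ^ (n / 2)) * (C ((-1) ^ (n / 2)) * GZ ℚ a)) = 0 := by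
      rw [map_mul, h9, mul_zero]
    rwa [← mul_assoc, ← C_mul, ← mul_pow, neg_one_mul, neg_neg, one_pow, C_1, one_mul] at h10

end Irr

lemma HasChar.inj {n : ℕ} {a a' : Fin (n + 1) → ℤ} {A B : Matrix (Fin n) (Fin n) ℤ}
    (h : HasChar a A B) (h' : HasChar a' A B) : a = a' := by
  unfold HasChar at h h'
  rw [h] at h'
  have h1 : GZ ℤ a = GZ ℤ a' := by
    refine mul_left_cancel₀ ?_ h'
    rw [Ne, C_eq_zero]
    exact pow_ne_zero _ (by norm_num)
  funext i
  have h2 := Irr.gpol_coeff (fun i => ((a i : ℤ) : ℤ)) i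
  have h3 := Irr.gpol_coeff (fun i => ((a' i : ℤ) : ℤ)) i
  have h4 : (GZ ℤ a).coeff (n - (i : ℕ)) = (GZ ℤ a').coeff (n - (i : ℕ)) := by rw [h1]
  exact (h2.symm.trans h4).trans h3

theorem block_ne {n : ℕ} (a : Fin (n + 1) → ℤ) (h0 : a 0 ≠ 0) (hF : Irreducible (GZ ℚ a))
    (A B : Matrix (Fin n) (Fin n) ℤ) (h : HasChar a A B) (r : ℕ) (h1 : 1 ≤ r) (h2 : r < n) :
    ∃ i j : Fin n, (i : ℕ) < r ∧ (j : ℕ) < n - r ∧ (A i j ≠ 0 ∨ B i j ≠ 0) := by
  by_contra hcon
  push Not at hcon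
  obtain ⟨M, hAM, hA, hM⟩ := Irr.setup a h0 A B h
  set A' : Matrix (Fin n) (Fin n) ℚ := A.map (Int.cast : ℤ → ℚ) with hA'
  set B' : Matrix (Fin n) (Fin n) ℚ := B.map (Int.cast : ℤ → ℚ) with hB'
  set J : Set (Fin n) := {j | n - r ≤ (j : ℕ)} with hJ
  set I : Set (Fin n) := {i | (i : ℕ) < r} with hI
  set S : Submodule ℚ (Fin n → ℚ) := BG.Irr.Van J with hS
  set U : Submodule ℚ (Fin n → ℚ) := BG.Irr.Van I with hU
  have hinj : Function.Injective A'.mulVecLin := by
    rw [Matrix.coe_mulVecLin]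
    exact Matrix.mulVec_injective_iff_isUnit.2 hA
  have hzero : ∀ (P : Matrix (Fin n) (Fin n) ℚ), (∀ i j : Fin n, (i : ℕ) < r → (j : ℕ) < n - r →
      P i j = 0) → ∀ v ∈ S, P *ᵥ v ∈ U := by
    intro P hP v hv
    rw [hU, BG.Irr.mem_Van]
    intro i hi
    rw [Matrix.mulVec, dotProduct]
    refine Finset.sum_eq_zero (fun j _ => ?_)
    by_cases hj : (j : ℕ) < n - r
    · rw [hP i j hi hj, zero_mul]
    · rw [hS, BG.Irr.mem_Van] at hv
      rw [hv j (not_lt.1 hj), mul_zero]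
  have hAS : ∀ v ∈ S, A' *ᵥ v ∈ U := hzero A' (fun i j hi hj => by
    rw [hA', Matrix.map_apply, (hcon i j hi hj).1, Int.cast_zero])
  have hBS : ∀ v ∈ S, B' *ᵥ v ∈ U := hzero B' (fun i j hi hj => by
    rw [hB', Matrix.map_apply, (hcon i j hi hj).2, Int.cast_zero])
  have hmap : S.map A'.mulVecLin = U := by
    refine Submodule.eq_of_le_of_finrank_eq ?_ ?_
    · rintro _ ⟨v, hv, rfl⟩
      exact hAS v hv
    · rw [← (Submodule.equivMapOfInjective A'.mulVecLin hinj S).finrank_eq, hS, hU,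
        BG.Irr.finrank_Van, BG.Irr.finrank_Van]
      have e1 : Fintype.card {j : Fin n // j ∉ J} = n - r := by
        rw [Fintype.card_congr (Equiv.subtypeEquivRight (q := fun j : Fin n => (j : ℕ) < n - r)
          (fun j => by
            rw [hJ, Set.mem_ofPred_eq]
            exact not_le))]
        rw [Fintype.card_subtype, Fin.card_filter_val_lt]
        omega
      have e2 : Fintype.card {i : Fin n // i ∉ I} = n - r := by
        have h3 := Fintype.card_subtype_compl (fun i : Fin n => (i : ℕ) < r)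
        have h4 : Fintype.card {i : Fin n // (i : ℕ) < r} = r := by
          rw [Fintype.card_subtype, Fin.card_filter_val_lt]; omega
        rw [Fintype.card_fin, h4] at h3
        exact h3
      rw [e1, e2]
  have hSinv : ∀ v ∈ S, M *ᵥ v ∈ S := by
    intro v hv
    have h3 : A' *ᵥ (M *ᵥ v) ∈ S.map A'.mulVecLin := by
      rw [hmap, Matrix.mulVec_mulVec, hAM]
      exact hBS v hv
    obtain ⟨u, hu, hu2⟩ := h3
    have : u = M *ᵥ v := hinj hu2
    rwa [← this]
  have hn : 0 < n := by omega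
  have hw : (Pi.single (⟨0, hn⟩ : Fin n) (1 : ℚ)) ∈ S := by
    rw [hS, BG.Irr.mem_Van]
    intro j hj
    rw [Pi.single_apply, if_neg]
    intro h3
    rw [hJ, Set.mem_ofPred_eq, h3] at hj
    simp only at hj
    omega
  have htop := BG.Irr.invariant M hF (Irr.GZ_natDegree a h0) hM S hSinv hw (by simp)
  have h5 : (Pi.single (⟨n - 1, by omega⟩ : Fin n) (1 : ℚ)) ∈ S := by
    rw [htop]; exact Submodule.mem_top
  rw [hS, BG.Irr.mem_Van] at h5
  have h6 := h5 ⟨n - 1, by omega⟩ (by rw [hJ, Set.mem_ofPred_eq]; simp only; omega)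
  rw [Pi.single_eq_same] at h6
  exact one_ne_zero h6

theorem stab {n : ℕ} (a : Fin (n + 1) → ℤ) (h0 : a 0 ≠ 0) (hF : Irreducible (GZ ℚ a))
    (A B W : Matrix (Fin n) (Fin n) ℤ) (h : HasChar a A B) (hW1 : ∀ i, W i i = 1)
    (hW2 : ∀ i j, i < j → W i j = 0) (hA : W * A * Wᵀ = A) (hB : W * B * Wᵀ = B) : W = 1 := by
  rcases Nat.eq_zero_or_pos n with hn | hn
  · subst hn
    exact Subsingleton.elim _ _
  obtain ⟨M, hAM, hAu, hM⟩ := Irr.setup a h0 A B h
  set A' : Matrix (Fin n) (Fin n) ℚ := A.map (Int.cast : ℤ → ℚ) with hA'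
  set B' : Matrix (Fin n) (Fin n) ℚ := B.map (Int.cast : ℤ → ℚ) with hB'
  set W' : Matrix (Fin n) (Fin n) ℚ := W.map (Int.cast : ℤ → ℚ) with hW'
  have cast_mul : ∀ P Q : Matrix (Fin n) (Fin n) ℤ, (P * Q).map (Int.cast : ℤ → ℚ) =
      P.map (Int.cast : ℤ → ℚ) * Q.map (Int.cast : ℤ → ℚ) := by
    intro P Q
    exact Matrix.map_mul (f := Int.castRingHom ℚ)
  have hA2 : W' * A' * W'ᵀ = A' := by
    have := congrArg (fun P : Matrix (Fin n) (Fin n) ℤ => P.map (Int.cast : ℤ → ℚ)) hA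
    simp only [cast_mul] at this
    exact this
  have hB2 : W' * B' * W'ᵀ = B' := by
    have := congrArg (fun P : Matrix (Fin n) (Fin n) ℤ => P.map (Int.cast : ℤ → ℚ)) hB
    simp only [cast_mul] at this
    exact this
  have hWu : IsUnit W' := by
    have h1 : IsUnit (W' * A' * W'ᵀ) := by rw [hA2]; exact hAu
    rw [Matrix.isUnit_iff_isUnit_det] at h1 ⊢
    rw [Matrix.det_mul, Matrix.det_mul] at h1
    exact isUnit_of_mul_isUnit_left (isUnit_of_mul_isUnit_left h1)
  have hcomm : W'ᵀ * M = M * W'ᵀ := by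
    have h1 : W' * (A' * (W'ᵀ * M)) = W' * (A' * (M * W'ᵀ)) := by
      rw [← Matrix.mul_assoc A' M, hAM, ← Matrix.mul_assoc A', ← Matrix.mul_assoc W',
        ← Matrix.mul_assoc W' A', hA2, hAM, ← Matrix.mul_assoc, hB2]
    exact hAu.mul_left_cancel (hWu.mul_left_cancel h1)
  let S : Submodule ℚ (Fin n → ℚ) := LinearMap.ker (W'ᵀ.mulVecLin - LinearMap.id)
  have hSmem : ∀ v, v ∈ S ↔ W'ᵀ *ᵥ v = v := by
    intro v
    simp only [S, LinearMap.mem_ker, LinearMap.sub_apply, Matrix.mulVecLin_apply,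
      LinearMap.id_coe, id_eq, sub_eq_zero]
  have hSinv : ∀ v ∈ S, M *ᵥ v ∈ S := by
    intro v hv
    rw [hSmem] at hv ⊢
    rw [Matrix.mulVec_mulVec, hcomm, ← Matrix.mulVec_mulVec, hv]
  have hw : (Pi.single (⟨0, hn⟩ : Fin n) (1 : ℚ)) ∈ S := by
    rw [hSmem, Matrix.mulVec_single_one]
    ext i
    rw [Matrix.col_apply, Matrix.transpose_apply, hW', Matrix.map_apply, Pi.single_apply]
    by_cases hi : i = ⟨0, hn⟩
    · rw [if_pos hi, hi, hW1, Int.cast_one]
    · rw [if_neg hi, hW2, Int.cast_zero]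
      rw [Fin.lt_def]
      have : (i : ℕ) ≠ 0 := fun h0 => hi (Fin.ext h0)
      simp only
      omega
  have htop := BG.Irr.invariant M hF (Irr.GZ_natDegree a h0) hM S hSinv hw (by simp)
  have hW3 : W'ᵀ = 1 := by
    ext i j
    have h1 : (Pi.single j (1 : ℚ) : Fin n → ℚ) ∈ S := by rw [htop]; exact Submodule.mem_top
    rw [hSmem, Matrix.mulVec_single_one] at h1
    have h2 := congrFun h1 i
    rw [Matrix.col_apply] at h2
    rw [h2, Matrix.one_apply, Pi.single_apply]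
  ext i j
  have h1 := congrFun (congrFun hW3 j) i
  rw [Matrix.transpose_apply, hW', Matrix.map_apply, Matrix.one_apply] at h1
  rw [Matrix.one_apply]
  by_cases hij : i = j
  · rw [if_pos hij]
    rw [if_pos hij.symm] at h1
    exact_mod_cast h1
  · rw [if_neg hij]
    rw [if_neg (fun h => hij h.symm)] at h1
    exact_mod_cast h1

end Stoll308.BF
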