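import Pool.Agent.Work.MP_308fa9_nt.BG.Cusp
import Pool.Agent.Work.MP_308fa9_nt.BF.Expo
import Pool.Agent.Work.MP_308fa9_nt.BF.Irr

set_option autoImplicit false

/-!
Few polynomials come from reduced pairs with lengths of different size.
-/

namespace Stoll308.BF

open Polynomial Finset Matrix BG

namespace Cusp

/-- Unimodular changes of the basis. -/
lemma char_congr {n : ℕ} {a : Fin (n + 1) → ℤ} {A B W : Matrix (Fin n) (Fin n) ℤ} (hW : W.det = 1)
    (h : HasChar a A B) : HasChar a (W * A * Wᵀ) (W * B * Wᵀ) := by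
  unfold HasChar at h ⊢
  have e : (X : ℤ[X]) • (W * A * Wᵀ).map C - (W * B * Wᵀ).map C =
      W.map C * ((X : ℤ[X]) • A.map C - B.map C) * (W.map C)ᵀ := by
    rw [Matrix.map_mul, Matrix.map_mul, Matrix.map_mul, Matrix.map_mul, Matrix.mul_sub,
      Matrix.sub_mul, Matrix.mul_smul, Matrix.smul_mul, transpose_map]
  have hWC : (W.map (C : ℤ → ℤ[X])).det = 1 := by
    have := RingHom.map_det (C : ℤ →+* ℤ[X]) W
    rw [hW, map_one] at this
    exact this.symm
  rw [e, det_mul, det_mul, det_transpose, hWC, one_mul, mul_one, h]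

lemma one_le_abs_cast {z : ℤ} (h : z ≠ 0) : (1 : ℝ) ≤ |(z : ℝ)| := by
  have := Int.one_le_abs h
  exact_mod_cast this

/-- The sum over the entries of a symmetric matrix. -/
lemma ix_lin {n : ℕ} (y : Fin n → ℝ) : ∑ p : Ix n, (y p.1.1 + y p.1.2) = (n + 1) * ∑ i, y i := by
  rw [BG.Expo.ix_sum (fun i j => y i + y j)]
  have h1 : (∑ i, ∑ j, if i ≤ j then y i + y j else 0) =
      ∑ i, ∑ j, if j ≤ i then y i + y j else 0 := by
    rw [Finset.sum_comm]
    refine Finset.sum_congr rfl fun i _ => Finset.sum_congr rfl fun j _ => ?_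
    split_ifs
    · ring
    · rfl
  have h2 : (∑ i, ∑ j, if i ≤ j then y i + y j else 0) +
      (∑ i, ∑ j, if j ≤ i then y i + y j else 0) = 2 * ((n + 1) * ∑ i, y i) := by
    have e : ∀ i j : Fin n, ((if i ≤ j then y i + y j else 0) + if j ≤ i then y i + y j else 0) =
        y i + y j + if i = j then 2 * y i else 0 := by
      intro i j
      rcases lt_trichotomy i j with h | h | h
      · rw [if_pos h.le, if_neg (not_le.mpr h), if_neg h.ne]
      · subst h
        rw [if_pos le_rfl, if_pos rfl]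
        ring
      · rw [if_neg (not_le.mpr h), if_pos h.le, if_neg h.ne']
        ring
    rw [← Finset.sum_add_distrib]
    have e2 : ∀ i : Fin n, (∑ j, (if i ≤ j then y i + y j else 0)) +
        (∑ j, if j ≤ i then y i + y j else 0) = n * y i + ∑ j, y j + 2 * y i := by
      intro i
      rw [← Finset.sum_add_distrib, Finset.sum_congr rfl fun j _ => e i j, Finset.sum_add_distrib,
        Finset.sum_add_distrib, Finset.sum_ite_eq, if_pos (Finset.mem_univ i), Finset.sum_const,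
        Finset.card_univ, Fintype.card_fin, nsmul_eq_mul]
    rw [Finset.sum_congr rfl fun i _ => e2 i, Finset.sum_add_distrib, Finset.sum_add_distrib,
      ← Finset.mul_sum, ← Finset.mul_sum, Finset.sum_const, Finset.card_univ, Fintype.card_fin,
      nsmul_eq_mul]
    ring
  linarith

/-- The sum over the cells. -/
lemma cells {n : ℕ} (h0 : 0 < n) {C : ℝ} (c₁ : ℕ) (hC : 0 < C) {ε : ℝ} (hε : 0 < ε) :
    ∃ R : ℕ, ∀ {α : Type} (T : Finset α) (f : α → Fin n → ℤ) (V : ℝ) (z l : Fin n) (a : ℤ), 0 ≤ V →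
      (∀ c ∈ T, ∀ i, f c z ≤ f c i) → (∀ c ∈ T, ∀ i, f c i ≤ f c l) →
      (∀ c ∈ T, (R : ℤ) ≤ f c l - f c z) →
      (∀ c ∈ T, a ≤ ∑ i, f c i ∧ ∑ i, f c i ≤ a + c₁) →
      (∀ c ∈ T, ∀ S ⊆ T, (∀ c' ∈ S, f c' = f c) →
        (S.card : ℝ) ≤ C * V * √((2 : ℝ) ^ (f c z - f c l))) →
      (T.card : ℝ) ≤ ε * V := by
  classical
  obtain ⟨R, hR⟩ := BG.Cusp.part1 0 n (δ := ε / (C * (c₁ + 1))) (by positivity)
  refine ⟨R, ?_⟩
  intro α T f V z l a hV hmin hmax hgap hsum hcell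
  -- the index `r` of a cell
  set ρ : (Fin n → ℤ) → ℕ := fun τ => (τ l - τ z).toNat with hρ
  set W : ℕ → ℝ := fun r => C * V * (√2)⁻¹ ^ r with hW
  have hW0 : ∀ r, 0 ≤ W r := fun r => by rw [hW]; positivity
  have hρc : ∀ c ∈ T, (ρ (f c) : ℤ) = f c l - f c z := by
    intro c hc
    rw [hρ]
    simp only
    rw [Int.toNat_of_nonneg]
    have := hmax c hc z
    linarith
  set b : ℕ := (T.image f).sup ρ + 1 with hb
  have hmaps : ∀ τ ∈ T.image f, ρ τ ∈ Ico R b := by
    intro τ hτ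
    have h1 : ρ τ ≤ (T.image f).sup ρ := Finset.le_sup hτ
    rw [Finset.mem_image] at hτ
    obtain ⟨c, hc, rfl⟩ := hτ
    rw [Finset.mem_Ico]
    constructor
    · have h1 := hρc c hc
      have h2 := hgap c hc
      have : (R : ℤ) ≤ ρ (f c) := by linarith
      exact_mod_cast this
    · omega
  -- the bound of one cell
  have hone : ∀ τ ∈ T.image f, ((T.filter fun c => f c = τ).card : ℝ) ≤ W (ρ τ) := by
    intro τ hτ
    rw [Finset.mem_image] at hτ
    obtain ⟨c, hc, rfl⟩ := hτ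
    refine (hcell c hc _ (Finset.filter_subset _ _)
      (fun c' hc' => (Finset.mem_filter.mp hc').2)).trans ?_
    rw [hW]
    refine mul_le_mul_of_nonneg_left (le_of_eq ?_) (by positivity)
    have h1 : (2 : ℝ) ^ (f c z - f c l) = (2⁻¹ : ℝ) ^ (ρ (f c)) := by
      have h2 : f c z - f c l = -(ρ (f c) : ℤ) := by rw [hρc c hc]; ring
      rw [h2, _root_.zpow_neg, zpow_natCast, inv_pow]
    rw [h1, BG.Cusp.sqrt_pow_nat (by norm_num), Real.sqrt_inv]
  -- the number of cells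
  have hcount : ∀ r, (((T.image f).filter fun τ => ρ τ = r).card : ℝ) ≤
      ((((0 : ℕ) : ℝ) + 1) * (r + 1)) ^ n * (c₁ + 1) := by
    intro r
    have h1 : ((T.image f).filter (fun τ => ρ τ = r)).card ≤
        ((Fintype.piFinset fun _ : Fin n => Finset.Icc (0 : ℤ) r) ×ˢ
          Finset.Icc a (a + c₁)).card := by
      refine Finset.card_le_card_of_injOn (fun τ => (fun i => τ i - τ z, ∑ i, τ i)) ?_ ?_
      · intro τ hτ
        rw [Finset.mem_coe, Finset.mem_filter, Finset.mem_image] at hτ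
        obtain ⟨⟨c, hc, rfl⟩, hr⟩ := hτ
        have h2 := hρc c hc
        rw [hr] at h2
        simp only [Finset.coe_product, Set.mem_prod, Finset.mem_coe, Fintype.mem_piFinset,
          Finset.mem_Icc]
        refine ⟨fun i => ⟨?_, ?_⟩, hsum c hc⟩
        · have := hmin c hc i
          linarith
        · have := hmax c hc i
          linarith
      · intro τ _ τ' _ h
        simp only [Prod.mk.injEq] at h
        obtain ⟨hd, hs⟩ := h
        have h3 : ∀ i, τ i - τ z = τ' i - τ' z := fun i => congrFun hd i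
        have h4 : (∑ i, (τ i - τ z)) = ∑ i, (τ' i - τ' z) :=
          Finset.sum_congr rfl fun i _ => h3 i
        rw [Finset.sum_sub_distrib, Finset.sum_sub_distrib, hs, Finset.sum_const, Finset.sum_const,
          Finset.card_univ, Fintype.card_fin, nsmul_eq_mul, nsmul_eq_mul] at h4
        have h5 : (n : ℤ) * (τ z - τ' z) = 0 := by linarith
        have h6 : τ z = τ' z := by
          rcases mul_eq_zero.mp h5 with h | h
          · exact absurd h (by exact_mod_cast h0.ne')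
          · linarith
        funext i
        have := h3 i
        linarith
    rw [Finset.card_product, Fintype.card_piFinset] at h1
    simp only [Int.card_Icc, Finset.prod_const, Finset.card_univ, Fintype.card_fin] at h1
    have h3 : ((r : ℤ) + 1 - 0).toNat = r + 1 := by
      have : ((r : ℤ) + 1 - 0) = ((r + 1 : ℕ) : ℤ) := by
        push_cast
        ring
      rw [this, Int.toNat_natCast]
    have h4 : (a + (c₁ : ℤ) + 1 - a).toNat = c₁ + 1 := by
      have : (a + (c₁ : ℤ) + 1 - a) = ((c₁ + 1 : ℕ) : ℤ) := by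
        push_cast
        ring
      rw [this, Int.toNat_natCast]
    rw [h3, h4] at h1
    calc (((T.image f).filter fun τ => ρ τ = r).card : ℝ) ≤ ((r + 1) ^ n * (c₁ + 1) : ℕ) := by
          exact_mod_cast h1
      _ = ((((0 : ℕ) : ℝ) + 1) * (r + 1)) ^ n * (c₁ + 1) := by push_cast; ring
  -- summation
  have hTsum : (T.card : ℝ) = ∑ τ ∈ T.image f, ((T.filter fun c => f c = τ).card : ℝ) := by
    rw [Finset.card_eq_sum_card_image f T]
    push_cast
    rfl
  calc (T.card : ℝ) = ∑ τ ∈ T.image f, ((T.filter fun c => f c = τ).card : ℝ) := hTsum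
    _ ≤ ∑ τ ∈ T.image f, W (ρ τ) := Finset.sum_le_sum hone
    _ = ∑ r ∈ Ico R b, ∑ τ ∈ (T.image f).filter (fun τ => ρ τ = r), W (ρ τ) :=
        (Finset.sum_fiberwise_of_maps_to hmaps _).symm
    _ = ∑ r ∈ Ico R b, (((T.image f).filter fun τ => ρ τ = r).card : ℝ) * W r := by
        refine Finset.sum_congr rfl fun r _ => ?_
        rw [Finset.sum_congr rfl fun τ hτ => by rw [(Finset.mem_filter.mp hτ).2],
          Finset.sum_const, nsmul_eq_mul]
    _ ≤ ∑ r ∈ Ico R b, (((((0 : ℕ) : ℝ) + 1) * (r + 1)) ^ n * (c₁ + 1)) * W r :=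
        Finset.sum_le_sum fun r _ => mul_le_mul_of_nonneg_right (hcount r) (hW0 r)
    _ = C * V * (c₁ + 1) *
          (∑ r ∈ Ico R b, ((((0 : ℕ) : ℝ) + 1) * (r + 1)) ^ n * (√2)⁻¹ ^ r) := by
        rw [Finset.mul_sum]
        refine Finset.sum_congr rfl fun r _ => ?_
        rw [hW]
        ring
    _ ≤ C * V * (c₁ + 1) * (ε / (C * (c₁ + 1))) :=
        mul_le_mul_of_nonneg_left (hR b) (by positivity)
    _ = ε * V := by field_simp

/-- The number of the polynomials of a cell. -/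
lemma count {n : ℕ} (hn : 1 ≤ n) {K H : ℝ} {s : Fin n → ℝ}
    (hs0 : ∀ i, 0 < s i) (T : Finset (Fin (n + 1) → ℤ))
    (hT : ∀ a ∈ T, a 0 ≠ 0 ∧ Irreducible (GZ ℚ a) ∧
      ∃ (A B : Matrix (Fin n) (Fin n) ℤ) (t : Fin n → ℝ), RPair K H a A B t ∧ ∀ i, t i ≤ s i) :
    (T.card : ℝ) * ∏ i, ∏ j ∈ univ.filter (· < i), (s i / s j) ≤
      (3 * (n : ℝ) ^ 2) ^ (2 * Fintype.card (Ix n)) *
      (∏ p : Ix n, max 1 (s p.1.1 * s p.1.2)) ^ 2 := by
  classical
  have hT' : ∀ a : Fin (n + 1) → ℤ, ∃ p : Matrix (Fin n) (Fin n) ℤ × Matrix (Fin n) (Fin n) ℤ,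
      a ∈ T → (a 0 ≠ 0 ∧ Irreducible (GZ ℚ a)) ∧ HasChar a p.1 p.2 ∧ p.1.IsSymm ∧ p.2.IsSymm ∧
        (∀ i j, |(p.1 i j : ℝ)| ≤ 1 * (s i * s j)) ∧
        ∀ i j, |(p.2 i j : ℝ)| ≤ 1 * (s i * s j) := by
    intro a
    by_cases ha : a ∈ T
    · obtain ⟨h0, hF, A, B, t, h, ht⟩ := hT a ha
      refine ⟨(A, B), fun _ => ⟨⟨h0, hF⟩, h.char, h.symA, h.symB, fun i j => ?_, fun i j => ?_⟩⟩
      · rw [one_mul]
        exact (h.hA i j).trans (mul_le_mul (ht _) (ht _) (h.pos _).le (hs0 _).le)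
      · rw [one_mul]
        exact (h.hB i j).trans (mul_le_mul (ht _) (ht _) (h.pos _).le (hs0 _).le)
    · exact ⟨(0, 0), fun h => absurd h ha⟩
  choose P hP using hT'
  have hinj : Set.InjOn P T := by
    intro c hc c' hc' he
    have h1 := (hP c hc).2.1
    have h2 := (hP c' hc').2.1
    rw [← he] at h2
    exact h1.inj h2
  have hcount := unip_count s hs0 1 1 zero_le_one zero_le_one (T.image P) (by
      intro p hp
      rw [Finset.mem_image] at hp
      obtain ⟨c, hc, rfl⟩ := hp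
      exact (hP c hc).2.2) (by
      intro p hp q hq W hW1 hW2 hA hB
      rw [Finset.mem_image] at hp hq
      obtain ⟨c, hc, rfl⟩ := hp
      obtain ⟨c', hc', rfl⟩ := hq
      have hdet : W.det = 1 := BG.Unip.LU.det ⟨hW1, hW2⟩
      have h1 := char_congr hdet (hP c hc).2.1
      rw [hA, hB] at h1
      have h2 := h1.inj (hP c' hc').2.1
      subst h2
      exact ⟨rfl, stab c (hP c hc).1.1 (hP c hc).1.2 _ _ W (hP c hc).2.1 hW1 hW2 hA hB⟩)
  rw [Finset.card_image_of_injOn hinj] at hcount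
  refine hcount.trans ?_
  have hn1 : (1 : ℝ) ≤ (n : ℝ) ^ 2 := by
    have : (1 : ℝ) ≤ n := by exact_mod_cast hn
    exact one_le_pow₀ this
  have hfac : ∀ x : ℝ, 2 * (n : ℝ) ^ 2 * x + 1 ≤ 3 * (n : ℝ) ^ 2 * max 1 x := by
    intro x
    have h1 : x ≤ max 1 x := le_max_right _ _
    have h2 : 1 ≤ max 1 x := le_max_left _ _
    nlinarith
  have e1 : ∏ p : Ix n, (2 * (n : ℝ) ^ 2 * 1 * (s p.1.1 * s p.1.2) + 1) ≤
      (3 * (n : ℝ) ^ 2) ^ Fintype.card (Ix n) * ∏ p : Ix n, max 1 (s p.1.1 * s p.1.2) := by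
    calc ∏ p : Ix n, (2 * (n : ℝ) ^ 2 * 1 * (s p.1.1 * s p.1.2) + 1)
        ≤ ∏ p : Ix n, (3 * (n : ℝ) ^ 2 * max 1 (s p.1.1 * s p.1.2)) := by
          refine Finset.prod_le_prod (fun p _ => ?_) (fun p _ => ?_)
          · have := mul_pos (hs0 p.1.1) (hs0 p.1.2)
            positivity
          · have := hfac (s p.1.1 * s p.1.2)
            linarith
      _ = _ := by rw [Finset.prod_mul_distrib, Finset.prod_const, Finset.card_univ]
  have hQ1 : (0:ℝ) ≤ ∏ p : Ix n, max 1 (s p.1.1 * s p.1.2) :=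
    Finset.prod_nonneg fun p _ => zero_le_one.trans (le_max_left _ _)
  calc _ ≤ ((3 * (n : ℝ) ^ 2) ^ Fintype.card (Ix n) * ∏ p : Ix n, max 1 (s p.1.1 * s p.1.2)) *
      ((3 * (n : ℝ) ^ 2) ^ Fintype.card (Ix n) * ∏ p : Ix n, max 1 (s p.1.1 * s p.1.2)) := by
        refine mul_le_mul e1 e1 (Finset.prod_nonneg fun p _ => ?_) (by positivity)
        have := mul_pos (hs0 p.1.1) (hs0 p.1.2)
        positivity
    _ = _ := by ring

/-- The bound for one cell. -/
lemma cell {n : ℕ} (hn : 4 ≤ n) (he : Even n) {K H : ℝ} {s : Fin n → ℝ} (hs0 : ∀ i, 0 < s i)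
    (hmono : ∀ i j, i ≤ j → s i ≤ s j)
    (hc : ∀ i j : Fin n, (i : ℕ) + j = n - 2 → 1 ≤ s i * s j)
    (T : Finset (Fin (n + 1) → ℤ))
    (hT : ∀ a ∈ T, a 0 ≠ 0 ∧ Irreducible (GZ ℚ a) ∧
      ∃ (A B : Matrix (Fin n) (Fin n) ℤ) (t : Fin n → ℝ), RPair K H a A B t ∧ ∀ i, t i ≤ s i) :
    (T.card : ℝ) ≤ (3 * (n : ℝ) ^ 2) ^ (2 * Fintype.card (Ix n)) *
      ((∏ i, s i) ^ 2) ^ (n + 1) * √(s ⟨0, by omega⟩ / s ⟨n - 1, by omega⟩) := by
  have hcount := count (by omega) hs0 T hT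
  obtain ⟨y, rfl⟩ : ∃ y : Fin n → ℝ, (fun i => Real.exp (-y i)) = s :=
    ⟨fun i => -Real.log (s i), by
      funext i
      rw [neg_neg, Real.exp_log (hs0 i)]⟩
  have hexp := expo n (by omega) he y
    (fun i j hij => by
      have := hmono i j hij
      simp only [Real.exp_le_exp] at this
      linarith)
    (fun i j hij => by
      have := hc i j hij
      simp only [← Real.exp_add] at this
      rw [← Real.exp_zero, Real.exp_le_exp] at this
      linarith)
  have hexp' : 2 * ∑ p : Ix n, max 0 (y p.1.1 + y p.1.2) +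
        (y ⟨0, by omega⟩ - y ⟨n - 1, by omega⟩) / 2 ≤
      ∑ i, ∑ j ∈ univ.filter (· < i), (y j - y i) := by
    rw [BG.Expo.ix_sum (fun i j => max 0 (y i + y j))]
    have e : (∑ i, ∑ j, if i ≤ j then max 0 (y i + y j) else 0) =
        ∑ i, ∑ j ∈ univ.filter (i ≤ ·), max 0 (y i + y j) := by
      refine Finset.sum_congr rfl fun i _ => ?_
      rw [Finset.sum_filter]
    rw [e]
    exact hexp
  obtain ⟨D, hD⟩ : ∃ D : ℝ, D = (3 * (n : ℝ) ^ 2) ^ (2 * Fintype.card (Ix n)) := ⟨_, rfl⟩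
  have hD0 : 0 ≤ D := by rw [hD]; positivity
  rw [← hD] at hcount ⊢
  have e1 : ∏ p : Ix n, max 1 (Real.exp (-y p.1.1) * Real.exp (-y p.1.2)) =
      Real.exp (∑ p : Ix n, (max 0 (y p.1.1 + y p.1.2) - (y p.1.1 + y p.1.2))) := by
    rw [Real.exp_sum]
    refine Finset.prod_congr rfl fun p _ => ?_
    rw [← Real.exp_add, ← Real.exp_zero, ← Real.exp_monotone.map_max]
    congr 1
    rcases le_total 0 (y p.1.1 + y p.1.2) with h | h
    · rw [max_eq_right h, max_eq_left (by linarith)]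
      ring
    · rw [max_eq_left h, max_eq_right (by linarith)]
      ring
  have e3 : ∏ i, ∏ j ∈ univ.filter (· < i), (Real.exp (-y i) / Real.exp (-y j)) =
      Real.exp (∑ i, ∑ j ∈ univ.filter (· < i), (y j - y i)) := by
    rw [Real.exp_sum]
    refine Finset.prod_congr rfl fun i _ => ?_
    rw [Real.exp_sum]
    refine Finset.prod_congr rfl fun j _ => ?_
    rw [← Real.exp_sub]
    congr 1
    ring
  have e4 : √(Real.exp (-y ⟨0, by omega⟩) / Real.exp (-y ⟨n - 1, by omega⟩)) =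
      Real.exp (-((y ⟨0, by omega⟩ - y ⟨n - 1, by omega⟩) / 2)) := by
    rw [← Real.exp_sub, ← Real.exp_half]
    congr 1
    ring
  have e5 : ((∏ i, Real.exp (-y i)) ^ 2) ^ (n + 1) = Real.exp (-(2 * ((n + 1) * ∑ i, y i))) := by
    rw [← Real.exp_sum, ← Real.exp_nat_mul, ← Real.exp_nat_mul, Finset.sum_neg_distrib]
    congr 1
    push_cast
    ring
  rw [e1, e3, ← Real.exp_nat_mul, Finset.sum_sub_distrib, ix_lin] at hcount
  rw [e4, e5]
  have h1 : (T.card : ℝ) = (T.card : ℝ) *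
      Real.exp (∑ i, ∑ j ∈ univ.filter (· < i), (y j - y i)) *
      Real.exp (-∑ i, ∑ j ∈ univ.filter (· < i), (y j - y i)) := by
    rw [mul_assoc, ← Real.exp_add, add_neg_cancel, Real.exp_zero, mul_one]
  rw [h1]
  refine (mul_le_mul_of_nonneg_right hcount (Real.exp_pos _).le).trans ?_
  rw [mul_assoc, mul_assoc, ← Real.exp_add, ← Real.exp_add]
  refine mul_le_mul_of_nonneg_left (Real.exp_le_exp.mpr ?_) hD0
  push_cast
  linarith

end Cusp

theorem cusp (n : ℕ) (hn : 4 ≤ n) (he : Even n) (K : ℝ) (hK : 1 ≤ K) (η : ℝ) (hη : 0 < η)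
    (ε : ℝ) (hε : 0 < ε) :
    ∃ R H₀ : ℝ, 1 ≤ R ∧ ∀ H : ℝ, H₀ ≤ H → ∀ T : Finset (Fin (n + 1) → ℤ),
      (∀ a ∈ T, a 0 ≠ 0 ∧ Irreducible (GZ ℚ a) ∧ (∃ i, η * H ≤ |(a i : ℝ)|) ∧
        ∃ (A B : Matrix (Fin n) (Fin n) ℤ) (t : Fin n → ℝ),
          RPair K H a A B t ∧ ∃ i j, R * t i < t j) →
      (T.card : ℝ) ≤ ε * H ^ (n + 1) := by
  classical
  have hK0 : 0 < K := by linarith
  obtain ⟨q, hq⟩ : ∃ q : ℕ, K ^ 2 / η < 4 ^ q := pow_unbounded_of_one_lt _ (by norm_num)
  obtain ⟨D, hD⟩ : ∃ D : ℝ, D = (3 * (n : ℝ) ^ 2) ^ (2 * Fintype.card (Ix n)) := ⟨_, rfl⟩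
  have hD0 : 0 < D := by
    rw [hD]
    have : (0 : ℝ) < n := by exact_mod_cast (by omega : 0 < n)
    positivity
  obtain ⟨R, hcells⟩ := Cusp.cells (by omega : 0 < n) (C := D * (4 ^ n * K) ^ (n + 1))
    (q + n + 1) (by positivity) hε
  refine ⟨(2 : ℝ) ^ (R + 1), 1, one_le_pow₀ (by norm_num), fun H hH T hT => ?_⟩
  have hH0 : 0 < H := by linarith
  have hex : ∀ a ∈ T, ∃ (A B : Matrix (Fin n) (Fin n) ℤ) (t : Fin n → ℝ),
      RPair K H a A B t ∧ ∃ i j, (2 : ℝ) ^ (R + 1) * t i < t j := fun a ha => (hT a ha).2.2.2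
  choose! A B t hR hi using hex
  set f : (Fin (n + 1) → ℤ) → Fin n → ℤ := fun a i => Int.log 2 (t a i) with hf
  have hbox : ∀ a ∈ T, ∀ i, (2 : ℝ) ^ (f a i) ≤ t a i ∧ t a i < (2 : ℝ) ^ (f a i + 1) := by
    intro a ha i
    have hpos := (hR a ha).pos i
    have h1 := Int.zpow_log_le_self (b := 2) (by norm_num) hpos
    have h2 := Int.lt_zpow_succ_log_self (b := 2) (by norm_num) (t a i)
    exact ⟨by exact_mod_cast h1, by exact_mod_cast h2⟩
  have hfmono : ∀ a ∈ T, ∀ i j, i ≤ j → f a i ≤ f a j := by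
    intro a ha i j hij
    have h1 : (2 : ℝ) ^ (f a i) < (2 : ℝ) ^ (f a j + 1) :=
      lt_of_le_of_lt (hbox a ha i).1 (lt_of_le_of_lt ((hR a ha).mono i j hij) (hbox a ha j).2)
    have h2 := (zpow_lt_zpow_iff_right₀ (one_lt_two (α := ℝ))).1 h1
    omega
  -- the scale
  set s : (Fin (n + 1) → ℤ) → Fin n → ℝ := fun a i => (2 : ℝ) ^ (f a i + 1) with hs
  have hs0 : ∀ a i, 0 < s a i := fun a i => by rw [hs]; positivity
  have hts : ∀ a ∈ T, ∀ i, t a i ≤ s a i := fun a ha i => (hbox a ha i).2.le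
  have hst : ∀ a ∈ T, ∀ i, s a i ≤ 2 * t a i := fun a ha i => by
    rw [hs]
    simp only
    rw [zpow_add_one₀ two_ne_zero, mul_comm]
    exact mul_le_mul_of_nonneg_left (hbox a ha i).1 zero_le_two
  have hprods : ∀ a, (∏ i, s a i) ^ 2 = (4 : ℝ) ^ (∑ i, f a i + n) := by
    intro a
    have h1 : ∏ i, s a i = (2 : ℝ) ^ (∑ i, f a i + n) := by
      rw [hs]
      simp only
      have h2 : ∀ S : Finset (Fin n), ∏ i ∈ S, (2 : ℝ) ^ (f a i + 1) =
          (2 : ℝ) ^ (∑ i ∈ S, (f a i + 1)) := by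
        intro S
        induction S using Finset.induction_on with
        | empty => simp
        | insert j S hj ih =>
          rw [Finset.prod_insert hj, Finset.sum_insert hj, ih, ← zpow_add₀ two_ne_zero]
      rw [h2, Finset.sum_add_distrib, Finset.sum_const, Finset.card_univ, Fintype.card_fin]
      simp
    rw [h1, ← zpow_natCast, ← _root_.zpow_mul, mul_comm, _root_.zpow_mul]
    norm_num
  have hupper : ∀ a ∈ T, (∏ i, s a i) ^ 2 ≤ 4 ^ n * K * H := by
    intro a ha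
    have h1 : ∏ i, s a i ≤ 2 ^ n * ∏ i, t a i := by
      calc ∏ i, s a i ≤ ∏ i, (2 * t a i) :=
            Finset.prod_le_prod (fun i _ => (hs0 a i).le) fun i _ => hst a ha i
        _ = 2 ^ n * ∏ i, t a i := by
            rw [Finset.prod_mul_distrib, Finset.prod_const, Finset.card_univ, Fintype.card_fin]
    calc (∏ i, s a i) ^ 2 ≤ (2 ^ n * ∏ i, t a i) ^ 2 :=
          pow_le_pow_left₀ (Finset.prod_nonneg fun i _ => (hs0 a i).le) h1 2
      _ = 4 ^ n * (∏ i, t a i) ^ 2 := by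
          rw [mul_pow, ← pow_mul, mul_comm n 2, pow_mul]
          norm_num
      _ ≤ 4 ^ n * (K * H) := mul_le_mul_of_nonneg_left (hR a ha).prod (by positivity)
      _ = 4 ^ n * K * H := by ring
  have hlower : ∀ a ∈ T, η * H / K ≤ (∏ i, s a i) ^ 2 := by
    intro a ha
    obtain ⟨i, hi1⟩ := (hT a ha).2.2.1
    have h1 := (hR a ha).prod' i
    have h2 : (∏ i, t a i) ^ 2 ≤ (∏ i, s a i) ^ 2 :=
      pow_le_pow_left₀ (Finset.prod_nonneg fun i _ => ((hR a ha).pos i).le)
        (Finset.prod_le_prod (fun i _ => ((hR a ha).pos i).le) fun i _ => hts a ha i) 2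
    rw [div_le_iff₀ hK0]
    calc η * H ≤ |(a i : ℝ)| := hi1
      _ ≤ K * (∏ i, t a i) ^ 2 := h1
      _ ≤ K * (∏ i, s a i) ^ 2 := mul_le_mul_of_nonneg_left h2 hK0.le
      _ = (∏ i, s a i) ^ 2 * K := by ring
  have h4 : (1 : ℝ) < 4 := by norm_num
  refine hcells T f (H ^ (n + 1)) ⟨0, by omega⟩ ⟨n - 1, by omega⟩
    (Int.log 4 (η * H / K) - n) (by positivity)
    (fun a ha i => hfmono a ha _ i (Fin.le_def.2 (by simp)))
    (fun a ha i => hfmono a ha i _ (Fin.le_def.2 (by have := i.2; simp only; omega))) ?_ ?_ ?_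
  · -- the gap
    intro a ha
    obtain ⟨i, j, hij⟩ := hi a ha
    have h1 : (2 : ℝ) ^ (R + 1) * t a ⟨0, by omega⟩ < t a ⟨n - 1, by omega⟩ := by
      have h2 := (hR a ha).mono ⟨0, by omega⟩ i (Fin.le_def.2 (by simp))
      have h3 := (hR a ha).mono j ⟨n - 1, by omega⟩
        (Fin.le_def.2 (by have := j.2; simp only; omega))
      have h4 := mul_le_mul_of_nonneg_left h2 (by positivity : (0 : ℝ) ≤ (2 : ℝ) ^ (R + 1))
      linarith
    have h2 : (2 : ℝ) ^ (((R + 1 : ℕ) : ℤ) + f a ⟨0, by omega⟩) <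
        (2 : ℝ) ^ (f a ⟨n - 1, by omega⟩ + 1) := by
      rw [zpow_add₀ two_ne_zero, zpow_natCast]
      refine lt_of_le_of_lt ?_ (h1.trans (hbox a ha _).2)
      exact mul_le_mul_of_nonneg_left (hbox a ha _).1 (by positivity)
    have h3 := (zpow_lt_zpow_iff_right₀ (one_lt_two (α := ℝ))).1 h2
    push_cast at h3
    linarith
  · -- the size
    intro a ha
    have hpos : 0 < η * H / K := by positivity
    have h1 := Int.zpow_log_le_self (b := 4) (by norm_num) hpos
    have h2 := Int.lt_zpow_succ_log_self (b := 4) (by norm_num) (η * H / K)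
    push_cast at h1 h2
    constructor
    · have h3 := h1.trans (hlower a ha)
      rw [hprods a, zpow_le_zpow_iff_right₀ h4] at h3
      linarith
    · have h3 := hupper a ha
      rw [hprods a, zpow_add₀ (by norm_num : (4 : ℝ) ≠ 0), zpow_natCast] at h3
      have h5 : (4 : ℝ) ^ (∑ i, f a i) ≤ K * H := by
        have h6 : (4 : ℝ) ^ (∑ i, f a i) * 4 ^ n ≤ K * H * 4 ^ n := by linarith
        exact le_of_mul_le_mul_right h6 (by positivity)
      have h6 : K * H ≤ 4 ^ q * (η * H / K) := by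
        have h7 : K * H = K ^ 2 / η * (η * H / K) := by field_simp
        rw [h7]
        exact mul_le_mul_of_nonneg_right hq.le hpos.le
      have h7 : (4 : ℝ) ^ (∑ i, f a i) < 4 ^ (((q : ℕ) : ℤ) + (Int.log 4 (η * H / K) + 1)) := by
        rw [zpow_add₀ (by norm_num : (4 : ℝ) ≠ 0), zpow_natCast]
        refine lt_of_le_of_lt (h5.trans h6) ?_
        exact mul_lt_mul_of_pos_left h2 (by positivity)
      rw [zpow_lt_zpow_iff_right₀ h4] at h7
      push_cast
      linarith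
  · -- one cell
    intro a ha S hS hSf
    have hcond : ∀ i j : Fin n, (i : ℕ) + j = n - 2 → 1 ≤ s a i * s a j := by
      intro i j hij
      obtain ⟨i', j', hi', hj', hne⟩ := block_ne a (hT a ha).1 (hT a ha).2.1 (A a) (B a)
        (hR a ha).char ((i : ℕ) + 1) (by omega) (by omega)
      have hle : ∀ x : ℝ, 1 ≤ |x| → |x| ≤ t a i' * t a j' → 1 ≤ s a i * s a j := by
        intro x hx1 hx2
        have h1 : t a i' ≤ s a i :=
          ((hR a ha).mono i' i (Fin.le_def.2 (by omega))).trans (hts a ha i)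
        have h2 : t a j' ≤ s a j :=
          ((hR a ha).mono j' j (Fin.le_def.2 (by omega))).trans (hts a ha j)
        exact (hx1.trans hx2).trans (mul_le_mul h1 h2 ((hR a ha).pos _).le (hs0 a _).le)
      rcases hne with hne | hne
      · exact hle _ (Cusp.one_le_abs_cast hne) ((hR a ha).hA i' j')
      · exact hle _ (Cusp.one_le_abs_cast hne) ((hR a ha).hB i' j')
    have hsmono : ∀ i j, i ≤ j → s a i ≤ s a j := by
      intro i j hij
      exact zpow_le_zpow_right₀ (one_le_two (α := ℝ)) (by have := hfmono a ha i j hij; omega)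
    have h1 := Cusp.cell hn he (K := K) (H := H) (hs0 a) hsmono hcond S (by
      intro a' ha'
      refine ⟨(hT a' (hS ha')).1, (hT a' (hS ha')).2.1, A a', B a', t a', hR a' (hS ha'), ?_⟩
      intro i
      have h2 := hts a' (hS ha') i
      have h3 : s a' i = s a i := by
        rw [hs]
        simp only
        rw [hSf a' ha']
      rwa [h3] at h2)
    rw [← hD] at h1
    refine h1.trans ?_
    have h2 : s a ⟨0, by omega⟩ / s a ⟨n - 1, by omega⟩ =
        (2 : ℝ) ^ (f a ⟨0, by omega⟩ - f a ⟨n - 1, by omega⟩) := by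
      rw [hs]
      simp only
      rw [← zpow_sub₀ two_ne_zero]
      congr 1
      ring
    rw [h2]
    refine mul_le_mul_of_nonneg_right ?_ (Real.sqrt_nonneg _)
    rw [mul_assoc, ← mul_pow]
    refine mul_le_mul_of_nonneg_left ?_ hD0.le
    exact pow_le_pow_left₀ (sq_nonneg _) (hupper a ha) _

end Stoll308.BF
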