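import Pool.Agent.Work.MP_308fa9_nt.BF.ElsA

set_option autoImplicit false

/-!
Full family: counting.
-/

namespace Stoll308.BF.Els

open Finset

/-- The box of the parameters. -/
noncomputable def box (N h : ℕ) : Finset (Fin N → ℤ) := Fintype.piFinset fun _ => Icc 1 (h : ℤ)

lemma card_box (N h : ℕ) : (box N h).card = h ^ N := by
  unfold box
  rw [Fintype.card_piFinset, prod_const, card_univ, Fintype.card_fin, Int.card_Icc]
  congr 1
  omega

/-- Fibres over the coordinates outside `J`. -/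
lemma card_le_free {N h : ℕ} (J : Finset (Fin N)) (S : Finset (Fin N → ℤ)) (hS : S ⊆ box N h)
    {F : ℝ} (hF0 : 0 ≤ F) (hF : ∀ t₀ ∈ S, ((S.filter fun t => ∀ i, i ∉ J → t i = t₀ i).card : ℝ) ≤ F) :
    (S.card : ℝ) ≤ (h : ℝ) ^ (N - J.card) * F := by
  classical
  set f : (Fin N → ℤ) → (Fin N → ℤ) := fun t i => if i ∈ J then 0 else t i with hf
  set T : Finset (Fin N → ℤ) :=
    Fintype.piFinset fun i => if i ∈ J then {0} else Icc 1 (h : ℤ) with hT
  have hTc : T.card = h ^ (N - J.card) := by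
    rw [hT, Fintype.card_piFinset]
    have h1 : ∀ i : Fin N, (if i ∈ J then ({0} : Finset ℤ) else Icc 1 (h : ℤ)).card =
        if i ∈ J then 1 else h := by
      intro i
      split_ifs
      · exact card_singleton _
      · rw [Int.card_Icc]
        omega
    rw [prod_congr rfl fun i _ => h1 i, prod_ite, prod_const_one, one_mul, prod_const]
    congr 1
    rw [filter_not, card_sdiff_of_subset (filter_subset _ _), card_univ, Fintype.card_fin]
    congr 2
    ext i
    simp
  have h2 := BG.Els.card_le_fiber S T f (by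
    intro t ht
    have h3 := hS ht
    rw [box, Fintype.mem_piFinset] at h3
    rw [hT, Fintype.mem_piFinset]
    intro i
    simp only [hf]
    split_ifs with hi
    · exact mem_singleton_self _
    · exact h3 i) F (by
    intro c _
    rcases (S.filter fun t => f t = c).eq_empty_or_nonempty with h3 | ⟨t₀, ht₀⟩
    · rw [h3]
      simpa using hF0
    · rw [mem_filter] at ht₀
      refine le_trans ?_ (hF t₀ ht₀.1)
      have h4 : (S.filter fun t => f t = c) ⊆ S.filter fun t => ∀ i, i ∉ J → t i = t₀ i := by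
        intro t ht
        rw [mem_filter] at ht ⊢
        refine ⟨ht.1, fun i hi => ?_⟩
        have h5 := congrFun (ht.2.trans ht₀.2.symm) i
        simp only [hf, if_neg hi] at h5
        exact h5
      exact_mod_cast card_le_card h4)
  rw [hTc] at h2
  push_cast at h2
  exact h2

/-- If the coordinates in `J` are determined modulo `p` by the others. -/
lemma card_le_mod {N h p : ℕ} (hp : 0 < p) (J : Finset (Fin N)) (S : Finset (Fin N → ℤ))
    (hS : S ⊆ box N h)
    (hJ : ∀ t ∈ S, ∀ t' ∈ S, (∀ i, i ∉ J → t i = t' i) → ∀ i ∈ J, (p : ℤ) ∣ t i - t' i) :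
    (S.card : ℝ) ≤ (h : ℝ) ^ (N - J.card) * ((h : ℝ) / p + 1) ^ J.card := by
  classical
  apply card_le_free J S hS (by positivity)
  intro t₀ ht₀
  have hle : (S.filter fun t => ∀ i, i ∉ J → t i = t₀ i).card ≤
      (Fintype.piFinset fun i : Fin N => if i ∈ J then
        (Ioc (0 : ℤ) h).filter fun x => (p : ℤ) ∣ x - t₀ i else {t₀ i}).card := by
    apply card_le_card
    intro t ht
    rw [mem_filter] at ht
    rw [Fintype.mem_piFinset]
    intro i
    split_ifs with hi
    · have h3 := hS ht.1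
      rw [box, Fintype.mem_piFinset] at h3
      have h4 := h3 i
      rw [mem_Icc] at h4
      rw [mem_filter, mem_Ioc]
      exact ⟨⟨by linarith [h4.1], h4.2⟩, hJ t ht.1 t₀ ht₀ ht.2 i hi⟩
    · rw [ht.2 i hi]
      exact mem_singleton_self _
  have hle' : ((S.filter fun t => ∀ i, i ∉ J → t i = t₀ i).card : ℝ) ≤
      ((Fintype.piFinset fun i : Fin N => if i ∈ J then
        (Ioc (0 : ℤ) h).filter fun x => (p : ℤ) ∣ x - t₀ i else {t₀ i}).card : ℝ) := by
    exact_mod_cast hle
  refine hle'.trans ?_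
  rw [Fintype.card_piFinset]
  push_cast
  have h1 : ((h : ℝ) / p + 1) ^ J.card = ∏ i : Fin N, if i ∈ J then ((h : ℝ) / p + 1) else 1 := by
    rw [prod_ite, prod_const_one, mul_one, prod_const]
    congr 2
    ext i
    simp
  rw [h1]
  apply prod_le_prod
  · intro i _
    positivity
  · intro i _
    split_ifs with hi
    · have h2 := BE.ap_card_le 0 (h : ℤ) (p : ℤ) (t₀ i) (by exact_mod_cast hp) (by positivity)
      push_cast at h2
      rw [sub_zero] at h2
      exact h2
    · rw [card_singleton]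
      simp

/-- The coefficients. -/
def co {n : ℕ} (M : ℤ) (t : Fin (n + 1) → ℤ) : Fin (n + 1) → ℤ :=
  fun i => M * t i + if (i : ℕ) = n then 1 else 0

lemma co_sub {n : ℕ} (M : ℤ) (t t' : Fin (n + 1) → ℤ) (i : Fin (n + 1)) :
    co M t i - co M t' i = M * (t i - t' i) := by
  unfold co
  ring

lemma co_inj {n : ℕ} {M : ℤ} (hM : M ≠ 0) {t t' : Fin (n + 1) → ℤ} {i : Fin (n + 1)}
    (h : co M t i = co M t' i) : t i = t' i := by
  have h1 := co_sub M t t' i
  rw [h, sub_self] at h1
  have h2 := (mul_eq_zero.1 h1.symm).resolve_left hM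
  linarith

lemma co_lt {n : ℕ} (M : ℤ) (t : Fin (n + 1) → ℤ) {i : Fin (n + 1)} (hi : (i : ℕ) < n) :
    co M t i = M * t i := by
  unfold co
  rw [if_neg (by omega), add_zero]

lemma dvd_of_co {n p : ℕ} (hp : p.Prime) {M : ℤ} (hpM : ¬ (p : ℤ) ∣ M) {t t' : Fin (n + 1) → ℤ}
    {i : Fin (n + 1)} (h : (p : ℤ) ∣ co M t i - co M t' i) : (p : ℤ) ∣ t i - t' i := by
  rw [co_sub] at h
  exact ((Nat.prime_iff_prime_int.1 hp).dvd_or_dvd h).resolve_left hpM

/-- The value of `f` and the sizes. -/
lemma value {n h : ℕ} {M s : ℤ} (hM : 0 < M) (hs : 0 ≤ s) {t : Fin (n + 1) → ℤ}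
    (ht : t ∈ box (n + 1) h) :
    M ∣ (GZ ℤ (co M t)).eval s - 1 ∧ 0 < (GZ ℤ (co M t)).eval s := by
  rw [box, Fintype.mem_piFinset] at ht
  set w : Fin (n + 1) := Fin.last n with hw
  have heval : (GZ ℤ (co M t)).eval s = M * (∑ i : Fin (n + 1), t i * s ^ (n - (i : ℕ))) + 1 := by
    rw [gz_eval]
    simp only [Int.cast_id]
    have h1 : ∀ i : Fin (n + 1), co M t i * s ^ (n - (i : ℕ)) =
        M * (t i * s ^ (n - (i : ℕ))) + if i = w then 1 else 0 := by
      intro i
      unfold co
      by_cases hi : i = w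
      · rw [if_pos hi, if_pos (by rw [hi]; exact Fin.val_last n), hi, hw, Fin.val_last,
          Nat.sub_self, pow_zero]
        ring
      · rw [if_neg hi, if_neg (fun h0 => hi (Fin.ext (by rw [hw, Fin.val_last]; exact h0)))]
        ring
    rw [sum_congr rfl fun i _ => h1 i, sum_add_distrib, ← mul_sum, sum_ite_eq' univ w,
      if_pos (mem_univ _)]
  rw [heval]
  constructor
  · rw [add_sub_cancel_right]
    exact dvd_mul_right _ _
  · have h1 : 0 ≤ ∑ i : Fin (n + 1), t i * s ^ (n - (i : ℕ)) := by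
      apply sum_nonneg
      intro i _
      have := (mem_Icc.1 (ht i)).1
      positivity
    nlinarith [mul_nonneg hM.le h1]

open Classical in
/-- The bad parameters at `p`, first kind. -/
noncomputable def S1 (n : ℕ) (M : ℤ) (h p : ℕ) : Finset (Fin (n + 1) → ℤ) :=
  (box (n + 1) h).filter fun t => (p : ℤ) ∣ co M t 0 ∧ (p : ℤ) ∣ co M t 1

open Classical in
/-- The bad parameters at `p`, second kind. -/
noncomputable def S2 (n : ℕ) (M : ℤ) (h p : ℕ) : Finset (Fin (n + 1) → ℤ) :=
  (box (n + 1) h).filter fun t => ¬ ((p : ℤ) ∣ co M t 0 ∧ (p : ℤ) ∣ co M t 1) ∧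
    ∃ _ : Fact p.Prime, SqK (AlgebraicClosure (ZMod p)) (co M t)

lemma card_S1 {n : ℕ} (hn : 4 ≤ n) {M : ℤ} {h p : ℕ} (hp : p.Prime) (hpM : ¬ (p : ℤ) ∣ M) :
    ((S1 n M h p).card : ℝ) ≤ (h : ℝ) ^ (n - 1) * ((h : ℝ) / p + 1) ^ 2 := by
  classical
  have h01 : (0 : Fin (n + 1)) ≠ 1 := by
    intro h0
    have := congrArg Fin.val h0
    rw [Fin.val_one', Fin.val_zero, Nat.mod_eq_of_lt (by omega)] at this
    omega
  have hc : ({0, 1} : Finset (Fin (n + 1))).card = 2 := card_pair h01
  have h1 := card_le_mod hp.pos {0, 1} (S1 n M h p) (by unfold S1; exact filter_subset _ _) (by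
    intro t ht t' ht' _ i hi
    rw [S1, mem_filter] at ht ht'
    apply dvd_of_co hp hpM
    rw [mem_insert, mem_singleton] at hi
    rcases hi with rfl | rfl
    · exact dvd_sub ht.2.1 ht'.2.1
    · exact dvd_sub ht.2.2 ht'.2.2)
  rw [hc] at h1
  exact h1

lemma card_S2 {n : ℕ} (hn : 4 ≤ n) {M : ℤ} {h p : ℕ} (hp : p.Prime) (hp2 : p ≠ 2)
    (hpM : ¬ (p : ℤ) ∣ M) :
    ((S2 n M h p).card : ℝ) ≤ (h : ℝ) ^ (n - 1) * ((h : ℝ) / p + 1) ^ 2 := by
  classical
  have := Fact.mk hp
  have h2K : (2 : AlgebraicClosure (ZMod p)) ≠ 0 := by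
    intro h0
    apply BG.Els.two_ne (p := p) hp2
    apply (algebraMap (ZMod p) (AlgebraicClosure (ZMod p))).injective
    rw [map_ofNat, map_zero]
    exact h0
  set u : Fin (n + 1) := ⟨n - 1, by omega⟩ with hu
  set w : Fin (n + 1) := ⟨n, by omega⟩ with hw
  have huw : u ≠ w := by
    intro h0
    have := congrArg Fin.val h0
    simp only [hu, hw] at this
    omega
  have hc : ({u, w} : Finset (Fin (n + 1))).card = 2 := card_pair huw
  have h1 := card_le_mod hp.pos {u, w} (S2 n M h p) (by unfold S2; exact filter_subset _ _) (by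
    intro t ht t' ht' htt i hi
    rw [S2, mem_filter] at ht ht'
    apply dvd_of_co hp hpM
    obtain ⟨-, ht0, _, ht1⟩ := ht
    obtain ⟨-, ht0', _, ht1'⟩ := ht'
    apply uniq (K := AlgebraicClosure (ZMod p)) hn h2K ht1 ht1'
    · intro j hj
      unfold co
      rw [htt j]
      rw [mem_insert, mem_singleton, not_or]
      constructor
      · intro h0
        have := congrArg Fin.val h0
        simp only [hu] at this
        omega
      · intro h0
        have := congrArg Fin.val h0
        simp only [hw] at this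
        omega
    · rw [BG.PEls.cast_eq_zero (p := p), BG.PEls.cast_eq_zero (p := p)]
      exact ht0)
  rw [hc] at h1
  exact h1

open Classical in
/-- The parameters with `RR = 0`. -/
noncomputable def E1 (n : ℕ) (M : ℤ) (h : ℕ) : Finset (Fin (n + 1) → ℤ) :=
  (box (n + 1) h).filter fun t => RR (co M t) = 0

/-- `RR` and `NN` of two vectors with the same first coefficients. -/
lemma U_eq_of {n m : ℕ} {a a' : Fin (n + 1) → ℤ} (j : ℕ) (hj : j < m) (hm : m ≤ n)
    (h : ∀ i : Fin (n + 1), (i : ℕ) < m → a i = a' i) :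
    BG.Els.U (a 0) (fun i => BG.Els.bet a (i + 1)) j =
      BG.Els.U (a' 0) (fun i => BG.Els.bet a' (i + 1)) j := by
  rw [h 0 (by rw [Fin.val_zero]; omega)]
  apply BG.Els.U_congr
  intro i hi1 hi2
  rw [bet_eq a (by omega : i ≤ n), bet_eq a' (by omega : i ≤ n)]
  exact h _ (by simp only; omega)

lemma RR_eq_of {n : ℕ} (hn : 4 ≤ n) {a a' : Fin (n + 1) → ℤ}
    (h : ∀ i : Fin (n + 1), (i : ℕ) < n → a i = a' i) : RR a = RR a' := by
  unfold RR
  rw [U_eq_of (n / 2 - 1) (by omega) le_rfl h, U_eq_of (n / 2) (by omega) le_rfl h,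
    h 0 (by rw [Fin.val_zero]; omega)]
  have h1 : BG.Els.bet a n = BG.Els.bet a' n := by
    obtain ⟨m, rfl⟩ : ∃ m, n = m + 1 := ⟨n - 1, by omega⟩
    rw [bet_eq a (by omega : m ≤ m + 1), bet_eq a' (by omega : m ≤ m + 1)]
    exact h _ (by simp only; omega)
  rw [h1]

lemma RR_sub {n : ℕ} (hn : 4 ≤ n) {a a' : Fin (n + 1) → ℤ}
    (h : ∀ i : Fin (n + 1), (i : ℕ) < n - 1 → a i = a' i) :
    RR a - RR a' = 2 ^ (2 * n - 5) * a 0 ^ (n - 2) * (a ⟨n - 1, by omega⟩ - a' ⟨n - 1, by omega⟩) := by
  unfold RR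
  rw [U_eq_of (n / 2 - 1) (by omega : n / 2 - 1 < n - 1) (by omega) h,
    U_eq_of (n / 2) (by omega : n / 2 < n - 1) (by omega) h, h 0 (by rw [Fin.val_zero]; omega)]
  obtain ⟨m, rfl⟩ : ∃ m, n = m + 1 := ⟨n - 1, by omega⟩
  rw [bet_eq a (by omega : m ≤ m + 1), bet_eq a' (by omega : m ≤ m + 1)]
  simp only [Nat.add_sub_cancel]
  ring

lemma NN_sub {n : ℕ} (hn : 4 ≤ n) {a a' : Fin (n + 1) → ℤ}
    (h : ∀ i : Fin (n + 1), (i : ℕ) < n → a i = a' i) :
    NN a - NN a' = (4 * a 0) ^ (n - 1) * (a (Fin.last n) - a' (Fin.last n)) := by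
  unfold NN
  rw [U_eq_of (n / 2) (by omega) le_rfl h, h 0 (by rw [Fin.val_zero]; omega),
    bet_eq a le_rfl, bet_eq a' le_rfl]
  have h1 : (⟨n, by omega⟩ : Fin (n + 1)) = Fin.last n := rfl
  rw [h1]
  ring

lemma pos_of_box {N h : ℕ} {t : Fin N → ℤ} (ht : t ∈ box N h) (i : Fin N) :
    1 ≤ t i ∧ t i ≤ h := by
  rw [box, Fintype.mem_piFinset] at ht
  exact mem_Icc.1 (ht i)

lemma card_E1 {n : ℕ} (hn : 4 ≤ n) {M : ℤ} (hM : 0 < M) (h : ℕ) :
    ((E1 n M h).card : ℝ) ≤ (h : ℝ) ^ n := by
  classical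
  set u : Fin (n + 1) := ⟨n - 1, by omega⟩ with hu
  have h1 := card_le_free {u} (E1 n M h) (by unfold E1; exact filter_subset _ _) zero_le_one (by
    intro t₀ ht₀
    rw [E1, mem_filter] at ht₀
    have h2 : ((E1 n M h).filter fun t => ∀ i, i ∉ ({u} : Finset (Fin (n + 1))) → t i = t₀ i).card ≤
        1 := by
      rw [card_le_one]
      have key : ∀ t ∈ (E1 n M h).filter fun t => ∀ i, i ∉ ({u} : Finset (Fin (n + 1))) →
          t i = t₀ i, t = t₀ := by
        intro t ht
        rw [mem_filter, E1, mem_filter] at ht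
        obtain ⟨⟨hb, hR⟩, hoff⟩ := ht
        have hoff' : ∀ i, i ≠ u → t i = t₀ i := fun i hi => hoff i (by rwa [mem_singleton])
        have hsub := RR_sub hn (a := co M t) (a' := co M t₀) (by
          intro i hi
          unfold co
          rw [hoff' i (by
            intro h0
            have := congrArg Fin.val h0
            simp only [hu] at this
            omega)])
        rw [hR, ht₀.2, sub_self] at hsub
        have ha0 : co M t 0 ≠ 0 := by
          rw [co_lt M t (by rw [Fin.val_zero]; omega)]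
          have := (pos_of_box hb 0).1
          positivity
        have h3 := (mul_eq_zero.1 hsub.symm).resolve_left (by positivity)
        have h4 : t u = t₀ u := co_inj hM.ne' (sub_eq_zero.1 h3)
        funext i
        by_cases hi : i = u
        · rw [hi]
          exact h4
        · exact hoff' i hi
      intro t ht t' ht'
      rw [key t ht, key t' ht']
    exact_mod_cast h2)
  rw [card_singleton, mul_one] at h1
  exact h1

open Classical in
/-- The parameters which are bad at a prime `> h`. -/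
noncomputable def E2 (n : ℕ) (M : ℤ) (h : ℕ) : Finset (Fin (n + 1) → ℤ) :=
  (box (n + 1) h).filter fun t => RR (co M t) ≠ 0 ∧
    ∃ p : ℕ, p.Prime ∧ h < p ∧ p ≠ 2 ∧ ¬ (p : ℤ) ∣ M ∧ (p : ℤ) ∣ RR (co M t) ∧
      (p : ℤ) ∣ NN (co M t)

/-- The number of primes `> h` which divide a number `< h^n`. -/
lemma card_large {R h n : ℕ} (hR : 0 < R) (hlt : R < h ^ n) :
    (R.primeFactors.filter fun p => h < p).card ≤ n := by
  by_contra hcon
  push Not at hcon
  have h1 : h ^ (R.primeFactors.filter fun p => h < p).card ≤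
      ∏ p ∈ R.primeFactors.filter fun p => h < p, p := by
    apply pow_card_le_prod
    intro p hp
    exact (mem_filter.1 hp).2.le
  have h2 : ∏ p ∈ R.primeFactors.filter (fun p => h < p), p ≤ R := by
    have h3 : ∏ p ∈ R.primeFactors.filter (fun p => h < p), p ∣ R := by
      refine dvd_trans (prod_dvd_prod_of_subset _ _ _ (filter_subset _ _)) ?_
      exact Nat.prod_primeFactors_dvd R
    exact Nat.le_of_dvd hR h3
  rcases Nat.eq_zero_or_pos h with h0 | h0
  · subst h0
    rcases Nat.eq_zero_or_pos n with h4 | h4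
    · subst h4
      omega
    · rw [zero_pow (by omega)] at hlt
      omega
  · have h3 : h ^ n ≤ h ^ (R.primeFactors.filter fun p => h < p).card :=
      Nat.pow_le_pow_right h0 hcon.le
    omega

lemma card_E2 {n : ℕ} (hn : 4 ≤ n) {M : ℤ} {h : ℕ}
    (hR : ∀ t ∈ box (n + 1) h, (RR (co M t)).natAbs < h ^ n) :
    ((E2 n M h).card : ℝ) ≤ (h : ℝ) ^ n * n := by
  classical
  have h1 := card_le_free {Fin.last n} (E2 n M h) (by unfold E2; exact filter_subset _ _)
    (Nat.cast_nonneg n) (by
    intro t₀ ht₀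
    rw [E2, mem_filter] at ht₀
    obtain ⟨hb₀, hR₀, -⟩ := ht₀
    set P : (Fin (n + 1) → ℤ) → ℕ := fun t =>
      if hp : ∃ p : ℕ, p.Prime ∧ h < p ∧ p ≠ 2 ∧ ¬ (p : ℤ) ∣ M ∧ (p : ℤ) ∣ RR (co M t) ∧
        (p : ℤ) ∣ NN (co M t) then hp.choose else 0 with hP
    have hPspec : ∀ t ∈ E2 n M h, (P t).Prime ∧ h < P t ∧ P t ≠ 2 ∧ ¬ ((P t : ℕ) : ℤ) ∣ M ∧
        ((P t : ℕ) : ℤ) ∣ RR (co M t) ∧ ((P t : ℕ) : ℤ) ∣ NN (co M t) := by
      intro t ht
      rw [E2, mem_filter] at ht
      simp only [hP]
      rw [dif_pos ht.2.2]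
      exact ht.2.2.choose_spec
    have hsame : ∀ t : Fin (n + 1) → ℤ,
        (∀ i, i ∉ ({Fin.last n} : Finset (Fin (n + 1))) → t i = t₀ i) →
        ∀ i : Fin (n + 1), (i : ℕ) < n → co M t i = co M t₀ i := by
      intro t ht i hi
      unfold co
      rw [ht i (by
        rw [mem_singleton]
        intro h0
        rw [h0, Fin.val_last] at hi
        omega)]
    have h2 : ((E2 n M h).filter fun t => ∀ i, i ∉ ({Fin.last n} : Finset (Fin (n + 1))) →
        t i = t₀ i).card ≤ ((RR (co M t₀)).natAbs.primeFactors.filter fun p => h < p).card := by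
      apply card_le_card_of_injOn P
      · intro t ht
        rw [mem_coe, mem_filter] at ht
        obtain ⟨q1, q2, -, -, q5, -⟩ := hPspec t ht.1
        rw [RR_eq_of hn (hsame t ht.2)] at q5
        rw [mem_coe, mem_filter, Nat.mem_primeFactors]
        refine ⟨⟨q1, ?_, Int.natAbs_ne_zero.2 hR₀⟩, q2⟩
        have := Int.natAbs_dvd_natAbs.2 q5
        rwa [Int.natAbs_natCast] at this
      · intro t ht t' ht' hPP
        rw [mem_coe, mem_filter] at ht ht'
        obtain ⟨q1, q2, q3, q4, -, q6⟩ := hPspec t ht.1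
        obtain ⟨-, -, -, -, -, q6'⟩ := hPspec t' ht'.1
        rw [← hPP] at q6'
        have hb : t ∈ box (n + 1) h := by
          have := ht.1
          rw [E2, mem_filter] at this
          exact this.1
        have hb' : t' ∈ box (n + 1) h := by
          have := ht'.1
          rw [E2, mem_filter] at this
          exact this.1
        have h3 := NN_sub hn (a := co M t) (a' := co M t') (fun i hi =>
          (hsame t ht.2 i hi).trans (hsame t' ht'.2 i hi).symm)
        have h4 := dvd_sub q6 q6'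
        rw [h3] at h4
        have hpr := Nat.prime_iff_prime_int.1 q1
        have h5 : ¬ ((P t : ℕ) : ℤ) ∣ (4 * co M t 0) ^ (n - 1) := by
          intro h6
          have h7 := hpr.dvd_of_dvd_pow h6
          rw [co_lt M t (by rw [Fin.val_zero]; omega)] at h7
          rcases hpr.dvd_or_dvd h7 with h8 | h8
          · have h9 : P t ∣ 2 ^ 2 := by
              have : ((P t : ℕ) : ℤ) ∣ ((2 ^ 2 : ℕ) : ℤ) := by push_cast; exact h8
              exact_mod_cast this
            have h10 := (Nat.prime_dvd_prime_iff_eq q1 Nat.prime_two).1 (q1.dvd_of_dvd_pow h9)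
            exact q3 h10
          · rcases hpr.dvd_or_dvd h8 with h9 | h9
            · exact q4 h9
            · have h10 := pos_of_box hb 0
              have h11 := Int.le_of_dvd (by linarith [h10.1]) h9
              have : ((P t : ℕ) : ℤ) > h := by exact_mod_cast q2
              linarith [h10.2]
        have h6 := dvd_of_co q1 q4 ((hpr.dvd_or_dvd h4).resolve_left h5)
        have h7 : t (Fin.last n) = t' (Fin.last n) := by
          have h8 := pos_of_box hb (Fin.last n)
          have h9 := pos_of_box hb' (Fin.last n)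
          have h10 : ((P t : ℕ) : ℤ) > h := by exact_mod_cast q2
          have h11 := Int.eq_zero_of_abs_lt_dvd h6 (by
            rw [abs_lt]
            constructor <;> linarith [h8.1, h8.2, h9.1, h9.2])
          linarith
        funext i
        by_cases hi : i = Fin.last n
        · rw [hi]
          exact h7
        · rw [ht.2 i (by rwa [mem_singleton]), ht'.2 i (by rwa [mem_singleton])]
    have h3 := h2.trans (card_large (Int.natAbs_pos.2 hR₀) (hR t₀ hb₀))
    exact_mod_cast h3)
  rw [card_singleton] at h1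
  exact h1

end Stoll308.BF.Els
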