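import Pool.Agent.Work.MP_308fa9_nt.BF.Basic
import Pool.Agent.Work.MP_308fa9_nt.BG.PEls
import Pool.Agent.Work.MP_308fa9_nt.BF.ElsB

set_option autoImplicit false

/-!
A positive proportion of the curves is everywhere locally soluble.
-/

namespace Stoll308.BF

open Polynomial Finset BG

theorem els_many (n : ℕ) (hn : 4 ≤ n) (he : Even n) (ψ : ℤ[X]) (hψ : 1 ≤ ψ.natDegree) :
    ∃ c₀ : ℝ, 0 < c₀ ∧ ∃ H₀ : ℕ, ∀ H : ℕ, H₀ ≤ H →
      c₀ * H ^ (n + 1) ≤ (cnt n (ELS ψ) H : ℝ) := by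
  classical
  have hψ0 : ψ ≠ 0 := by
    rintro rfl
    simp at hψ
  have hlc : ψ.leadingCoeff ≠ 0 := leadingCoeff_ne_zero.2 hψ0
  obtain ⟨C, hC0, hC⟩ := Els.RR_bound n hn he
  obtain ⟨Q, hQ⟩ : ∃ Q : ℕ, Q = (n * 2 * ψ.natDegree + 2) ^ 2 + ψ.leadingCoeff.natAbs + 16 :=
    ⟨_, rfl⟩
  obtain ⟨M, hMdef⟩ : ∃ M : ℕ, M = 8 * Q.factorial := ⟨_, rfl⟩
  have hM : 0 < M := by
    rw [hMdef]
    exact Nat.mul_pos (by norm_num) (Nat.factorial_pos _)
  have hMz : (0 : ℤ) < (M : ℤ) := by exact_mod_cast hM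
  have hM0 : (0 : ℝ) < M := by exact_mod_cast hM
  have hQM : ∀ p : ℕ, p.Prime → Q < p → ¬ (p : ℤ) ∣ (M : ℤ) := by
    intro p hp hQp h
    rw [Int.natCast_dvd_natCast, hMdef] at h
    rcases (hp.dvd_mul).1 h with h | h
    · have h2 : p ∣ 2 ^ 3 := by norm_num; exact h
      have := Nat.le_of_dvd (by norm_num) (hp.dvd_of_dvd_pow h2)
      omega
    · have := (hp.dvd_factorial).1 h
      omega
  obtain ⟨C', hC'⟩ : ∃ C' : ℕ, C' = ⌈C * (2 * M) ^ (n - 1)⌉₊ := ⟨_, rfl⟩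
  refine ⟨1 / (2 * (4 * M) ^ (n + 1)), by positivity, 4 * M * (Q + C' + 4 * (n + 5) + 2), ?_⟩
  intro H hH
  -- the number of parameters
  obtain ⟨h, hh⟩ : ∃ h : ℕ, h = H / M - 1 := ⟨_, rfl⟩
  have hHM : 4 * (Q + C' + 4 * (n + 5) + 2) ≤ H / M := by
    rw [Nat.le_div_iff_mul_le hM]
    calc _ = 4 * M * (Q + C' + 4 * (n + 5) + 2) := by ring
      _ ≤ H := hH
  have hhQ : Q < h := by omega
  have hhC : C' < h := by omega
  have hhn : 4 * (n + 5) ≤ h := by omega
  have hh1 : 1 ≤ h := by omega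
  have hh1' : (1 : ℝ) ≤ h := by exact_mod_cast hh1
  have hMh : M * (h + 1) ≤ H := by
    have : h + 1 = H / M := by omega
    rw [this]
    exact Nat.mul_div_le H M
  have hhH : (H : ℝ) / (4 * M) ≤ h := by
    have h1 : H < M * (H / M + 1) := by
      have := Nat.lt_mul_div_succ H hM
      exact this
    have h2 : H / M + 1 ≤ 4 * h := by omega
    have h3 : H ≤ M * (4 * h) := h1.le.trans (Nat.mul_le_mul_left _ h2)
    rw [div_le_iff₀ (by positivity)]
    have h4 : (H : ℝ) ≤ M * (4 * h) := by exact_mod_cast h3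
    linarith
  set s : ℤ := (ψ.coeff 0) ^ 2 with hs
  have hs0 : 0 ≤ s := sq_nonneg _
  -- sizes
  have hco : ∀ t ∈ Els.box (n + 1) h, ∀ i, 0 < Els.co (M : ℤ) t i ∧
      Els.co (M : ℤ) t i ≤ M * (h + 1) := by
    intro t ht i
    have h1 := Els.pos_of_box ht i
    have h2 : (M : ℤ) * 1 ≤ M * t i := mul_le_mul_of_nonneg_left h1.1 hMz.le
    have h3 : (M : ℤ) * t i ≤ M * h := mul_le_mul_of_nonneg_left h1.2 hMz.le
    have h4 : (1 : ℤ) ≤ M := hMz
    unfold Els.co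
    constructor
    · split_ifs <;> linarith
    · split_ifs <;> linarith
  have hRR : ∀ t ∈ Els.box (n + 1) h, (Els.RR (Els.co (M : ℤ) t)).natAbs < h ^ n := by
    intro t ht
    have h1 := hC (M * (h + 1)) (by positivity) (Els.co (M : ℤ) t) (by
      intro i
      have h2 := hco t ht i
      rw [abs_of_pos (by exact_mod_cast h2.1)]
      exact_mod_cast h2.2)
    have h2 : C * ((M : ℝ) * (h + 1)) ^ (n - 1) < (h : ℝ) ^ n := by
      have h3 : (M : ℝ) * (h + 1) ≤ (2 * M) * h := by nlinarith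
      have h4 : ((M : ℝ) * (h + 1)) ^ (n - 1) ≤ ((2 * M) * h) ^ (n - 1) :=
        pow_le_pow_left₀ (by positivity) h3 _
      have h5 : C * (2 * M) ^ (n - 1) ≤ C' := by
        rw [hC']
        exact Nat.le_ceil _
      have h6 : (C' : ℝ) < h := by exact_mod_cast hhC
      have h7 : (0 : ℝ) < (h : ℝ) ^ (n - 1) := by positivity
      have h8 : (h : ℝ) ^ n = h * (h : ℝ) ^ (n - 1) := by
        rw [← pow_succ']
        congr 1
        omega
      calc C * ((M : ℝ) * (h + 1)) ^ (n - 1) ≤ C * ((2 * M) * h) ^ (n - 1) :=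
            mul_le_mul_of_nonneg_left h4 hC0
        _ = (C * (2 * M) ^ (n - 1)) * (h : ℝ) ^ (n - 1) := by
            rw [mul_pow]
            ring
        _ < h * (h : ℝ) ^ (n - 1) := mul_lt_mul_of_pos_right (by linarith) h7
        _ = (h : ℝ) ^ n := h8.symm
    have h3 : (((Els.RR (Els.co (M : ℤ) t)).natAbs : ℕ) : ℝ) < (h : ℝ) ^ n := by
      rw [Nat.cast_natAbs]
      push_cast
      exact lt_of_le_of_lt h1 h2
    exact_mod_cast h3
  set bad := ((Ioc Q h).filter Nat.Prime).biUnion fun p => Els.S1 n M h p ∪ Els.S2 n M h p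
    with hbad
  set bad' := bad ∪ (Els.E1 n M h ∪ Els.E2 n M h) with hbad'
  have hgood : ∀ t ∈ Els.box (n + 1) h \ bad', ELS ψ (Els.co (M : ℤ) t) := by
    intro t ht
    rw [mem_sdiff, hbad', mem_union, mem_union, not_or, not_or] at ht
    obtain ⟨hb, hb1, hb2, hb3⟩ := ht
    obtain ⟨h2, h3⟩ := Els.value hMz hs0 hb
    refine ⟨?_, Els.point_real h3⟩
    intro p hp
    have hpp : p.Prime := hp.out
    by_cases hpQ : p ≤ Q
    · apply Els.point_small
      refine dvd_trans ?_ h2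
      rw [Int.natCast_dvd_natCast, hMdef]
      exact Nat.mul_dvd_mul_left 8 (Nat.dvd_factorial hpp.pos hpQ)
    · push Not at hpQ
      have hp2 : p ≠ 2 := by omega
      have hψp : (ψ.leadingCoeff : ZMod p) ≠ 0 := by
        intro h0
        rw [ZMod.intCast_zmod_eq_zero_iff_dvd] at h0
        have h1 := Int.natAbs_dvd_natAbs.2 h0
        rw [Int.natAbs_natCast] at h1
        have h2 := Nat.le_of_dvd (Int.natAbs_pos.2 hlc) h1
        omega
      apply Els.point_good hψ hψp (by omega) hp2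
      intro hcon
      by_cases hph : p ≤ h
      · apply hb1
        rw [hbad, mem_biUnion]
        refine ⟨p, mem_filter.2 ⟨mem_Ioc.2 ⟨hpQ, hph⟩, hpp⟩, ?_⟩
        rw [mem_union]
        by_cases h01 : (p : ℤ) ∣ Els.co (M : ℤ) t 0 ∧ (p : ℤ) ∣ Els.co (M : ℤ) t 1
        · left
          rw [Els.S1, mem_filter]
          exact ⟨hb, h01⟩
        · right
          rw [Els.S2, mem_filter]
          exact ⟨hb, h01, hp, hcon⟩
      · push Not at hph
        have h2K : (2 : AlgebraicClosure (ZMod p)) ≠ 0 := by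
          intro h0
          apply BG.Els.two_ne (p := p) hp2
          apply (algebraMap (ZMod p) (AlgebraicClosure (ZMod p))).injective
          rw [map_ofNat, map_zero]
          exact h0
        have ha0 : (Els.co (M : ℤ) t 0 : AlgebraicClosure (ZMod p)) ≠ 0 := by
          intro h0
          rw [BG.PEls.cast_eq_zero (p := p), Els.co_lt _ t (by rw [Fin.val_zero]; omega)] at h0
          rcases (Nat.prime_iff_prime_int.1 hpp).dvd_or_dvd h0 with h4 | h4
          · exact hQM p hpp hpQ h4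
          · have h5 := Els.pos_of_box hb 0
            have h6 := Int.le_of_dvd (by linarith [h5.1]) h4
            have h7 : (h : ℤ) < p := by exact_mod_cast hph
            linarith [h5.2]
        have hrel : (p : ℤ) ∣ Els.RR (Els.co (M : ℤ) t) ∧ (p : ℤ) ∣ Els.NN (Els.co (M : ℤ) t) := by
          obtain ⟨m, hm⟩ := he
          have hm2 : n = 2 * m := by omega
          subst hm2
          exact Els.rel (K := AlgebraicClosure (ZMod p)) (by omega) h2K ha0 hcon
        have hR0 : Els.RR (Els.co (M : ℤ) t) ≠ 0 := by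
          intro h0
          apply hb2
          rw [Els.E1, mem_filter]
          exact ⟨hb, h0⟩
        apply hb3
        rw [Els.E2, mem_filter]
        exact ⟨hb, hR0, p, hpp, hph, hp2, hQM p hpp hpQ, hrel.1, hrel.2⟩
  -- the count
  have hinj : ((Els.box (n + 1) h \ bad').card : ℝ) ≤ (cnt n (ELS ψ) H : ℝ) := by
    unfold cnt
    have h1 : (Els.box (n + 1) h \ bad').card ≤
        ((Fintype.piFinset fun _ : Fin (n + 1) => Icc (-(H : ℤ)) (H : ℤ)).filter
          (ELS ψ)).card := by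
      apply card_le_card_of_injOn (Els.co (M : ℤ))
      · intro t ht
        rw [mem_coe] at ht
        have hb := (mem_sdiff.1 ht).1
        rw [mem_coe, mem_filter, Fintype.mem_piFinset]
        refine ⟨fun i => ?_, hgood t ht⟩
        have h2 := hco t hb i
        have h3 : (M : ℤ) * (h + 1) ≤ H := by exact_mod_cast hMh
        rw [mem_Icc]
        constructor <;> linarith [h2.1, h2.2]
      · intro t _ t' _ htt
        funext i
        exact Els.co_inj hMz.ne' (congrFun htt i)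
    exact_mod_cast h1
  have hb3 : ((Els.box (n + 1) h).card : ℝ) ≤
      ((Els.box (n + 1) h \ bad').card : ℝ) + ((bad.card : ℝ) +
        (((Els.E1 n M h).card : ℝ) + ((Els.E2 n M h).card : ℝ))) := by
    have h1 : Els.box (n + 1) h ⊆ (Els.box (n + 1) h \ bad') ∪ bad' := by
      intro t ht
      rw [mem_union, mem_sdiff]
      by_cases h : t ∈ bad'
      · exact Or.inr h
      · exact Or.inl ⟨ht, h⟩
    have h2 := (card_le_card h1).trans ((card_union_le _ _).trans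
      (Nat.add_le_add_left ((card_union_le _ _).trans
        (Nat.add_le_add_left (card_union_le _ _) _)) _))
    exact_mod_cast h2
  rw [Els.card_box] at hb3
  push_cast at hb3
  have hE1 := Els.card_E1 hn hMz h
  have hE2 := Els.card_E2 hn (M := (M : ℤ)) hRR
  have hb2 : (bad.card : ℝ) ≤ (h : ℝ) ^ (n + 1) / 4 + 4 * (h : ℝ) ^ n := by
    have h1 : (bad.card : ℝ) ≤ ∑ p ∈ (Ioc Q h).filter Nat.Prime,
        (((Els.S1 n M h p).card : ℝ) + ((Els.S2 n M h p).card : ℝ)) := by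
      have h2 := card_biUnion_le (s := (Ioc Q h).filter Nat.Prime)
        (t := fun p => Els.S1 n M h p ∪ Els.S2 n M h p)
      have h3 : (bad.card : ℝ) ≤ ∑ p ∈ (Ioc Q h).filter Nat.Prime,
        (((Els.S1 n M h p ∪ Els.S2 n M h p).card : ℕ) : ℝ) := by exact_mod_cast h2
      refine h3.trans (sum_le_sum fun p _ => ?_)
      exact_mod_cast card_union_le _ _
    have h2 : ∑ p ∈ (Ioc Q h).filter Nat.Prime,
        (((Els.S1 n M h p).card : ℝ) + ((Els.S2 n M h p).card : ℝ)) ≤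
        ∑ p ∈ Ioc Q h, (h : ℝ) ^ (n - 1) * (4 * (h : ℝ) ^ 2 * ((p : ℝ) ^ 2)⁻¹ + 4) := by
      refine (sum_le_sum fun p hp => ?_).trans
        (sum_le_sum_of_subset_of_nonneg (filter_subset _ _) fun p _ _ => by positivity)
      rw [mem_filter, mem_Ioc] at hp
      have hp0 : (0 : ℝ) < p := by exact_mod_cast hp.2.pos
      have h3 := Els.card_S1 hn (M := (M : ℤ)) (h := h) hp.2 (hQM p hp.2 hp.1.1)
      have h4 := Els.card_S2 hn (M := (M : ℤ)) (h := h) hp.2 (by omega) (hQM p hp.2 hp.1.1)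
      have h5 : ((h : ℝ) / p + 1) ^ 2 ≤ 2 * ((h : ℝ) / p) ^ 2 + 2 := by
        nlinarith [sq_nonneg ((h : ℝ) / p - 1)]
      have h6 : ((h : ℝ) / p) ^ 2 = (h : ℝ) ^ 2 * ((p : ℝ) ^ 2)⁻¹ := by
        rw [div_pow, div_eq_mul_inv]
      rw [h6] at h5
      have h7 := mul_le_mul_of_nonneg_left h5 (by positivity : (0 : ℝ) ≤ (h : ℝ) ^ (n - 1))
      linarith
    have h3 : ∑ p ∈ Ioc Q h, (((p : ℕ) : ℝ) ^ 2)⁻¹ ≤ 1 / 16 := by
      have hsum := sum_Ioc_inv_sq_le_sub (α := ℝ) (k := Q) (n := h) (by omega) hhQ.le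
      have h4 : (0 : ℝ) ≤ (((h : ℕ) : ℕ) : ℝ)⁻¹ := by positivity
      have hQ16 : (16 : ℝ) ≤ Q := by
        have : 16 ≤ Q := by omega
        exact_mod_cast this
      have h5 : (Q : ℝ)⁻¹ ≤ 1 / 16 := by
        rw [one_div]
        exact inv_anti₀ (by norm_num) hQ16
      linarith
    have h4 : (((Ioc Q h).card : ℕ) : ℝ) ≤ h := by
      rw [Nat.card_Ioc]
      exact_mod_cast Nat.sub_le _ _
    have h5 : (h : ℝ) ^ (n + 1) = (h : ℝ) ^ (n - 1) * (h : ℝ) ^ 2 := by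
      rw [← pow_add]
      congr 1
      omega
    have h6 : (h : ℝ) ^ n = (h : ℝ) ^ (n - 1) * h := by
      rw [← pow_succ]
      congr 1
      omega
    refine h1.trans (h2.trans ?_)
    rw [← mul_sum, sum_add_distrib, ← mul_sum, sum_const, nsmul_eq_mul, h5, h6]
    have h7 : 4 * (h : ℝ) ^ 2 * ∑ p ∈ Ioc Q h, (((p : ℕ) : ℝ) ^ 2)⁻¹ ≤ 4 * (h : ℝ) ^ 2 * (1 / 16) :=
      mul_le_mul_of_nonneg_left h3 (by positivity)
    calc (h : ℝ) ^ (n - 1) * (4 * (h : ℝ) ^ 2 * ∑ p ∈ Ioc Q h, (((p : ℕ) : ℝ) ^ 2)⁻¹ +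
          (((Ioc Q h).card : ℕ) : ℝ) * 4)
        ≤ (h : ℝ) ^ (n - 1) * (4 * (h : ℝ) ^ 2 * (1 / 16) + h * 4) := by gcongr
      _ = (h : ℝ) ^ (n - 1) * (h : ℝ) ^ 2 / 4 + 4 * ((h : ℝ) ^ (n - 1) * h) := by ring
  have hmain : (h : ℝ) ^ (n + 1) / 2 ≤ ((Els.box (n + 1) h \ bad').card : ℝ) := by
    have h1 : ((n : ℝ) + 5) * (h : ℝ) ^ n ≤ (h : ℝ) ^ (n + 1) / 4 := by
      have h2 : 4 * ((n : ℝ) + 5) ≤ h := by exact_mod_cast hhn
      have h3 : (h : ℝ) ^ (n + 1) = h * (h : ℝ) ^ n := pow_succ' _ _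
      rw [h3]
      have h4 := mul_le_mul_of_nonneg_right h2 (by positivity : (0 : ℝ) ≤ (h : ℝ) ^ n)
      linarith
    have h2 : ((n : ℝ) + 5) * (h : ℝ) ^ n = 4 * (h : ℝ) ^ n + (h : ℝ) ^ n + (h : ℝ) ^ n * n := by
      ring
    linarith
  refine le_trans ?_ (hmain.trans hinj)
  have h1 : ((H : ℝ) / (4 * M)) ^ (n + 1) ≤ (h : ℝ) ^ (n + 1) :=
    pow_le_pow_left₀ (by positivity) hhH _
  rw [div_pow] at h1
  calc 1 / (2 * (4 * (M : ℝ)) ^ (n + 1)) * (H : ℝ) ^ (n + 1)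
      = (H : ℝ) ^ (n + 1) / (4 * M) ^ (n + 1) / 2 := by
        field_simp
    _ ≤ (h : ℝ) ^ (n + 1) / 2 := by linarith

end Stoll308.BF
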