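import Pool.Agent.Work.MP_308fa9_nt.BF.Basic
import Pool.Agent.Work.MP_308fa9_nt.BG.PElsA

set_option autoImplicit false

/-!
Full family: local points, and the relations between the coefficients at the bad primes.
-/

namespace Stoll308.BF.Els

open Polynomial Finset PadicInt BG

section gpol

variable {R : Type*} [CommRing R] {n : ℕ}

lemma gz_eval (a : Fin (n + 1) → R) (x : R) :
    (gpol a).eval x = ∑ i : Fin (n + 1), a i * x ^ (n - (i : ℕ)) := by
  unfold gpol
  rw [eval_finsetSum]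
  simp

lemma gz_coeff (a : Fin (n + 1) → R) {j : ℕ} (hj : j ≤ n) :
    (gpol a).coeff j = a ⟨n - j, by omega⟩ := by
  unfold gpol
  rw [finsetSum_coeff, sum_eq_single (⟨n - j, by omega⟩ : Fin (n + 1))]
  · rw [coeff_C_mul, coeff_X_pow, if_pos (by simp only; omega), mul_one]
  · intro i _ hi
    rw [coeff_C_mul, coeff_X_pow, if_neg, mul_zero]
    intro h
    apply hi
    apply Fin.ext
    simp only
    have := i.2
    omega
  · intro h
    exact absurd (mem_univ _) h

lemma gz_coeff_gt (a : Fin (n + 1) → R) {j : ℕ} (hj : n < j) : (gpol a).coeff j = 0 := by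
  unfold gpol
  rw [finsetSum_coeff, sum_eq_zero]
  intro i _
  rw [coeff_C_mul, coeff_X_pow, if_neg, mul_zero]
  omega

lemma gz_natDegree_le (a : Fin (n + 1) → R) : (gpol a).natDegree ≤ n := by
  rw [natDegree_le_iff_coeff_eq_zero]
  intro N hN
  exact gz_coeff_gt a hN

lemma gz_map {S : Type*} [CommRing S] (φ : R →+* S) (a : Fin (n + 1) → R) :
    (gpol a).map φ = gpol (fun i => φ (a i)) := by
  unfold gpol
  simp [Polynomial.map_sum]

end gpol

/-- `f(T²)` is a constant times a square over `K`. -/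
def SqK {n : ℕ} (K : Type*) [Field K] (a : Fin (n + 1) → ℤ) : Prop :=
  ∃ (c : K) (s : K[X]), expand K (2 * 1) (GZ K a) = C c * s ^ 2

/-- First relation: it fixes the coefficient `a_(n-1)`. -/
def RR {n : ℕ} (a : Fin (n + 1) → ℤ) : ℤ :=
  2 ^ (2 * n - 5) * a 0 ^ (n - 2) * BG.Els.bet a n -
    BG.Els.U (a 0) (fun i => BG.Els.bet a (i + 1)) (n / 2 - 1) *
      BG.Els.U (a 0) (fun i => BG.Els.bet a (i + 1)) (n / 2)

/-- Second relation: it fixes the coefficient `a_n`. -/
def NN {n : ℕ} (a : Fin (n + 1) → ℤ) : ℤ :=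
  (4 * a 0) ^ (n - 1) * BG.Els.bet a (n + 1) -
    (BG.Els.U (a 0) (fun i => BG.Els.bet a (i + 1)) (n / 2)) ^ 2

lemma bet_eq {n : ℕ} (a : Fin (n + 1) → ℤ) {i : ℕ} (hi : i ≤ n) :
    BG.Els.bet a (i + 1) = a ⟨i, by omega⟩ := by
  have := BG.Els.bet_eq a ⟨i, by omega⟩
  exact this

lemma rel_one {K : Type*} [Field K] {α : K} {m : ℕ} (hm : 2 ≤ m) {g t : K[X]} (ht : t.Monic)
    (htd : t.natDegree = m) (hgt : g = C α * t ^ 2) :
    2 ^ (4 * m - 5) * α ^ (2 * m - 2) * g.coeff 1 =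
      BG.Els.U α (fun i => g.coeff (2 * m - i)) (m - 1) *
        BG.Els.U α (fun i => g.coeff (2 * m - i)) m := by
  obtain ⟨j, rfl⟩ : ∃ j, m = j + 2 := ⟨m - 2, by omega⟩
  have e1 : BG.Els.U α (fun i => g.coeff (2 * (j + 2) - i)) (j + 2) = _ :=
    BG.Els.U_eq ht htd hgt (j + 1) le_rfl
  have e2 := BG.Els.U_eq ht htd hgt j (by omega)
  have e3 : g.coeff 1 = α * (2 * t.coeff 0 * t.coeff 1) := by
    rw [hgt, coeff_C_mul, sq, coeff_mul, Finset.Nat.sum_antidiagonal_eq_sum_range_succ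
      (fun x y => t.coeff x * t.coeff y), sum_range_succ, sum_range_one]
    simp only [Nat.sub_zero, Nat.sub_self]
    ring
  rw [show j + 2 - 1 = j + 1 by omega, e1, e2, e3, show j + 2 - (j + 1 + 1) = 0 by omega,
    show j + 2 - (j + 1) = 1 by omega, show 4 * (j + 2) - 5 = 4 * j + 3 by omega,
    show 2 * (j + 2) - 2 = 2 * j + 2 by omega]
  ring

section char

variable {K : Type*} [Field K] {p : ℕ} [CharP K p] {n : ℕ}

lemma rel {m : ℕ} (hm : 2 ≤ m) (h2 : (2 : K) ≠ 0) {a : Fin (2 * m + 1) → ℤ}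
    (ha : (a 0 : K) ≠ 0) (h : SqK K a) : (p : ℤ) ∣ RR a ∧ (p : ℤ) ∣ NN a := by
  obtain ⟨c, s, h⟩ := h
  set g : K[X] := GZ K a with hg
  have hg0 : g.coeff (2 * m) = a 0 := by
    rw [hg, gz_coeff _ le_rfl]
    congr 2
    apply Fin.ext
    simp
  have hd : g.natDegree = 2 * m := by
    apply natDegree_eq_of_le_of_coeff_ne_zero (gz_natDegree_le _)
    rw [hg0]
    exact ha
  obtain ⟨t, ht, htd, hgt⟩ := BG.Els.even_struct h2 le_rfl (by omega) hd h
  have hl : g.leadingCoeff = a 0 := by rw [leadingCoeff, hd, hg0]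
  rw [hl] at hgt
  have hU : ∀ j, j ≤ m → ((BG.Els.U (a 0) (fun i => BG.Els.bet a (i + 1)) j : ℤ) : K) =
      BG.Els.U (a 0 : K) (fun i => g.coeff (2 * m - i)) j := by
    intro j hj
    have h3 := BG.Els.U_map (Int.castRingHom K) (a 0) (fun i => BG.Els.bet a (i + 1)) j
    rw [eq_intCast, eq_intCast] at h3
    rw [h3]
    apply BG.Els.U_congr
    intro i hi1 him
    rw [hg, gz_coeff _ (by omega : 2 * m - i ≤ 2 * m), eq_intCast, bet_eq a (by omega : i ≤ 2 * m)]
    congr 2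
    apply Fin.ext
    simp only
    omega
  have hbet1 : ((BG.Els.bet a (2 * m) : ℤ) : K) = g.coeff 1 := by
    obtain ⟨j, hj⟩ : ∃ j, 2 * m = j + 1 := ⟨2 * m - 1, by omega⟩
    rw [hg, gz_coeff _ (by omega : 1 ≤ 2 * m)]
    have h3 := bet_eq a (by omega : 2 * m - 1 ≤ 2 * m)
    rw [show 2 * m - 1 + 1 = 2 * m by omega] at h3
    rw [h3]
  have hbet0 : ((BG.Els.bet a (2 * m + 1) : ℤ) : K) = g.coeff 0 := by
    rw [hg, gz_coeff _ (by omega : 0 ≤ 2 * m), bet_eq a le_rfl]
    rfl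
  have hdiv : 2 * m / 2 = m := Nat.mul_div_cancel_left m two_pos
  constructor
  · rw [← PEls.cast_eq_zero (K := K), RR, hdiv]
    push_cast
    rw [hU m le_rfl, hU (m - 1) (by omega), hbet1, sub_eq_zero]
    have h4 := rel_one hm ht htd hgt
    rw [show 2 * (2 * m) - 5 = 4 * m - 5 by omega]
    exact h4
  · rw [← PEls.cast_eq_zero (K := K), NN, hdiv]
    push_cast
    rw [hU m le_rfl, hbet0, sub_eq_zero]
    exact BG.Els.even_rel (by omega) ht htd hgt

lemma gz_degree {L : Type*} [Field L] (a : Fin (n + 1) → L) {m : ℕ} (hm : m ≤ n)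
    (h1 : ∀ i : Fin (n + 1), (i : ℕ) + m < n → a i = 0) (h2 : a ⟨n - m, by omega⟩ ≠ 0) :
    (gpol a).natDegree = m := by
  apply natDegree_eq_of_le_of_coeff_ne_zero
  · rw [natDegree_le_iff_coeff_eq_zero]
    intro N hN
    by_cases hNn : N ≤ n
    · rw [gz_coeff a hNn]
      apply h1
      simp only
      omega
    · exact gz_coeff_gt a (by omega)
  · rw [gz_coeff a hm]
    exact h2

lemma uniq (hn : 4 ≤ n) (h2 : (2 : K) ≠ 0) {a a' : Fin (n + 1) → ℤ} (h : SqK K a) (h' : SqK K a')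
    (haa : ∀ i : Fin (n + 1), (i : ℕ) + 1 < n → a i = a' i)
    (h01 : ¬ ((a 0 : K) = 0 ∧ (a 1 : K) = 0)) (i : Fin (n + 1)) : (p : ℤ) ∣ a i - a' i := by
  obtain ⟨c, s, h⟩ := h
  obtain ⟨c', s', h'⟩ := h'
  have v1 : ((1 : Fin (n + 1)) : ℕ) = 1 := by
    rw [Fin.val_one', Nat.mod_eq_of_lt (by omega)]
  have e0 : a' 0 = a 0 := (haa 0 (by simp only [Fin.val_zero]; omega)).symm
  have e1 : a' 1 = a 1 := (haa 1 (by rw [v1]; omega)).symm
  have hdiff : (GZ K a - GZ K a').natDegree ≤ 1 := by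
    rw [natDegree_le_iff_coeff_eq_zero]
    intro N hN
    rw [coeff_sub, sub_eq_zero]
    by_cases hNn : N ≤ n
    · rw [gz_coeff _ hNn, gz_coeff _ hNn, haa _ (by simp only; omega)]
    · rw [gz_coeff_gt _ (by omega), gz_coeff_gt _ (by omega)]
  have key : GZ K a = GZ K a' := by
    by_cases h0 : (a 0 : K) = 0
    · have h1 : (a 1 : K) ≠ 0 := fun h1 => h01 ⟨h0, h1⟩
      have hx1 : (⟨n - (n - 1), by omega⟩ : Fin (n + 1)) = 1 := by
        apply Fin.ext
        rw [v1]
        simp only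
        omega
      have hz : ∀ i : Fin (n + 1), (i : ℕ) + (n - 1) < n → i = 0 := by
        intro i hi
        apply Fin.ext
        rw [Fin.val_zero]
        omega
      have hd : (GZ K a).natDegree = n - 1 := by
        apply gz_degree _ (by omega)
        · intro i hi
          rw [hz i hi]
          exact h0
        · rw [hx1]
          exact h1
      have hd' : (GZ K a').natDegree = n - 1 := by
        apply gz_degree _ (by omega)
        · intro i hi
          rw [hz i hi, e0]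
          exact h0
        · rw [hx1, e1]
          exact h1
      refine BG.Els.uniq_sq h2 le_rfl (by omega : 3 ≤ n - 1) hd hd' ?_ hdiff h h'
      rw [leadingCoeff, leadingCoeff, hd, hd', gz_coeff _ (by omega), gz_coeff _ (by omega), hx1, e1]
    · have hx0 : (⟨n - n, by omega⟩ : Fin (n + 1)) = 0 := by
        apply Fin.ext
        simp
      have hd : (GZ K a).natDegree = n := by
        apply gz_degree _ le_rfl
        · intro i hi
          omega
        · rw [hx0]
          exact h0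
      have hd' : (GZ K a').natDegree = n := by
        apply gz_degree _ le_rfl
        · intro i hi
          omega
        · rw [hx0, e0]
          exact h0
      refine BG.Els.uniq_sq h2 le_rfl (by omega : 3 ≤ n) hd hd' ?_ hdiff h h'
      rw [leadingCoeff, leadingCoeff, hd, hd', gz_coeff _ le_rfl, gz_coeff _ le_rfl, hx0, e0]
  have h3 : (GZ K a).coeff (n - i) = (GZ K a').coeff (n - i) := by rw [key]
  have hi := i.2
  rw [gz_coeff _ (by omega), gz_coeff _ (by omega)] at h3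
  have hidx : (⟨n - (n - (i : ℕ)), by omega⟩ : Fin (n + 1)) = i := by
    apply Fin.ext
    simp only
    omega
  rw [hidx] at h3
  rw [← PEls.cast_eq_zero (K := K)]
  push_cast
  rw [h3, sub_self]

end char

/-- Homogeneous bound. -/
lemma U_bound (j : ℕ) : ∃ A : ℝ, 0 ≤ A ∧ ∀ (X : ℝ), 0 ≤ X → ∀ (α : ℤ) (β : ℕ → ℤ),
    |(α : ℝ)| ≤ X → (∀ i, 1 ≤ i → i ≤ j → |(β i : ℝ)| ≤ X) →
    |((BG.Els.U α β j : ℤ) : ℝ)| ≤ A * X ^ j := by
  induction j using Nat.strong_induction_on with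
  | _ j ih =>
  cases j with
  | zero =>
    refine ⟨0, le_rfl, ?_⟩
    intro X _ α β _ _
    rw [BG.Els.U]
    simp
  | succ j =>
    choose! A hA0 hA using ih
    refine ⟨4 ^ j + ∑ i : Fin j, A (i + 1) * A (j - i), ?_, ?_⟩
    · apply add_nonneg (by positivity)
      apply sum_nonneg
      intro i _
      exact mul_nonneg (hA0 _ (by have := i.2; omega)) (hA0 _ (by omega))
    · intro X hX α β hα hβ
      have hcast : ((BG.Els.U α β (j + 1) : ℤ) : ℝ) = (4 * (α : ℝ)) ^ j * (β (j + 1) : ℝ) -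
          ∑ i : Fin j, ((BG.Els.U α β ((i : ℕ) + 1) : ℤ) : ℝ) *
            ((BG.Els.U α β (j - (i : ℕ)) : ℤ) : ℝ) := by
        rw [BG.Els.U_succ]
        push_cast
        ring
      rw [hcast]
      calc |(4 * (α : ℝ)) ^ j * (β (j + 1) : ℝ) -
            ∑ i : Fin j, ((BG.Els.U α β ((i : ℕ) + 1) : ℤ) : ℝ) *
              ((BG.Els.U α β (j - (i : ℕ)) : ℤ) : ℝ)|
          ≤ |(4 * (α : ℝ)) ^ j * (β (j + 1) : ℝ)| +
            |∑ i : Fin j, ((BG.Els.U α β ((i : ℕ) + 1) : ℤ) : ℝ) *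
              ((BG.Els.U α β (j - (i : ℕ)) : ℤ) : ℝ)| := abs_sub _ _
        _ ≤ 4 ^ j * X ^ (j + 1) + ∑ i : Fin j, A (i + 1) * A (j - i) * X ^ (j + 1) := by
            apply add_le_add
            · rw [abs_mul, abs_pow, abs_mul, mul_pow, pow_succ X, ← mul_assoc]
              rw [show |(4 : ℝ)| = 4 by norm_num]
              apply mul_le_mul _ (hβ (j + 1) (by omega) le_rfl) (abs_nonneg _) (by positivity)
              apply mul_le_mul_of_nonneg_left _ (by positivity)
              exact pow_le_pow_left₀ (abs_nonneg _) hα j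
            · refine (abs_sum_le_sum_abs _ _).trans (sum_le_sum fun i _ => ?_)
              have hi := i.2
              rw [abs_mul]
              have h1 := hA (i + 1) (by omega) X hX α β hα (fun l h1 h2 => hβ l h1 (by omega))
              have h2 := hA (j - i) (by omega) X hX α β hα (fun l h1 h2 => hβ l h1 (by omega))
              calc |((BG.Els.U α β ((i : ℕ) + 1) : ℤ) : ℝ)| *
                    |((BG.Els.U α β (j - (i : ℕ)) : ℤ) : ℝ)|
                  ≤ (A (i + 1) * X ^ ((i : ℕ) + 1)) * (A (j - i) * X ^ (j - (i : ℕ))) := by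
                    apply mul_le_mul h1 h2 (abs_nonneg _)
                    exact (abs_nonneg _).trans h1
                _ = A (i + 1) * A (j - i) * X ^ (((i : ℕ) + 1) + (j - (i : ℕ))) := by
                    rw [pow_add]
                    ring
                _ = A (i + 1) * A (j - i) * X ^ (j + 1) := by
                    rw [show ((i : ℕ) + 1) + (j - (i : ℕ)) = j + 1 by omega]
        _ = (4 ^ j + ∑ i : Fin j, A (i + 1) * A (j - i)) * X ^ (j + 1) := by
            rw [add_mul, sum_mul]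

lemma bet_abs {n : ℕ} {a : Fin (n + 1) → ℤ} {X : ℝ} (hX : 0 ≤ X) (ha : ∀ i, |(a i : ℝ)| ≤ X)
    (i : ℕ) : |((BG.Els.bet a i : ℤ) : ℝ)| ≤ X := by
  unfold BG.Els.bet
  split_ifs with h
  · exact ha _
  · simpa using hX

/-- The first relation is homogeneous of degree `n - 1`. -/
lemma RR_bound (n : ℕ) (hn : 4 ≤ n) (he : Even n) : ∃ C : ℝ, 0 ≤ C ∧ ∀ X : ℝ, 0 ≤ X →
    ∀ a : Fin (n + 1) → ℤ, (∀ i, |(a i : ℝ)| ≤ X) → |((RR a : ℤ) : ℝ)| ≤ C * X ^ (n - 1) := by
  obtain ⟨A, hA0, hA⟩ := U_bound (n / 2 - 1)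
  obtain ⟨B, hB0, hB⟩ := U_bound (n / 2)
  refine ⟨2 ^ (2 * n - 5) + A * B, by positivity, ?_⟩
  intro X hX a ha
  have h1 := hA X hX (a 0) (fun i => BG.Els.bet a (i + 1)) (ha 0) (fun i _ _ => bet_abs hX ha _)
  have h2 := hB X hX (a 0) (fun i => BG.Els.bet a (i + 1)) (ha 0) (fun i _ _ => bet_abs hX ha _)
  have hcast : ((RR a : ℤ) : ℝ) = 2 ^ (2 * n - 5) * (a 0 : ℝ) ^ (n - 2) *
      ((BG.Els.bet a n : ℤ) : ℝ) - ((BG.Els.U (a 0) (fun i => BG.Els.bet a (i + 1)) (n / 2 - 1) : ℤ)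
        : ℝ) * ((BG.Els.U (a 0) (fun i => BG.Els.bet a (i + 1)) (n / 2) : ℤ) : ℝ) := by
    unfold RR
    push_cast
    ring
  rw [hcast]
  refine (abs_sub _ _).trans ?_
  rw [add_mul]
  apply add_le_add
  · rw [abs_mul, abs_mul, abs_pow, abs_pow, show n - 1 = (n - 2) + 1 by omega, pow_succ X,
      ← mul_assoc]
    rw [show |(2 : ℝ)| = 2 by norm_num]
    apply mul_le_mul _ (bet_abs hX ha _) (abs_nonneg _) (by positivity)
    apply mul_le_mul_of_nonneg_left _ (by positivity)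
    exact pow_le_pow_left₀ (abs_nonneg _) (ha 0) _
  · rw [abs_mul]
    obtain ⟨m, rfl⟩ := he
    have e1 : (m + m) / 2 = m := by omega
    rw [e1] at h1 h2 ⊢
    have e2 : m + m - 1 = (m - 1) + m := by omega
    rw [e2, pow_add]
    calc _ ≤ (A * X ^ (m - 1)) * (B * X ^ m) := by
          apply mul_le_mul h1 h2 (abs_nonneg _)
          positivity
      _ = A * B * (X ^ (m - 1) * X ^ m) := by ring

section

variable {p : ℕ} [hp : Fact p.Prime] {n : ℕ}

/-- Points at a large good prime. -/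
lemma point_good {ψ : ℤ[X]} (hψ : 1 ≤ ψ.natDegree) (hψp : (ψ.leadingCoeff : ZMod p) ≠ 0)
    (hbig : (n * 2 * ψ.natDegree + 2) ^ 2 ≤ p) (hp2 : p ≠ 2) {a : Fin (n + 1) → ℤ}
    (h : ¬ SqK (AlgebraicClosure (ZMod p)) a) : HasPoint ψ a ℚ_[p] := by
  set ψp : (ZMod p)[X] := ψ.map (Int.castRingHom (ZMod p)) with hψpdef
  have hψd : ψp.natDegree = ψ.natDegree :=
    natDegree_map_of_leadingCoeff_ne_zero _ (by rw [eq_intCast]; exact hψp)
  set g := GZ (ZMod p) a with hg
  set φ := algebraMap (ZMod p) (AlgebraicClosure (ZMod p)) with hφ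
  have hgm : g.map φ = GZ (AlgebraicClosure (ZMod p)) a := by
    rw [hg, gz_map]
    simp only [map_intCast]
  have hg0 : g ≠ 0 := by
    intro h0
    apply h
    refine ⟨0, 0, ?_⟩
    rw [← hgm, h0, Polynomial.map_zero, map_zero]
    simp
  have hd : g.natDegree ≤ n := gz_natDegree_le _
  have hPd : (g.comp (ψp ^ 2)).natDegree = g.natDegree * (2 * ψ.natDegree) := by
    rw [natDegree_comp, natDegree_pow, hψd]
  have hP0 : g.comp (ψp ^ 2) ≠ 0 := by
    intro h0
    rw [comp_eq_zero_iff] at h0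
    rcases h0 with h0 | ⟨-, h0⟩
    · exact hg0 h0
    · have h1 := congrArg natDegree h0
      rw [natDegree_pow, natDegree_C, hψd] at h1
      omega
  obtain ⟨x, y, hy, hxy⟩ := BE.exists_sq_value hp2 (g.comp (ψp ^ 2)) hP0 (by
      refine le_trans ?_ hbig
      rw [hPd]
      apply Nat.pow_le_pow_left
      apply Nat.add_le_add_right
      rw [mul_assoc]
      exact Nat.mul_le_mul_right _ hd) (by
      intro e s hes
      apply h
      have h2 : (2 : AlgebraicClosure (ZMod p)) ≠ 0 := by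
        have := BG.Els.two_ne (p := p) hp2
        intro h0
        apply this
        apply φ.injective
        rw [map_ofNat, map_zero]
        exact h0
      have h3 : (expand (AlgebraicClosure (ZMod p)) (2 * 1) (g.map φ)).comp (ψp.map φ) =
          C (φ e) * (s.map φ) ^ 2 := by
        have h4 := congrArg (Polynomial.map φ) hes
        rw [Polynomial.map_comp, Polynomial.map_pow, Polynomial.map_mul, map_C,
          Polynomial.map_pow] at h4
        rw [← h4, expand_eq_comp_X_pow, comp_assoc, pow_comp, X_comp]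
      have h5 : g.map φ ≠ 0 := (Polynomial.map_ne_zero_iff φ.injective).2 hg0
      have h6 := PEls.comp_sq h2 ((expand_ne_zero (by norm_num)).2 h5)
        (by rw [natDegree_expand]; exact ⟨(g.map φ).natDegree, by ring⟩) (by
        rw [natDegree_map, hψd]
        exact hψ) h3
      rw [hgm] at h6
      exact h6)
  rw [eval_comp, eval_pow, hg, gz_eval] at hxy
  obtain ⟨u, hu⟩ := ZMod.ringHom_surjective (toZMod : ℤ_[p] →+* ZMod p) x
  set z : ℤ_[p] := aeval u ψ with hz
  have hzm : toZMod z = ψp.eval x := by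
    rw [hz, aeval_def, hom_eval₂, hu, hψpdef, eval_map]
    congr 1
    exact RingHom.ext_int _ _
  have hzc : ((z : ℤ_[p]) : ℚ_[p]) = aeval (u : ℚ_[p]) ψ := by
    have h1 := hom_eval₂ ψ (algebraMap ℤ ℤ_[p]) (PadicInt.Coe.ringHom (p := p)) u
    rw [hz, aeval_def, aeval_def]
    have h2 : (PadicInt.Coe.ringHom (p := p)).comp (algebraMap ℤ ℤ_[p]) = algebraMap ℤ ℚ_[p] :=
      RingHom.ext_int _ _
    rw [h2] at h1
    exact h1
  set V : ℤ_[p] := ∑ i : Fin (n + 1), (a i : ℤ_[p]) * (z ^ 2) ^ (n - (i : ℕ)) with hV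
  have hVm : toZMod V = y ^ 2 := by
    rw [hV, hxy]
    simp only [map_mul, map_pow, map_intCast, hzm, map_sum]
  have hVu : ‖V‖ = 1 := norm_eq_one_iff_toZMod.2 (by rw [hVm]; exact pow_ne_zero _ hy)
  obtain ⟨w, -, hw⟩ := sq_of_residue hp2 hVu (by rw [hVm]; exact ⟨y, sq y⟩)
  left
  refine ⟨u, w, ?_⟩
  have h1 : ((w ^ 2 : ℤ_[p]) : ℚ_[p]) = (V : ℚ_[p]) := by rw [hw]
  rw [hV] at h1
  push_cast [PadicInt.coe_sum] at h1
  rw [gz_eval, ← hzc]
  exact h1

lemma point_small {ψ : ℤ[X]} {a : Fin (n + 1) → ℤ}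
    (hd : ((8 * p : ℕ) : ℤ) ∣ (GZ ℤ a).eval ((ψ.coeff 0) ^ 2) - 1) :
    HasPoint ψ a ℚ_[p] := by
  obtain ⟨w, hw⟩ := BG.Els.isSquare_padic (p := p) hd
  left
  refine ⟨0, w, ?_⟩
  rw [hw, ← coeff_zero_eq_aeval_zero', gz_eval, gz_eval]
  simp

end

lemma point_real {n : ℕ} {ψ : ℤ[X]} {a : Fin (n + 1) → ℤ}
    (hd : 0 < (GZ ℤ a).eval ((ψ.coeff 0) ^ 2)) : HasPoint ψ a ℝ := by
  left
  refine ⟨0, Real.sqrt ((GZ ℤ a).eval ((ψ.coeff 0) ^ 2) : ℤ), ?_⟩
  rw [Real.sq_sqrt (by exact_mod_cast hd.le), ← coeff_zero_eq_aeval_zero', gz_eval, gz_eval]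
  simp

end Stoll308.BF.Els
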