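import Pool.Agent.Work.MP_308fa9_nt.BF.PairEx
import Pool.Agent.Work.MP_308fa9_nt.BG.LCond2

set_option autoImplicit false

/-!
The local condition at a prime dividing the constant coefficient exactly once.
-/

namespace Stoll308.BF

open Polynomial Finset Matrix BG

namespace LCond

open BG.LCond

/-- The constant and the linear coefficient of the characteristic polynomial. -/
lemma lc_char_coeffs {n : ℕ} (P : ℤ[X]) (A B : Matrix (Fin n) (Fin n) ℤ)
    (hc : ((X : ℤ[X]) • A.map C - B.map C).det = P) :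
    (-1) ^ n * B.det = P.eval 0 ∧
      (-1) ^ (n - 1) * (B.adjugate * A).trace = (derivative P).eval 0 := by
  have h8 : (((X : ℤ[X]) • A.map C - B.map C).map (evalRingHom (0 : ℤ))) = (-1 : ℤ) • B := by
    ext a b
    simp [Matrix.map_apply, Matrix.sub_apply, Matrix.smul_apply]
  have h9 : (A.map (C : ℤ →+* ℤ[X])).map (evalRingHom (0 : ℤ)) = A := by
    ext a b
    simp
  constructor
  · have h1 := congrArg (evalRingHom (0 : ℤ)) hc
    rw [RingHom.map_det, RingHom.mapMatrix_apply, h8, Matrix.det_smul, Fintype.card_fin] at h1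
    simpa using h1
  · have h5 := derivative_det ((X : ℤ[X]) • A.map C - B.map C)
    rw [hc] at h5
    have h6 : ((X : ℤ[X]) • A.map C - B.map C).map (fun q => derivative q) = A.map C := by
      ext a b
      simp [Matrix.map_apply, Matrix.sub_apply, Matrix.smul_apply, derivative_mul]
    rw [h6] at h5
    rw [h5]
    have h10 : eval (0 : ℤ) (((X : ℤ[X]) • A.map C - B.map C).adjugate * A.map C).trace =
        ((((X : ℤ[X]) • A.map C - B.map C).adjugate * A.map C).map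
          (evalRingHom (0 : ℤ))).trace := by
      simp only [Matrix.trace, Matrix.diag_apply, eval_finsetSum, Matrix.map_apply,
        coe_evalRingHom]
    have h11 : (((X : ℤ[X]) • A.map C - B.map C).adjugate).map (evalRingHom (0 : ℤ)) =
        (((X : ℤ[X]) • A.map C - B.map C).map (evalRingHom (0 : ℤ))).adjugate :=
      RingHom.map_adjugate (evalRingHom (0 : ℤ)) _
    rw [h10, Matrix.map_mul, h9, h11, h8, Matrix.adjugate_smul, Fintype.card_fin,
      Matrix.smul_mul, Matrix.trace_smul, smul_eq_mul]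

lemma lc_GZ_map {R S : Type*} [CommRing R] [CommRing S] (f : R →+* S) {n : ℕ}
    (a : Fin (n + 1) → ℤ) : (GZ R a).map f = GZ S a := by
  simp [gpol, Polynomial.map_sum]

lemma lc_core {n : ℕ} (a : Fin (n + 1) → ℤ) (δ : ℚ[X]) (l : ℕ)
    [hl : Fact l.Prime] (h2 : l ≠ 2) (hloc : MLoc a δ ℚ_[l])
    (h1 : (l : ℤ) ∣ (GZ ℤ a).eval 0) (h3 : ¬ (l : ℤ) ^ 2 ∣ (GZ ℤ a).eval 0)
    (h4 : ¬ (l : ℤ) ∣ (derivative (GZ ℤ a)).eval 0) :
    ∃ θ : ℤ_[l], ‖θ‖ < 1 ∧ (GZ ℚ_[l] a).eval (θ : ℚ_[l]) = 0 ∧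
      (derivative (GZ ℚ_[l] a)).eval (θ : ℚ_[l]) ≠ 0 ∧
      ∃ w : ℚ_[l], w ≠ 0 ∧ (δ.map (algebraMap ℚ ℚ_[l])).eval (θ : ℚ_[l]) = w ^ 2 := by
  have hp0 : (0 : ℝ) < l := by exact_mod_cast hl.out.pos
  have hp1 : (1 : ℝ) < l := by exact_mod_cast hl.out.one_lt
  set F := GZ ℤ_[l] a with hF
  have hFm : F = (GZ ℤ a).map (Int.castRingHom ℤ_[l]) := (lc_GZ_map _ a).symm
  have hFq : GZ ℚ_[l] a = F.map (PadicInt.Coe.ringHom (p := l)) := (lc_GZ_map _ a).symm
  have hF0 : F.eval 0 = (((GZ ℤ a).eval 0 : ℤ) : ℤ_[l]) := by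
    rw [hFm, eval_map, ← map_zero (Int.castRingHom ℤ_[l]), eval₂_at_apply]
    simp
  have hF1 : (derivative F).eval 0 = (((derivative (GZ ℤ a)).eval 0 : ℤ) : ℤ_[l]) := by
    rw [hFm, derivative_map, eval_map, ← map_zero (Int.castRingHom ℤ_[l]), eval₂_at_apply]
    simp
  have hn0 : ‖F.eval 0‖ < 1 := by
    rw [hF0]
    exact (PadicInt.norm_int_lt_one_iff_dvd _).mpr h1
  have hn1 : ‖(derivative F).eval 0‖ = 1 := by
    rw [hF1]
    have h5 : ¬ ‖(((derivative (GZ ℤ a)).eval 0 : ℤ) : ℤ_[l])‖ < 1 := fun h =>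
      h4 ((PadicInt.norm_int_lt_one_iff_dvd _).mp h)
    have h7 := (((derivative (GZ ℤ a)).eval 0 : ℤ) : ℤ_[l]).norm_le_one
    linarith [not_lt.mp h5]
  obtain ⟨θ, hθ, hθn, hθd, -⟩ := hensels_lemma (F := F) (a := (0 : ℤ_[l])) (by
    simp only [coe_aeval_eq_eval]
    rw [hn1]
    simpa using hn0)
  simp only [coe_aeval_eq_eval] at hθ hθn hθd
  rw [hn1, sub_zero] at hθn
  rw [hn1] at hθd
  have hcoe : ∀ (P : ℤ_[l][X]) (a : ℤ_[l]), (P.map (PadicInt.Coe.ringHom (p := l))).eval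
      (a : ℚ_[l]) = ((P.eval a : ℤ_[l]) : ℚ_[l]) := by
    intro P a
    have h5 : (a : ℚ_[l]) = PadicInt.Coe.ringHom (p := l) a := rfl
    rw [h5, eval_map, eval₂_at_apply]
    rfl
  have hroot : (GZ ℚ_[l] a).eval (θ : ℚ_[l]) = 0 := by
    rw [hFq, hcoe, hθ]
    rfl
  refine ⟨θ, hθn, hroot, ?_, ?_⟩
  · rw [hFq, derivative_map, hcoe]
    intro h0
    have h5 : (derivative F).eval θ = 0 := by
      apply Subtype.ext
      exact h0
    rw [h5, norm_zero] at hθd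
    exact zero_ne_one hθd
  · obtain ⟨x, y, s, hy, hxy, hdvd⟩ := hloc
    have hyn : ‖y‖ ^ 2 = ‖(GZ ℚ_[l] a).eval (x ^ 2)‖ := by
      rw [← hxy, norm_pow]
    have hx1 : 1 ≤ ‖x‖ := by
      by_contra hx
      push Not at hx
      obtain ⟨t, ht⟩ : (l : ℤ_[l]) ∣ (⟨x, hx.le⟩ : ℤ_[l]) :=
        (PadicInt.norm_lt_one_iff_dvd _).mp hx
      have hxt : x = ((l : ℤ_[l]) * t : ℤ_[l]) := by rw [← ht]
      set b : ℤ_[l] := ((l : ℤ_[l]) * t) ^ 2 with hb
      have hxa : x ^ 2 = (b : ℚ_[l]) := by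
        rw [hxt, hb]
        push_cast
        ring
      rw [hxa, hFq, hcoe] at hyn
      obtain ⟨r, hr⟩ := sub_dvd_eval_sub b 0 F
      have hl2 : ‖(l : ℤ_[l]) ^ 2‖ = (l : ℝ) ^ (-(2 : ℕ) : ℤ) := by
        rw [norm_pow, PadicInt.norm_p]
        rw [_root_.zpow_neg, zpow_natCast, inv_pow]
      have h5 : ‖F.eval b - F.eval 0‖ ≤ (l : ℝ) ^ (-(2 : ℕ) : ℤ) := by
        rw [hr, sub_zero, hb, mul_pow]
        have h6 : ((l : ℤ_[l]) ^ 2 * t ^ 2) * r =
          (l : ℤ_[l]) ^ 2 * (t ^ 2 * r) := by ring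
        rw [h6, norm_mul, hl2]
        have h7 := (t ^ 2 * r : ℤ_[l]).norm_le_one
        have h8 : (0 : ℝ) < (l : ℝ) ^ (-(2 : ℕ) : ℤ) := by positivity
        nlinarith
      have hlt : (l : ℝ) ^ (-(2 : ℕ) : ℤ) < 1 := by
        rw [_root_.zpow_neg, zpow_natCast]
        apply inv_lt_one_of_one_lt₀
        nlinarith
      have h9 : ‖y‖ ^ 2 < 1 := by
        rw [hyn, ← PadicInt.norm_def]
        have h10 : F.eval b = (F.eval b - F.eval 0) + F.eval 0 := by ring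
        rw [h10]
        refine lt_of_le_of_lt (PadicInt.nonarchimedean _ _) ?_
        exact max_lt (lt_of_le_of_lt h5 hlt) hn0
      have h11 : ‖y‖ ^ 2 ≤ (l : ℝ) ^ (-(2 : ℕ) : ℤ) := by
        have h12 : ‖y‖ < 1 := by
          by_contra h13
          push Not at h13
          nlinarith
        obtain ⟨q, hq⟩ : (l : ℤ_[l]) ∣ (⟨y, h12.le⟩ : ℤ_[l]) :=
          (PadicInt.norm_lt_one_iff_dvd _).mp h12
        have h14 : ‖y‖ = ‖(l : ℤ_[l]) * q‖ := by
          rw [← hq]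
          rfl
        rw [h14, ← norm_pow, mul_pow, norm_mul, hl2]
        have h7 := (q ^ 2 : ℤ_[l]).norm_le_one
        have h8 : (0 : ℝ) < (l : ℝ) ^ (-(2 : ℕ) : ℤ) := by positivity
        nlinarith
      apply h3
      have h15 : ‖F.eval 0‖ ≤ (l : ℝ) ^ (-(2 : ℕ) : ℤ) := by
        have h10 : F.eval 0 = F.eval b + -(F.eval b - F.eval 0) := by ring
        rw [h10]
        refine le_trans (PadicInt.nonarchimedean _ _) ?_
        rw [norm_neg]
        refine max_le ?_ h5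
        rw [PadicInt.norm_def, ← hyn]
        exact h11
      rw [hF0] at h15
      exact PadicInt.norm_int_le_pow_iff_dvd.mp h15
    have hx0 : x ≠ 0 := by
      intro h0
      rw [h0, norm_zero] at hx1
      linarith
    set u : ℚ_[l] := 1 - θ / x ^ 2 with hu
    have hu1 : ‖u - 1‖ < 1 := by
      have h5 : u - 1 = -(θ / x ^ 2) := by rw [hu]; ring
      rw [h5, norm_neg, norm_div, norm_pow]
      have h6 : ‖(θ : ℚ_[l])‖ < 1 := hθn
      have h7 : 1 ≤ ‖x‖ ^ 2 := by nlinarith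
      rw [div_lt_one (by linarith)]
      linarith
    have hu2 : ‖u‖ ≤ 1 := by
      have h5 : u = (u - 1) + 1 := by ring
      rw [h5]
      refine le_trans (Padic.nonarchimedean _ _) ?_
      rw [norm_one]
      exact max_le hu1.le le_rfl
    obtain ⟨z, hz⟩ := one_unit_sq l h2 ⟨u, hu2⟩ hu1
    have hz' : (z : ℚ_[l]) ^ 2 = u := by
      have h5 := congrArg (fun q : ℤ_[l] => (q : ℚ_[l])) hz
      simpa using h5
    have hu0 : u ≠ 0 := by
      intro h0
      rw [h0, zero_sub, norm_neg, norm_one] at hu1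
      exact lt_irrefl _ hu1
    have hz0 : (z : ℚ_[l]) ≠ 0 := by
      intro h0
      apply hu0
      rw [← hz', h0]
      ring
    have hkey : (x * z) ^ 2 =
        (δ.map (algebraMap ℚ ℚ_[l])).eval (θ : ℚ_[l]) * (s.eval (θ : ℚ_[l])) ^ 2 := by
      obtain ⟨r, hr⟩ := hdvd
      have h5 := congrArg (Polynomial.eval (θ : ℚ_[l])) hr
      rw [eval_mul, hroot, zero_mul] at h5
      simp only [eval_sub, eval_C, eval_X, eval_mul, eval_pow] at h5
      rw [mul_pow, hz', hu]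
      have h6 : x ^ 2 * (1 - θ / x ^ 2) = x ^ 2 - θ := by
        field_simp
      rw [h6]
      linear_combination h5
    have hs0 : s.eval (θ : ℚ_[l]) ≠ 0 := by
      intro h0
      rw [h0] at hkey
      have h5 : (x * z) ^ 2 ≠ 0 := pow_ne_zero _ (mul_ne_zero hx0 hz0)
      apply h5
      rw [hkey]
      ring
    refine ⟨x * z / s.eval (θ : ℚ_[l]), ?_, ?_⟩
    · exact div_ne_zero (mul_ne_zero hx0 hz0) hs0
    · rw [div_pow, eq_div_iff (pow_ne_zero _ hs0)]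
      exact hkey.symm

section mon

variable {K : Type*} [Field K] {n : ℕ}

lemma lc_coeff_top (a : Fin (n + 1) → ℤ) : (GZ K a).coeff n = (a 0 : K) := by
  have h0 : GZ K a = ∑ i : Fin (n + 1), C (a i : K) * X ^ (n - (i : ℕ)) := rfl
  rw [h0, finsetSum_coeff, Finset.sum_eq_single (0 : Fin (n + 1))]
  · simp
  · intro j _ hj
    have h1 : (j : ℕ) ≠ 0 := fun h => hj (Fin.ext h)
    have := j.isLt
    rw [coeff_C_mul, coeff_X_pow, if_neg (by omega), mul_zero]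
  · intro h
    exact absurd (Finset.mem_univ _) h

lemma lc_natDegree_le (a : Fin (n + 1) → ℤ) : (GZ K a).natDegree ≤ n := by
  apply natDegree_sum_le_of_forall_le
  intro i _
  refine (natDegree_C_mul_X_pow_le _ _).trans ?_
  omega

lemma lc_mon_monic (a : Fin (n + 1) → ℤ) (h : (a 0 : K) ≠ 0) :
    (mon K a).Monic ∧ (mon K a).natDegree = n := by
  have h1 : (mon K a).natDegree ≤ n := by
    unfold mon
    refine natDegree_C_mul_le _ _ |>.trans (lc_natDegree_le a)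
  have h2 : (mon K a).coeff n = 1 := by
    unfold mon
    rw [coeff_C_mul, lc_coeff_top, inv_mul_cancel₀ h]
  have h3 : (mon K a).Monic := monic_of_natDegree_le_of_coeff_eq_one n h1 h2
  refine ⟨h3, le_antisymm h1 ?_⟩
  apply le_natDegree_of_ne_zero
  rw [h2]
  exact one_ne_zero

lemma lc_hank_C_mul (F δ : K[X]) (r : K) : Hank n F (C r * δ) = r • Hank n F δ := by
  ext i j
  rw [Matrix.smul_apply, BG.LCond.hank_apply, BG.LCond.hank_apply, mul_assoc,
    BG.LCond.tau_C_mul, smul_eq_mul]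

end mon

end LCond

open LCond BG.LCond

theorem lcond {n : ℕ} (hn : 4 ≤ n) (he : Even n) (a : Fin (n + 1) → ℤ) (h0 : a 0 ≠ 0) (δ : ℚ[X])
    (hδ : IsCoprime δ (GZ ℚ a)) (l : ℕ) [hl : Fact l.Prime] (h2 : l ≠ 2)
    (hloc : MLoc a δ ℚ_[l]) (A B : Matrix (Fin n) (Fin n) ℤ) (h : IsPair a δ A B)
    (hdet : A.det = (-1) ^ (n / 2) * a 0) : ¬ Bad l A B := by
  rintro ⟨hB1, hB2, htr, hl', i, hi⟩
  obtain ⟨hc1, hc2⟩ := LCond.lc_char_coeffs _ A B (h.hasChar h0 hdet)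
  rw [eval_mul, eval_C] at hc1
  rw [derivative_C_mul, eval_mul, eval_C] at hc2
  have hsg : ∀ (k m : ℕ) (b c : ℤ), (-1 : ℤ) ^ k * b = (-1) ^ m * c →
      ∀ d : ℤ, d ∣ b ↔ d ∣ c := by
    intro k m b c hbc d
    have e1 : ∀ (k : ℕ) (b : ℤ), d ∣ (-1) ^ k * b ↔ d ∣ b := by
      intro k b
      rcases neg_one_pow_eq_or ℤ k with h | h <;> simp [h]
    rw [← e1 k b, hbc, e1]
  have h1 : (l : ℤ) ∣ (GZ ℤ a).eval 0 := (hsg _ _ _ _ hc1 _).mp hB1
  have h3 : ¬ (l : ℤ) ^ 2 ∣ (GZ ℤ a).eval 0 := fun h5 => hB2 ((hsg _ _ _ _ hc1 _).mpr h5)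
  have h4 : ¬ (l : ℤ) ∣ (derivative (GZ ℤ a)).eval 0 := fun h5 =>
    htr ((hsg _ _ _ _ hc2 _).mpr h5)
  obtain ⟨θ, hθn, hθ, hθd, w, hw0, hw⟩ := LCond.lc_core a δ l h2 hloc h1 h3 h4
  obtain ⟨G, hG, hA, hB⟩ := h
  -- over `ℚ_l`
  set φ : ℚ →+* ℚ_[l] := algebraMap ℚ ℚ_[l] with hφ
  have ha0 : ((a 0 : ℤ) : ℚ_[l]) ≠ 0 := by exact_mod_cast h0
  obtain ⟨hm1, hm2⟩ := lc_mon_monic (K := ℚ_[l]) a ha0
  have ha0q : ((a 0 : ℤ) : ℚ) ≠ 0 := by exact_mod_cast h0
  obtain ⟨hq1, hq2⟩ := lc_mon_monic (K := ℚ) a ha0q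
  have hmapF : (mon ℚ a).map φ = mon ℚ_[l] a := by
    unfold mon
    rw [Polynomial.map_mul, lc_GZ_map, Polynomial.map_C, map_inv₀, map_intCast]
  set δ' : ℚ_[l][X] := C ((a 0 : ℚ_[l])⁻¹) * δ.map φ with hδ'
  have hA' : A.map (Int.cast : ℤ → ℚ_[l]) =
      G.map φ * Hank n (mon ℚ_[l] a) δ' * (G.map φ)ᵀ := by
    have h5 : A.map (Int.cast : ℤ → ℚ_[l]) = (A.map (Int.cast : ℤ → ℚ)).map φ := by
      ext a b
      simp
    have h6 : ∀ (r : ℚ) (M : Matrix (Fin n) (Fin n) ℚ), (r • M).map φ = φ r • M.map φ := by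
      intro r M
      ext a b
      simp
    rw [h5, hA, h6, Matrix.map_mul, Matrix.map_mul, hδ', lc_hank_C_mul, ← hmapF,
      hank_map φ _ _ hq1, Matrix.transpose_map, Matrix.mul_smul, Matrix.smul_mul, map_inv₀,
      map_intCast]
  have hB' : B.map (Int.cast : ℤ → ℚ_[l]) =
      G.map φ * Hank n (mon ℚ_[l] a) (X * δ') * (G.map φ)ᵀ := by
    have h5 : B.map (Int.cast : ℤ → ℚ_[l]) = (B.map (Int.cast : ℤ → ℚ)).map φ := by
      ext a b
      simp
    have h6 : ∀ (r : ℚ) (M : Matrix (Fin n) (Fin n) ℚ), (r • M).map φ = φ r • M.map φ := by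
      intro r M
      ext a b
      simp
    have h7 : X * δ' = C ((a 0 : ℚ_[l])⁻¹) * (X * δ).map φ := by
      rw [hδ', Polynomial.map_mul, Polynomial.map_X]
      ring
    rw [h5, hB, h6, Matrix.map_mul, Matrix.map_mul, h7, lc_hank_C_mul, ← hmapF,
      hank_map φ _ _ hq1, Matrix.transpose_map, Matrix.mul_smul, Matrix.smul_mul, map_inv₀,
      map_intCast]
  have hGd : (G.map φ).det ≠ 0 := by
    rw [← RingHom.mapMatrix_apply, ← RingHom.map_det]
    exact (map_ne_zero φ).mpr hG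
  have hθm : (mon ℚ_[l] a).eval (θ : ℚ_[l]) = 0 := by
    unfold mon
    rw [eval_mul, hθ, mul_zero]
  have hθdm : (derivative (mon ℚ_[l] a)).eval (θ : ℚ_[l]) ≠ 0 := by
    unfold mon
    rw [derivative_C_mul, eval_mul, eval_C]
    exact mul_ne_zero (inv_ne_zero ha0) hθd
  obtain ⟨r, hr⟩ := adj_square (mon ℚ_[l] a) δ' hm1 hm2 (θ : ℚ_[l])
    hθm hθdm (G.map φ) hGd _ _ hA' hB' i
  have hδ0 : δ'.eval (θ : ℚ_[l]) = (a 0 : ℚ_[l])⁻¹ * w ^ 2 := by
    rw [hδ', eval_mul, eval_C, hw]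
  -- the integral element
  set N : Matrix (Fin n) (Fin n) ℤ_[l] := θ • A.map (Int.cast : ℤ → ℤ_[l]) -
    B.map (Int.cast : ℤ → ℤ_[l]) with hN
  have h6 : (A.map (Int.cast : ℤ → ℚ_[l])).det = (-1) ^ (n / 2) * (a 0 : ℚ_[l]) := by
    have h7 := RingHom.map_det (Int.castRingHom ℚ_[l]) A
    rw [RingHom.mapMatrix_apply, hdet] at h7
    simpa using h7.symm
  have hNc : (((-1) ^ (n / 2) * N.adjugate i i : ℤ_[l]) : ℚ_[l]) =
      (-1) ^ (n / 2) * ((θ : ℚ_[l]) • A.map (Int.cast : ℤ → ℚ_[l]) -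
        B.map (Int.cast : ℤ → ℚ_[l])).adjugate i i := by
    have h5 : N.map (PadicInt.Coe.ringHom (p := l)) =
        (θ : ℚ_[l]) • A.map (Int.cast : ℤ → ℚ_[l]) - B.map (Int.cast : ℤ → ℚ_[l]) := by
      ext a b
      rw [hN]
      simp only [Matrix.map_apply, Matrix.sub_apply, Matrix.smul_apply, smul_eq_mul, map_sub,
        map_mul, map_intCast]
      rfl
    rw [← h5, ← RingHom.mapMatrix_apply, ← RingHom.map_adjugate, RingHom.mapMatrix_apply,
      Matrix.map_apply, PadicInt.coe_mul]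
    congr 1
  have hsq : IsSquare (((-1) ^ (n / 2) * N.adjugate i i : ℤ_[l]) : ℚ_[l]) := by
    rw [hNc]
    refine ⟨r / w, ?_⟩
    rw [div_mul_div_comm, ← hr, h6, hδ0, eq_div_iff (mul_ne_zero hw0 hw0)]
    field_simp
  apply not_neg_one l ((-1) ^ (n / 2 + 1) * B.adjugate i i) _ hsq _ hi
  have hθ0 : PadicInt.toZMod θ = 0 := by
    rw [← RingHom.mem_ker, PadicInt.ker_toZMod]
    rw [IsLocalRing.mem_maximalIdeal, mem_nonunits_iff, PadicInt.isUnit_iff]
    exact ne_of_lt hθn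
  have h5 : N.map (PadicInt.toZMod (p := l)) = ((-1 : ℤ) • B).map (Int.castRingHom (ZMod l)) := by
    ext a b
    rw [hN]
    simp only [Matrix.map_apply, Matrix.sub_apply, Matrix.smul_apply, smul_eq_mul, map_sub,
      map_mul, map_intCast, hθ0, zero_mul, zero_sub]
    simp
  have h7 : PadicInt.toZMod (N.adjugate i i) =
      (((-1 : ℤ) • B).adjugate i i : ℤ) := by
    have h8 : PadicInt.toZMod (N.adjugate i i) = (N.map (PadicInt.toZMod (p := l))).adjugate i i := by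
      rw [← RingHom.mapMatrix_apply, ← RingHom.map_adjugate, RingHom.mapMatrix_apply,
        Matrix.map_apply]
    rw [h8, h5, ← RingHom.mapMatrix_apply, ← RingHom.map_adjugate, RingHom.mapMatrix_apply,
      Matrix.map_apply]
    rfl
  rw [map_mul, h7, Matrix.adjugate_smul, Fintype.card_fin, map_pow, map_neg, map_one]
  have h9 : (-1 : ℤ) ^ (n - 1) = -1 := by
    apply Odd.neg_one_pow
    obtain ⟨k, hk⟩ := he
    exact ⟨k - 1, by omega⟩
  rw [h9]
  simp only [Matrix.smul_apply, smul_eq_mul]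
  push_cast
  ring

end Stoll308.BF
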