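import Pool.Agent.Work.MP_308fa9_nt.BF.Basic
import Pool.Agent.Work.MP_308fa9_nt.BG.HankL
import Pool.Agent.Work.MP_308fa9_nt.BG.LocLat

set_option autoImplicit false

/-!
The local lattice, `n` even.
-/

namespace Stoll308.BF

open Polynomial Finset Matrix BG

namespace LocLat

open BG.LocLat

section ring

variable {R : Type*} [CommRing R]

lemma coeff_div [Nontrivial R] (f : R[X]) (m j : ℕ) : (f /ₘ X ^ m).coeff j = f.coeff (m + j) := by
  have h1 := modByMonic_add_div f (X ^ m : R[X])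
  have h2 := congrArg (fun q : R[X] => q.coeff (m + j)) h1
  simp only [coeff_add] at h2
  have h3 : (f %ₘ X ^ m).coeff (m + j) = 0 := by
    apply coeff_eq_zero_of_degree_lt
    refine (degree_modByMonic_lt f (monic_X_pow m)).trans_le ?_
    rw [degree_X_pow]
    exact_mod_cast Nat.le_add_right m j
  rw [h3, zero_add, add_comm m j, coeff_X_pow_mul] at h2
  rw [h2, add_comm]

/-- The Horner polynomial `a₀ X^i + ... + a_i` of `f` (of degree at most `n`). -/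
noncomputable def hor (n : ℕ) (f : R[X]) (i : ℕ) : R[X] := f /ₘ X ^ (n - i)

lemma hor_coeff [Nontrivial R] (n : ℕ) (f : R[X]) (i j : ℕ) :
    (hor n f i).coeff j = f.coeff (n - i + j) := coeff_div _ _ _

lemma hor_top [Nontrivial R] {n : ℕ} {f : R[X]} (hf : f.natDegree ≤ n) {i j : ℕ} (hi : i ≤ n)
    (hij : i < j) : (hor n f i).coeff j = 0 := by
  rw [hor_coeff]
  exact coeff_eq_zero_of_natDegree_lt (by omega)

lemma hor_succ [Nontrivial R] {n : ℕ} (f : R[X]) {i : ℕ} (hi : i < n) :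
    hor n f (i + 1) = X * hor n f i + C (f.coeff (n - i - 1)) := by
  ext j
  rcases j with _ | j
  · rw [hor_coeff, coeff_add, coeff_C_zero, mul_coeff_zero, coeff_X_zero, zero_mul, zero_add]
    congr 1
  · rw [hor_coeff, coeff_add, coeff_X_mul, coeff_C_succ, add_zero, hor_coeff]
    congr 1
    omega

lemma hor_zero [Nontrivial R] {n : ℕ} {f : R[X]} (hf : f.natDegree ≤ n) :
    hor n f 0 = C (f.coeff n) := by
  ext j
  rcases j with _ | j
  · rw [hor_coeff, coeff_C_zero]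
    rfl
  · rw [hor_top hf (Nat.zero_le n) (Nat.succ_pos j), coeff_C_succ]

lemma hor_n [Nontrivial R] {n : ℕ} (f : R[X]) : hor n f n = f := by
  ext j
  rw [hor_coeff, Nat.sub_self, zero_add]

/-- The quotient of `f - f(ξ)` by `X - ξ`. -/
noncomputable def quo (n : ℕ) (f : R[X]) (ξ : R) (j : ℕ) : R[X] :=
  ∑ r ∈ range j, C (ξ ^ (j - 1 - r)) * hor n f r

lemma quo_succ (n : ℕ) (f : R[X]) (ξ : R) (j : ℕ) :
    quo n f ξ (j + 1) = C ξ * quo n f ξ j + hor n f j := by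
  unfold quo
  rw [Finset.sum_range_succ, Finset.mul_sum]
  congr 1
  · refine Finset.sum_congr rfl fun r hr => ?_
    rw [Finset.mem_range] at hr
    rw [← mul_assoc, ← C_mul, ← pow_succ']
    congr 3
    omega
  · simp

lemma quo_mul [Nontrivial R] {n : ℕ} {f : R[X]} (hf : f.natDegree ≤ n) (ξ : R) :
    ∀ j ≤ n, (C ξ - X) * quo n f ξ j = C ((hor n f j).eval ξ) - hor n f j
  | 0, _ => by
    rw [hor_zero hf]
    simp [quo]
  | j + 1, hj => by
    rw [quo_succ, hor_succ f (by omega)]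
    have h := quo_mul hf ξ j (by omega)
    simp only [eval_add, eval_mul, eval_X, eval_C, C_add, C_mul]
    linear_combination (C ξ) * h

lemma quo_coeff_top [Nontrivial R] {n : ℕ} (hn : 1 ≤ n) {f : R[X]} (hf : f.natDegree ≤ n) (ξ : R) :
    (quo n f ξ n).coeff (n - 1) = f.coeff n := by
  unfold quo
  rw [finsetSum_coeff, Finset.sum_eq_single (n - 1)]
  · rw [Nat.sub_self, pow_zero, C_1, one_mul, hor_coeff]
    congr 1
    omega
  · intro r hr hr2
    rw [Finset.mem_range] at hr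
    rw [coeff_C_mul, hor_top hf (by omega) (by omega), mul_zero]
  · intro h
    exact absurd (Finset.mem_range.mpr (by omega)) h

lemma natDegree_le_of_coeff {q : R[X]} {m : ℕ} (h : ∀ j, m < j → q.coeff j = 0) :
    q.natDegree ≤ m := natDegree_le_iff_coeff_eq_zero.mpr h

lemma quo_natDegree [Nontrivial R] {n : ℕ} {f : R[X]} (hf : f.natDegree ≤ n) (ξ : R) :
    (quo n f ξ n).natDegree ≤ n - 1 := by
  refine natDegree_le_of_coeff fun j hj => ?_
  unfold quo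
  rw [finsetSum_coeff]
  refine Finset.sum_eq_zero fun r hr => ?_
  rw [Finset.mem_range] at hr
  rw [coeff_C_mul, hor_top hf (by omega) (by omega), mul_zero]

/-- The basis polynomials. -/
noncomputable def bas (n e : ℕ) (f : R[X]) (l : ℕ) : R[X] :=
  if l ≤ e then X ^ l else X ^ e * hor n f (l - e)

lemma bas_coeff_gt [Nontrivial R] {n e : ℕ} {f : R[X]} (hf : f.natDegree ≤ n) {l j : ℕ}
    (hl : l ≤ n) (hj : l < j) : (bas n e f l).coeff j = 0 := by
  unfold bas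
  split_ifs with h
  · rw [coeff_X_pow, if_neg (by omega)]
  · obtain ⟨i, rfl⟩ : ∃ i, j = i + e := ⟨j - e, by omega⟩
    rw [coeff_X_pow_mul]
    exact hor_top hf (by omega) (by omega)

lemma bas_coeff_diag [Nontrivial R] {n e : ℕ} {f : R[X]} {l : ℕ} (hl : l ≤ n) :
    (bas n e f l).coeff l = if l ≤ e then 1 else f.coeff n := by
  unfold bas
  split_ifs with h
  · rw [coeff_X_pow, if_pos rfl]
  · obtain ⟨i, rfl⟩ : ∃ i, l = i + e := ⟨l - e, by omega⟩
    rw [coeff_X_pow_mul, hor_coeff]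
    congr 1
    omega

/-- For `l > e`, `bas l` is the Horner polynomial up to terms of degree less than `e`. -/
lemma bas_coeff_eq [Nontrivial R] {n e : ℕ} {f : R[X]} {l j : ℕ} (hl : l ≤ n) (hle : e < l)
    (hj : e < j) : (bas n e f l).coeff j = (hor n f l).coeff j := by
  unfold bas
  rw [if_neg (by omega)]
  obtain ⟨i, rfl⟩ : ∃ i, j = i + e := ⟨j - e, by omega⟩
  rw [coeff_X_pow_mul, hor_coeff, hor_coeff]
  congr 1
  omega

/-- Expansion of a combination of `quo` and a polynomial of small degree in the basis. -/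
lemma expand [Nontrivial R] {n e : ℕ} (hen : e < n) {f : R[X]} (hf : f.natDegree ≤ n) (ξ α : R)
    (h : R[X]) (hh : h.natDegree ≤ e) :
    ∃ c : Fin n → R, C α * quo n f ξ n + h = ∑ k : Fin n, C (c k) * bas n e f k ∧
      ∀ k : Fin n, e < (k : ℕ) → c k = α * ξ ^ (n - 1 - (k : ℕ)) := by
  set U := C α * quo n f ξ n + h with hU
  set W : R[X] := ∑ k : Fin n, if (k : ℕ) ≤ e then 0 else
    C (α * ξ ^ (n - 1 - (k : ℕ))) * bas n e f k with hW
  have hdeg : (U - W).natDegree ≤ e := by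
    refine natDegree_le_of_coeff fun j hj => ?_
    rw [coeff_sub, hU, coeff_add, coeff_C_mul,
      coeff_eq_zero_of_natDegree_lt (lt_of_le_of_lt hh hj), add_zero, hW, finsetSum_coeff]
    unfold quo
    rw [finsetSum_coeff, Finset.mul_sum, ← Fin.sum_univ_eq_sum_range
      (fun r => α * (C (ξ ^ (n - 1 - r)) * hor n f r).coeff j) n, ← Finset.sum_sub_distrib]
    refine Finset.sum_eq_zero fun k _ => ?_
    have hk := k.isLt
    split_ifs with hke
    · rw [coeff_C_mul, hor_top hf (by omega) (by omega)]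
      simp
    · rw [coeff_C_mul, coeff_C_mul, bas_coeff_eq (by omega) (by omega) hj]
      ring
  refine ⟨fun k => if (k : ℕ) ≤ e then (U - W).coeff k else α * ξ ^ (n - 1 - (k : ℕ)), ?_, ?_⟩
  · have h1 : U - W = ∑ k : Fin n, if (k : ℕ) ≤ e then C ((U - W).coeff k) * X ^ (k : ℕ)
        else 0 := by
      conv_lhs => rw [(U - W).as_sum_range_C_mul_X_pow' (show (U - W).natDegree < n by omega)]
      rw [← Fin.sum_univ_eq_sum_range (fun k => C ((U - W).coeff k) * X ^ k) n]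
      refine Finset.sum_congr rfl fun k _ => ?_
      split_ifs with hk
      · rfl
      · rw [coeff_eq_zero_of_natDegree_lt (by omega), C_0, zero_mul]
    calc U = (U - W) + W := by ring
      _ = (∑ k : Fin n, if (k : ℕ) ≤ e then C ((U - W).coeff k) * X ^ (k : ℕ) else 0) + W :=
        congrArg (fun q => q + W) h1
      _ = (∑ k : Fin n, if (k : ℕ) ≤ e then C ((U - W).coeff k) * X ^ (k : ℕ) else 0) +
          ∑ k : Fin n, (if (k : ℕ) ≤ e then 0 else
            C (α * ξ ^ (n - 1 - (k : ℕ))) * bas n e f k) := by rw [hW]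
      _ = _ := by
        rw [← Finset.sum_add_distrib]
        refine Finset.sum_congr rfl fun k _ => ?_
        split_ifs with hk
        · rw [add_zero, bas, if_pos hk]
          simp only [if_pos hk]
        · rw [zero_add]
          simp only [if_neg hk]
  · intro k hk
    simp only
    rw [if_neg (by omega)]

end ring

section mon

lemma GZ_map {R S : Type*} [CommRing R] [CommRing S] (φ : R →+* S) {n : ℕ}
    (a : Fin (n + 1) → ℤ) : (GZ R a).map φ = GZ S a := by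
  simp [gpol, Polynomial.map_sum]

lemma GZ_natDegree_le {R : Type*} [CommRing R] {n : ℕ} (a : Fin (n + 1) → ℤ) :
    (GZ R a).natDegree ≤ n := by
  refine natDegree_sum_le_of_forall_le _ _ fun i _ => ?_
  exact (natDegree_C_mul_X_pow_le _ _).trans (Nat.sub_le _ _)

lemma GZ_coeff_top {R : Type*} [CommRing R] {n : ℕ} (a : Fin (n + 1) → ℤ) :
    (GZ R a).coeff n = a 0 := by
  unfold GZ gpol
  rw [finsetSum_coeff, Finset.sum_eq_single 0]
  · simp
  · intro b _ hb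
    have h1 : (b : ℕ) ≠ 0 := fun h => hb (Fin.ext h)
    have h2 := b.isLt
    rw [coeff_C_mul, coeff_X_pow, if_neg (by omega), mul_zero]
  · intro h
    exact absurd (Finset.mem_univ _) h

variable {K : Type*} [Field K] {n : ℕ} (a : Fin (n + 1) → ℤ)

lemma mon_monic (h : (a 0 : K) ≠ 0) : (mon K a).Monic := by
  refine monic_of_natDegree_le_of_coeff_eq_one n ?_ ?_
  · exact (natDegree_C_mul_le _ _).trans (GZ_natDegree_le a)
  · unfold mon
    rw [coeff_C_mul, GZ_coeff_top, inv_mul_cancel₀ h]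

lemma mon_natDegree (h : (a 0 : K) ≠ 0) : (mon K a).natDegree = n := by
  refine le_antisymm ((natDegree_C_mul_le _ _).trans (GZ_natDegree_le a)) ?_
  apply le_natDegree_of_ne_zero
  unfold mon
  rw [coeff_C_mul, GZ_coeff_top, inv_mul_cancel₀ h]
  exact one_ne_zero

lemma GZ_eq (h : (a 0 : K) ≠ 0) : GZ K a = C (a 0 : K) * mon K a := by
  unfold mon
  rw [← mul_assoc, ← C_mul, mul_inv_cancel₀ h, C_1, one_mul]

/-- The functional `μ ↦ [θ^(n-1)] μ / a₀`. -/
noncomputable def tauf (μ : K[X]) : K := (a 0 : K)⁻¹ * tau n (mon K a) μ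

lemma tauf_C_mul (c : K) (μ : K[X]) : tauf a (C c * μ) = c * tauf a μ := by
  unfold tauf
  rw [← smul_eq_C_mul, map_smul, smul_eq_mul]
  ring

lemma tauf_add (μ ν : K[X]) : tauf a (μ + ν) = tauf a μ + tauf a ν := by
  unfold tauf
  rw [map_add, mul_add]

lemma tauf_mul (h : (a 0 : K) ≠ 0) (q : K[X]) : tauf a (GZ K a * q) = 0 := by
  unfold tauf
  rw [GZ_eq a h, tau_apply, (modByMonic_eq_zero_iff_dvd (mon_monic a h)).mpr, coeff_zero, mul_zero]
  exact ⟨C (a 0 : K) * q, by ring⟩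

lemma tauf_small (h : (a 0 : K) ≠ 0) {μ : K[X]} (hμ : μ.natDegree < n) :
    tauf a μ = (a 0 : K)⁻¹ * μ.coeff (n - 1) := by
  unfold tauf
  rw [tau_apply, (modByMonic_eq_self_iff (mon_monic a h)).mpr]
  rw [degree_eq_natDegree (mon_monic a h).ne_zero, mon_natDegree a h]
  refine lt_of_le_of_lt degree_le_natDegree ?_
  exact_mod_cast hμ

/-- `τ(θ^m g) = ξ^m`. -/
lemma tauf_pow_quo (hn : 1 ≤ n) (h : (a 0 : K) ≠ 0) (ξ : K) {m : ℕ} (hm : m + 1 ≤ n) :
    tauf a (X ^ m * quo n (GZ K a) ξ n) = ξ ^ m := by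
  have hq := quo_mul (GZ_natDegree_le a) ξ n le_rfl
  rw [hor_n] at hq
  set g := quo n (GZ K a) ξ n with hg
  have h1 := geom_sum₂_mul (X : K[X]) (C ξ) m
  set hm' : K[X] := ∑ i ∈ range m, X ^ i * C ξ ^ (m - 1 - i) with hhm
  have h2 : X ^ m * g = C (ξ ^ m) * g + (GZ K a * hm' + C (-(GZ K a).eval ξ) * hm') := by
    rw [C_neg, C_pow]
    linear_combination (-g) * h1 - hm' * hq
  have h3 : hm'.natDegree < n - 1 ∨ hm' = 0 := by
    rcases Nat.eq_zero_or_pos m with rfl | hm0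
    · right
      simp [hhm]
    · left
      refine lt_of_le_of_lt (b := m - 1) ?_ (by omega)
      rw [hhm]
      refine natDegree_sum_le_of_forall_le _ _ fun i hi => ?_
      rw [Finset.mem_range] at hi
      rw [← C_pow, mul_comm]
      exact (natDegree_C_mul_X_pow_le _ _).trans (by omega)
  have h4 : tauf a hm' = 0 := by
    rcases h3 with h3 | h3
    · rw [tauf_small a h (by omega), coeff_eq_zero_of_natDegree_lt h3, mul_zero]
    · rw [h3]
      unfold tauf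
      rw [map_zero, mul_zero]
  rw [h2, tauf_add, tauf_add, tauf_mul a h, tauf_C_mul, tauf_C_mul, h4,
    tauf_small a h (lt_of_le_of_lt (quo_natDegree (GZ_natDegree_le a) ξ) (by omega)),
    quo_coeff_top hn (GZ_natDegree_le a), GZ_coeff_top, inv_mul_cancel₀ h]
  ring

end mon

section padic

variable {p : ℕ} [Fact p.Prime] {n : ℕ} (a : Fin (n + 1) → ℤ)

/-- The elements of `ℤ_p[θ] ∩ θ^k ℤ_p[1/θ]`. -/
def Jk (k : ℕ) (μ : ℚ_[p][X]) : Prop :=
  ∃ (N : ℕ) (P Q h : ℤ_[p][X]), 1 ≤ N ∧ Q.natDegree ≤ N ∧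
    X ^ N * P = X ^ k * Q + GZ ℤ_[p] a * h ∧ P.map (algebraMap ℤ_[p] ℚ_[p]) = μ

variable {a}

lemma Jk.mul {k l : ℕ} {μ ν : ℚ_[p][X]} (h : Jk a k μ) (h' : Jk a l ν) :
    Jk a (k + l) (μ * ν) := by
  obtain ⟨N, P, Q, t, h1, h2, h3, h4⟩ := h
  obtain ⟨N', P', Q', t', h1', h2', h3', h4'⟩ := h'
  refine ⟨N + N', P * P', Q * Q', t * (X ^ l * Q') + X ^ k * Q * t' + GZ ℤ_[p] a * t * t',
    by omega, ?_, ?_, ?_⟩
  · exact natDegree_mul_le.trans (by omega)
  · rw [pow_add, pow_add]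
    linear_combination (X ^ N' * P') * h3 + (X ^ k * Q + GZ ℤ_[p] a * t) * h3'
  · rw [Polynomial.map_mul, h4, h4']

lemma Jk_lin {c d : ℚ_[p]} (hc : ‖c‖ ≤ 1) (hd : ‖d‖ ≤ 1) : Jk a 1 (C c + C d * X) := by
  obtain ⟨c', rfl⟩ : ∃ c' : ℤ_[p], (c' : ℚ_[p]) = c := ⟨⟨c, hc⟩, rfl⟩
  obtain ⟨d', rfl⟩ : ∃ d' : ℤ_[p], (d' : ℚ_[p]) = d := ⟨⟨d, hd⟩, rfl⟩
  refine ⟨1, C c' + C d' * X, C c' + C d' * X, 0, le_rfl, ?_, by ring, ?_⟩
  · compute_degree
  · rw [Polynomial.map_add, Polynomial.map_mul, map_C, map_C, map_X]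
    rfl

lemma Jk_C {c : ℚ_[p]} (hc : ‖c‖ ≤ 1) : Jk a 0 (C c) := by
  obtain ⟨c', rfl⟩ : ∃ c' : ℤ_[p], (c' : ℚ_[p]) = c := ⟨⟨c, hc⟩, rfl⟩
  refine ⟨1, C c', C c' * X, 0, le_rfl, ?_, by ring, ?_⟩
  · compute_degree
  · rw [map_C]
    rfl

lemma Jk_X_pow {j k : ℕ} (hj : j ≤ k) : Jk a k (X ^ j : ℚ_[p][X]) := by
  obtain ⟨i, rfl⟩ : ∃ i, k = j + i := ⟨k - j, by omega⟩
  refine ⟨i + 1, X ^ j, X, 0, by omega, natDegree_X_le.trans (by omega), ?_, by simp⟩
  ring

lemma Jk_hor {i : ℕ} (hi : i < n) : Jk a 0 (hor n (GZ ℚ_[p] a) i) := by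
  have h1 := modByMonic_add_div (GZ ℤ_[p] a) (X ^ (n - i) : ℤ_[p][X])
  refine ⟨n - i, hor n (GZ ℤ_[p] a) i, -(GZ ℤ_[p] a %ₘ X ^ (n - i)), 1, by omega, ?_, ?_, ?_⟩
  · rw [natDegree_neg]
    have h2 := natDegree_modByMonic_le (GZ ℤ_[p] a) (monic_X_pow (R := ℤ_[p]) (n - i))
    rwa [natDegree_X_pow] at h2
  · unfold hor
    linear_combination h1
  · unfold hor
    rw [Polynomial.map_divByMonic _ (monic_X_pow _), GZ_map, Polynomial.map_pow, map_X]

lemma Jk_bas {e l : ℕ} (hl : l < n) : Jk a e (bas n e (GZ ℚ_[p] a) l) := by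
  unfold bas
  split_ifs with h
  · exact Jk_X_pow h
  · have h1 : Jk a e (X ^ e : ℚ_[p][X]) := Jk_X_pow le_rfl
    have h2 : Jk a 0 (hor n (GZ ℚ_[p] a) (l - e)) := Jk_hor (by omega)
    have h3 := h1.mul h2
    rwa [add_zero] at h3

lemma Jk.le {k : ℕ} (hk : k + 2 ≤ n) (h0 : (a 0 : ℚ_[p]) ≠ 0) {μ : ℚ_[p][X]} (h : Jk a k μ) :
    ‖tauf a μ‖ ≤ 1 := by
  obtain ⟨N, P, Q, t, h1, h2, h3, h4⟩ := h
  set F := mon ℚ_[p] a with hF
  have hFm : F.Monic := mon_monic a h0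
  have hFn : F.natDegree = n := mon_natDegree a h0
  set Q' := Q.map (algebraMap ℤ_[p] ℚ_[p]) with hQ'
  set t' := t.map (algebraMap ℤ_[p] ℚ_[p]) with ht'
  have h5 : X ^ N * μ = X ^ k * Q' + C (a 0 : ℚ_[p]) * F * t' := by
    have h := congrArg (Polynomial.map (algebraMap ℤ_[p] ℚ_[p])) h3
    rw [Polynomial.map_mul, Polynomial.map_add, Polynomial.map_mul, Polynomial.map_mul,
      Polynomial.map_pow, Polynomial.map_pow, map_X, GZ_map, h4, GZ_eq a h0] at h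
    exact h
  have hQ : Q'.natDegree ≤ N := (natDegree_map_le).trans h2
  have h6 := modByMonic_add_div μ F
  set r := μ %ₘ F with hr
  set q := μ /ₘ F with hq
  set w := C (a 0 : ℚ_[p]) * t' - X ^ N * q with hw
  have h7 : F * w = X ^ N * r - X ^ k * Q' := by
    rw [hw]
    linear_combination -h5 - X ^ N * h6
  have hrn : r.natDegree ≤ n - 1 := by
    have h8 := natDegree_modByMonic_lt μ hFm (by
      intro h
      rw [h, natDegree_one] at hFn
      omega)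
    rw [← hr, hFn] at h8
    omega
  have hwn : w.natDegree ≤ N - 1 := by
    rcases eq_or_ne w 0 with hw0 | hw0
    · rw [hw0, natDegree_zero]
      omega
    · have h8 : (F * w).natDegree = n + w.natDegree := by
        rw [hFm.natDegree_mul' hw0, hFn]
      have h9 : (X ^ N * r - X ^ k * Q').natDegree ≤ N + (n - 1) := by
        refine (natDegree_sub_le _ _).trans (max_le ?_ ?_)
        · exact natDegree_mul_le_of_le (natDegree_X_pow_le _) hrn
        · exact (natDegree_mul_le_of_le (natDegree_X_pow_le _) hQ).trans (by omega)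
      rw [← h7, h8] at h9
      omega
  have h8 : (F * w).coeff (n + (N - 1)) = w.coeff (N - 1) := by
    rw [coeff_mul_add_eq_of_natDegree_le hFn.le hwn]
    have : F.coeff n = 1 := by
      rw [← hFn]
      exact hFm.coeff_natDegree
    rw [this, one_mul]
  have h9 : (X ^ N * r - X ^ k * Q').coeff (n + (N - 1)) = r.coeff (n - 1) := by
    rw [coeff_sub]
    have e1 : n + (N - 1) = (n - 1) + N := by omega
    have e2 : (X ^ k * Q').coeff (n + (N - 1)) = 0 := by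
      apply coeff_eq_zero_of_natDegree_lt
      exact lt_of_le_of_lt (natDegree_mul_le_of_le (natDegree_X_pow_le _) hQ) (by omega)
    rw [e2, e1, coeff_X_pow_mul, sub_zero]
  have h10 : w.coeff (N - 1) = (a 0 : ℚ_[p]) * t'.coeff (N - 1) := by
    rw [hw, coeff_sub, coeff_C_mul, coeff_X_pow_mul', if_neg (by omega), sub_zero]
  have h11 : tauf a μ = t'.coeff (N - 1) := by
    unfold tauf
    rw [tau_apply, ← hF, ← hr, ← h9, ← h7, h8, h10, ← mul_assoc, inv_mul_cancel₀ h0, one_mul]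
  rw [h11, ht', coeff_map]
  exact PadicInt.norm_le_one _

/-- The matrix with the coefficients of the polynomials `b i` as rows. -/
def mat {K : Type*} [Field K] {n : ℕ} (b : Fin n → K[X]) : Matrix (Fin n) (Fin n) K :=
  fun i j => (b i).coeff j

lemma rowP_mat {K : Type*} [Field K] {n : ℕ} (b : Fin n → K[X]) (i : Fin n)
    (h : (b i).natDegree < n) : rowP (mat b) i = b i := by
  unfold rowP mat
  conv_rhs => rw [(b i).as_sum_range_C_mul_X_pow' h]
  rw [← Fin.sum_univ_eq_sum_range (fun k => C ((b i).coeff k) * X ^ k) n]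

lemma det_rep {K : Type*} [Field K] {n : ℕ} (b : Fin n → K[X]) (r : Fin n) (c : Fin n → K) :
    (mat (Function.update b r (∑ k, C (c k) * b k))).det = c r * (mat b).det := by
  have h : mat (Function.update b r (∑ k, C (c k) * b k)) =
      (mat b).updateRow r (∑ k, c k • (mat b) k) := by
    ext i j
    rcases eq_or_ne i r with rfl | hi
    · rw [Matrix.updateRow_self]
      unfold mat
      rw [Function.update_self, finsetSum_coeff, Finset.sum_apply]
      refine Finset.sum_congr rfl fun k _ => ?_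
      rw [coeff_C_mul, Pi.smul_apply, smul_eq_mul]
    · rw [Matrix.updateRow_ne hi]
      unfold mat
      rw [Function.update_of_ne hi]
  rw [h, Matrix.det_updateRow_sum, smul_eq_mul]

lemma det_bas {K : Type*} [Field K] {n e : ℕ} (hen : e < n) {f : K[X]} (hf : f.natDegree ≤ n) :
    (mat (fun i : Fin n => bas n e f i)).det = f.coeff n ^ (n - 1 - e) := by
  have htri : (mat (fun i : Fin n => bas n e f i)).BlockTriangular OrderDual.toDual := by
    intro i j hij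
    have hij' : i < j := hij
    have hi := i.isLt
    exact bas_coeff_gt hf (by omega) hij'
  rw [Matrix.det_of_isLowerTriangular _ htri]
  have h1 : ∀ i : Fin n, mat (fun i : Fin n => bas n e f i) i i =
      (fun l : ℕ => if l ≤ e then (1 : K) else f.coeff n) i := by
    intro i
    have hi := i.isLt
    exact bas_coeff_diag (by omega)
  rw [Finset.prod_congr rfl fun i _ => h1 i,
    Fin.prod_univ_eq_prod_range (fun l : ℕ => if l ≤ e then (1 : K) else f.coeff n) n]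
  obtain ⟨d, rfl⟩ : ∃ d, n = (e + 1) + d := ⟨n - (e + 1), by omega⟩
  rw [Finset.prod_range_add, Finset.prod_eq_one, one_mul, Finset.prod_congr rfl
    (g := fun _ => f.coeff (e + 1 + d)), Finset.prod_const, Finset.card_range]
  · congr 1
    omega
  · intro x _
    rw [if_neg (by omega)]
  · intro x hx
    rw [Finset.mem_range] at hx
    rw [if_pos (by omega)]

lemma core {e : ℕ} (hne : n = 2 * e + 4) (h0 : (a 0 : ℚ_[p]) ≠ 0) (ξ y β ρ : ℚ_[p]) (hy : y ≠ 0)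
    (hf : (GZ ℚ_[p] a).eval ξ = y ^ 2) (m : ℕ) (hm : m ≤ e + 1) (r : Fin n) (hr : e < (r : ℕ))
    (h1 : ‖ρ ^ 2 * ξ‖ ≤ 1) (h2 : ‖ρ ^ 2‖ ≤ 1) (h3 : ‖ρ * β * y ^ 2‖ ≤ 1)
    (h4 : ∀ k ≤ 1, ‖β ^ 2 * y ^ 2 * ξ ^ (k + 2 * m)‖ ≤ 1)
    (h6 : ‖ρ‖ ^ (n - 1) * ‖β‖ * ‖ξ‖ ^ (m + (n - 1 - (r : ℕ))) * ‖y‖ = 1) (hρ : ρ ≠ 0) :
    ∃ G : Matrix (Fin n) (Fin n) ℚ_[p], G.det ≠ 0 ∧
      (∀ k ≤ 1, ∀ i j, ‖((a 0 : ℚ_[p])⁻¹ •
        (G * Hank n (mon ℚ_[p] a) (X ^ k * (C ξ - X)) * Gᵀ)) i j‖ ≤ 1) ∧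
      ‖((a 0 : ℚ_[p])⁻¹ •
        (G * Hank n (mon ℚ_[p] a) (C ξ - X) * Gᵀ)).det‖ = ‖(a 0 : ℚ_[p])‖ := by
  set f := GZ ℚ_[p] a with hfd
  have hfn : f.natDegree ≤ n := GZ_natDegree_le a
  have hft : f.coeff n = a 0 := GZ_coeff_top a
  set g := quo n f ξ n with hg
  have hgn : g.natDegree ≤ n - 1 := quo_natDegree hfn ξ
  have hgm : (C ξ - X) * g = C (y ^ 2) - f := by
    have h := quo_mul hfn ξ n le_rfl
    rw [hor_n, hf] at h
    exact h
  have hgeo := geom_sum₂_mul (X : ℚ_[p][X]) (C ξ) m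
  set hh : ℚ_[p][X] := ∑ i ∈ range m, X ^ i * C ξ ^ (m - 1 - i) with hhd
  have hhn : hh.natDegree ≤ e := by
    rw [hhd]
    refine natDegree_sum_le_of_forall_le _ _ fun i hi => ?_
    rw [Finset.mem_range] at hi
    rw [← C_pow, mul_comm]
    exact (natDegree_C_mul_X_pow_le _ _).trans (by omega)
  -- the exceptional row
  set U : ℚ_[p][X] := C (β * ξ ^ m) * g + C (-(β * y ^ 2)) * hh with hU
  have hUn : U.natDegree < n := by
    refine lt_of_le_of_lt (natDegree_add_le _ _) (max_lt ?_ ?_)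
    · exact lt_of_le_of_lt (natDegree_C_mul_le _ _) (by omega)
    · exact lt_of_le_of_lt (natDegree_C_mul_le _ _) (by omega)
  have hUe : U = C β * X ^ m * g - f * (C β * hh) := by
    rw [hU, C_neg, C_mul, C_mul, C_pow]
    linear_combination (C β * g) * hgeo + (C β * hh) * hgm
  set t : Fin n → ℚ_[p][X] := fun i => bas n e f i with ht
  have htn : ∀ i, (t i).natDegree < n := by
    intro i
    have hi := i.isLt
    refine lt_of_le_of_lt (natDegree_le_of_coeff (m := (i : ℕ)) fun j hj => ?_) hi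
    exact bas_coeff_gt hfn (by omega) hj
  have htJ : ∀ i, Jk a e (t i) := fun i => Jk_bas i.isLt
  set b : Fin n → ℚ_[p][X] := Function.update (fun i => C ρ * t i) r U with hb
  have hbr : b r = U := by rw [hb, Function.update_self]
  have hbi : ∀ i, i ≠ r → b i = C ρ * t i := fun i hi => by rw [hb, Function.update_of_ne hi]
  have hbn : ∀ i, (b i).natDegree < n := by
    intro i
    rcases eq_or_ne i r with rfl | hi
    · rw [hbr]
      exact hUn
    · rw [hbi i hi]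
      exact lt_of_le_of_lt (natDegree_C_mul_le _ _) (htn i)
  -- the determinant of the matrix
  obtain ⟨c, hc1, hc2⟩ := expand (show e < n by omega) hfn ξ (β * ξ ^ m) (C (-(β * y ^ 2)) * hh)
    ((natDegree_C_mul_le _ _).trans hhn)
  have hUc : U = ∑ k : Fin n, C (c k * ρ⁻¹) * (C ρ * t k) := by
    rw [hU, hc1]
    refine Finset.sum_congr rfl fun k _ => ?_
    have h : (C ρ⁻¹ : ℚ_[p][X]) * C ρ = 1 := by rw [← C_mul, inv_mul_cancel₀ hρ, C_1]
    rw [C_mul]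
    linear_combination (-(C (c k) * t k)) * h
  have hdet : (mat b).det = c r * ρ⁻¹ * (ρ ^ n * (a 0 : ℚ_[p]) ^ (e + 3)) := by
    have e1 : mat (fun i => C ρ * t i) = ρ • mat t := by
      ext i j
      rw [Matrix.smul_apply]
      unfold mat
      rw [coeff_C_mul, smul_eq_mul]
    rw [hb, hUc, det_rep (fun i => C ρ * t i) r (fun k => c k * ρ⁻¹), e1, Matrix.det_smul,
      Fintype.card_fin, det_bas (by omega) hfn, hft]
    congr 3
    omega
  have hcr : c r = β * ξ ^ m * ξ ^ (n - 1 - (r : ℕ)) := hc2 r hr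
  have hρ0 : 0 < ‖ρ‖ := norm_pos_iff.mpr hρ
  have ha0 : 0 < ‖(a 0 : ℚ_[p])‖ := norm_pos_iff.mpr h0
  have hy0 : 0 < ‖y‖ := norm_pos_iff.mpr hy
  have hnd : ‖(mat b).det‖ * ‖y‖ = ‖(a 0 : ℚ_[p])‖ ^ (e + 3) := by
    rw [hdet, hcr]
    simp only [norm_mul, norm_pow, norm_inv]
    have e2 : ‖ρ‖ ^ n = ‖ρ‖ ^ (n - 1) * ‖ρ‖ := by
      rw [← pow_succ]
      congr 1
      omega
    rw [e2]
    have e3 : ‖β‖ * ‖ξ‖ ^ m * ‖ξ‖ ^ (n - 1 - (r : ℕ)) * ‖ρ‖⁻¹ *
        (‖ρ‖ ^ (n - 1) * ‖ρ‖ * ‖(a 0 : ℚ_[p])‖ ^ (e + 3)) * ‖y‖ =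
        (‖ρ‖ ^ (n - 1) * ‖β‖ * ‖ξ‖ ^ (m + (n - 1 - (r : ℕ))) * ‖y‖) *
          ‖(a 0 : ℚ_[p])‖ ^ (e + 3) * (‖ρ‖⁻¹ * ‖ρ‖) := by
      rw [pow_add]
      ring
    rw [e3, h6, inv_mul_cancel₀ hρ0.ne']
    ring
  have hmm := mon_monic a h0
  have hmn := mon_natDegree a h0
  refine ⟨mat b, ?_, ?_, ?_⟩
  · intro h
    rw [h, norm_zero, zero_mul] at hnd
    exact (pow_pos ha0 _).ne hnd
  · intro k hk i j
    rw [Matrix.smul_apply, BG.LocLat.gram, rowP_mat b i (hbn i), rowP_mat b j (hbn j), smul_eq_mul]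
    change ‖tauf a (X ^ k * (C ξ - X) * b i * b j)‖ ≤ 1
    -- mixed entries
    have key : ∀ i : Fin n, ‖tauf a (X ^ k * (C ξ - X) * (C ρ * t i) * U)‖ ≤ 1 := by
      intro i
      have e1 : X ^ k * (C ξ - X) * (C ρ * t i) * U =
          C (ρ * β * y ^ 2) * (X ^ (k + m) * t i) +
            f * (-(X ^ k * C ρ * t i * (C β * X ^ m + (C ξ - X) * (C β * hh)))) := by
        rw [hUe, C_mul, C_mul, pow_add]
        linear_combination (X ^ k * C ρ * t i * C β * X ^ m) * hgm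
      rw [e1, tauf_add, tauf_mul a h0, add_zero, tauf_C_mul, norm_mul]
      have e2 : Jk a (k + m + e) (X ^ (k + m) * t i) := (Jk_X_pow le_rfl).mul (htJ i)
      have e3 := e2.le (by omega) h0
      exact mul_le_one₀ h3 (norm_nonneg _) e3
    rcases eq_or_ne i r with rfl | hi
    · rcases eq_or_ne j i with rfl | hj
      · rw [hbr]
        have e1 : X ^ k * (C ξ - X) * U * U =
            C (β ^ 2 * y ^ 2) * (X ^ (k + 2 * m) * g) +
              f * (-(X ^ k * (C β * X ^ m * g) * (C β * X ^ m)) - X ^ k * (C ξ - X) *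
                (C β * hh) * (U + C β * X ^ m * g)) := by
          have e2 : X ^ k * (C ξ - X) * U * U =
              X ^ k * (C ξ - X) * (C β * X ^ m * g) * (C β * X ^ m * g) +
              f * (-(X ^ k * (C ξ - X) * (C β * hh) * (U + C β * X ^ m * g))) := by
            linear_combination (X ^ k * (C ξ - X) * (U + C β * X ^ m * g)) * hUe
          rw [e2, C_mul, C_pow, pow_add, pow_mul']
          linear_combination (X ^ k * C β ^ 2 * (X ^ m) ^ 2 * g) * hgm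
        rw [e1, tauf_add, tauf_mul a h0, add_zero, tauf_C_mul,
          tauf_pow_quo a (by omega) h0 ξ (by omega)]
        exact h4 k hk
      · rw [hbr, hbi j hj]
        have e1 : X ^ k * (C ξ - X) * U * (C ρ * t j) = X ^ k * (C ξ - X) * (C ρ * t j) * U := by
          ring
        rw [e1]
        exact key j
    · rcases eq_or_ne j r with rfl | hj
      · rw [hbr, hbi i hi]
        exact key i
      · rw [hbi i hi, hbi j hj]
        have e1 : X ^ k * (C ξ - X) * (C ρ * t i) * (C ρ * t j) =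
            X ^ k * (C (ρ ^ 2 * ξ) + C (-ρ ^ 2) * X) * t i * t j := by
          rw [C_mul, C_neg, C_pow]
          ring
        rw [e1]
        have e2 : Jk a (k + 1 + e + e) (X ^ k * (C (ρ ^ 2 * ξ) + C (-ρ ^ 2) * X) * t i * t j) :=
          (((Jk_X_pow le_rfl).mul (Jk_lin h1 (by rwa [norm_neg]))).mul (htJ i)).mul (htJ j)
        exact e2.le (by omega) h0
  · rw [Matrix.det_smul, Fintype.card_fin, Matrix.det_mul, Matrix.det_mul, Matrix.det_transpose,
      hank_lin_det _ hmm hmn]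
    have e1 : (mon ℚ_[p] a).eval ξ = (a 0 : ℚ_[p])⁻¹ * y ^ 2 := by
      unfold mon
      rw [eval_mul, eval_C, hf]
    rw [e1]
    simp only [norm_mul, norm_pow, norm_inv, norm_neg, norm_one, one_pow, one_mul]
    have e2 : ‖(a 0 : ℚ_[p])‖⁻¹ ^ n * (‖(mat b).det‖ * (‖(a 0 : ℚ_[p])‖⁻¹ * ‖y‖ ^ 2) *
        ‖(mat b).det‖) = ‖(a 0 : ℚ_[p])‖⁻¹ ^ (n + 1) * (‖(mat b).det‖ * ‖y‖) ^ 2 := by
      rw [pow_succ]
      ring
    rw [e2, hnd, ← pow_mul, inv_pow, inv_mul_eq_iff_eq_mul₀ (pow_ne_zero _ ha0.ne'), ← pow_succ]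
    congr 1
    omega

lemma norm_eval_le (ξ : ℚ_[p]) (B : ℝ) (hB : 1 ≤ B) (hξ : ‖ξ‖ ≤ B) :
    ‖(GZ ℚ_[p] a).eval ξ‖ ≤ B ^ n := by
  have h1 : (GZ ℚ_[p] a).eval ξ = ∑ i : Fin (n + 1), (a i : ℚ_[p]) * ξ ^ (n - (i : ℕ)) := by
    simp [gpol, eval_finsetSum]
  rw [h1]
  refine IsUltrametricDist.norm_sum_le_of_forall_le_of_nonneg (by positivity) fun i _ => ?_
  rw [norm_mul, norm_pow]
  calc ‖(a i : ℚ_[p])‖ * ‖ξ‖ ^ (n - (i : ℕ)) ≤ 1 * B ^ n := by
        refine mul_le_mul (norm_int_le _) ?_ (by positivity) (by norm_num)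
        exact (pow_le_pow_left₀ (norm_nonneg _) hξ _).trans
          (pow_le_pow_right₀ hB (Nat.sub_le _ _))
    _ = B ^ n := one_mul _

lemma core2 {e : ℕ} (hne : n = 2 * e + 4) (h0 : (a 0 : ℚ_[p]) ≠ 0) (x y : ℚ_[p]) (hy : y ≠ 0)
    (hf : (GZ ℚ_[p] a).eval (x ^ 2) = y ^ 2) :
    ∃ G : Matrix (Fin n) (Fin n) ℚ_[p], G.det ≠ 0 ∧
      (∀ k ≤ 1, ∀ i j, ‖((a 0 : ℚ_[p])⁻¹ •
        (G * Hank n (mon ℚ_[p] a) (X ^ k * (C (x ^ 2) - X)) * Gᵀ)) i j‖ ≤ 1) ∧
      ‖((a 0 : ℚ_[p])⁻¹ •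
        (G * Hank n (mon ℚ_[p] a) (C (x ^ 2) - X) * Gᵀ)).det‖ = ‖(a 0 : ℚ_[p])‖ := by
  have hy0 : 0 < ‖y‖ := norm_pos_iff.mpr hy
  rcases le_or_gt ‖x‖ 1 with hx | hx
  · have hx2 : ‖x ^ 2‖ ≤ 1 := by
      rw [norm_pow]
      exact pow_le_one₀ (norm_nonneg _) hx
    have hy1 : ‖y‖ ≤ 1 := by
      have h := norm_eval_le (a := a) (x ^ 2) 1 le_rfl hx2
      rw [hf, norm_pow, one_pow] at h
      nlinarith
    refine core hne h0 (x ^ 2) y y⁻¹ 1 hy hf 0 (by omega) ⟨n - 1, by omega⟩ ?_ ?_ ?_ ?_ ?_ ?_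
      one_ne_zero
    · change e < n - 1
      omega
    · rwa [one_pow, one_mul]
    · simp
    · have e1 : (1 : ℚ_[p]) * y⁻¹ * y ^ 2 = y := by
        field_simp
      rwa [e1]
    · intro k _
      have e1 : y⁻¹ ^ 2 * y ^ 2 * (x ^ 2) ^ (k + 2 * 0) = (x ^ 2) ^ k := by
        field_simp
        rfl
      rw [e1, norm_pow]
      exact pow_le_one₀ (norm_nonneg _) hx2
    · have e1 : (((⟨n - 1, by omega⟩ : Fin n) : ℕ)) = n - 1 := rfl
      rw [e1, Nat.sub_self, norm_one, one_pow, norm_inv, pow_zero]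
      field_simp
  · have hx0 : x ≠ 0 := by
      rintro rfl
      norm_num at hx
    have hxn : 0 < ‖x‖ := norm_pos_iff.mpr hx0
    have hy1 : ‖y‖ ≤ ‖x‖ ^ n := by
      have h := norm_eval_le (a := a) (x ^ 2) (‖x‖ ^ 2) (one_le_pow₀ hx.le) (by rw [norm_pow])
      rw [hf, norm_pow, ← pow_mul, mul_comm 2 n, pow_mul] at h
      exact le_of_sq_le_sq h (by positivity)
    refine core hne h0 (x ^ 2) y (x * (x ^ n)⁻¹ * y⁻¹) x⁻¹ hy hf (e + 1) le_rfl
      ⟨e + 1, by omega⟩ ?_ ?_ ?_ ?_ ?_ ?_ (inv_ne_zero hx0)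
    · change e < e + 1
      omega
    · have e1 : x⁻¹ ^ 2 * x ^ 2 = 1 := by
        field_simp
      rw [e1, norm_one]
    · rw [norm_pow, norm_inv]
      exact pow_le_one₀ (by positivity) (inv_le_one_of_one_le₀ hx.le)
    · have e1 : x⁻¹ * (x * (x ^ n)⁻¹ * y⁻¹) * y ^ 2 = (x ^ n)⁻¹ * y := by
        field_simp
      rw [e1, norm_mul, norm_inv, norm_pow, inv_mul_le_iff₀ (by positivity), mul_one]
      exact hy1
    · intro k hk
      have e1 : (x * (x ^ n)⁻¹ * y⁻¹) ^ 2 * y ^ 2 * (x ^ 2) ^ (k + 2 * (e + 1)) =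
          x⁻¹ ^ 2 * (x ^ 2) ^ k := by
        rw [hne]
        field_simp
        ring
      rw [e1, norm_mul, norm_pow, norm_pow, norm_inv, norm_pow]
      have e2 : ‖x‖⁻¹ ^ 2 * (‖x‖ ^ 2) ^ k ≤ ‖x‖⁻¹ ^ 2 * (‖x‖ ^ 2) ^ 1 :=
        mul_le_mul_of_nonneg_left (pow_le_pow_right₀ (one_le_pow₀ hx.le) hk) (by positivity)
      refine e2.trans (le_of_eq ?_)
      field_simp
    · have e1 : (((⟨e + 1, by omega⟩ : Fin n) : ℕ)) = e + 1 := rfl
      rw [e1, norm_mul, norm_mul, norm_inv, norm_inv, norm_inv, norm_pow, norm_pow, inv_pow]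
      have e2 : e + 1 + (n - 1 - (e + 1)) = n - 1 := by omega
      rw [e2, ← pow_mul]
      obtain ⟨d, hd⟩ : ∃ d, n = d + 1 := ⟨n - 1, by omega⟩
      rw [hd, Nat.add_sub_cancel]
      field_simp
      ring

end padic



end LocLat

theorem loc_lattice {n : ℕ} (hn : 4 ≤ n) (he : Even n) (a : Fin (n + 1) → ℤ) (h0 : a 0 ≠ 0)
    (hl : a (Fin.last n) ≠ 0) (δ : ℚ[X]) (p : ℕ) [Fact p.Prime] (h : MLoc a δ ℚ_[p]) :
    ∃ G : Matrix (Fin n) (Fin n) ℚ_[p], G.det ≠ 0 ∧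
      (∀ i j, ‖((a 0 : ℚ_[p])⁻¹ •
        (G * Hank n (mon ℚ_[p] a) (δ.map (algebraMap ℚ ℚ_[p])) * Gᵀ)) i j‖ ≤ 1) ∧
      (∀ i j, ‖((a 0 : ℚ_[p])⁻¹ •
        (G * Hank n (mon ℚ_[p] a) (X * δ.map (algebraMap ℚ ℚ_[p])) * Gᵀ)) i j‖ ≤ 1) ∧
      ‖((a 0 : ℚ_[p])⁻¹ •
        (G * Hank n (mon ℚ_[p] a) (δ.map (algebraMap ℚ ℚ_[p])) * Gᵀ)).det‖ = ‖(a 0 : ℚ_[p])‖ := by
  obtain ⟨x, y, s, hy, hxy, hs⟩ := h
  obtain ⟨e, hne⟩ : ∃ e, n = 2 * e + 4 := by
    obtain ⟨r, hr⟩ := he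
    exact ⟨r - 2, by omega⟩
  have h0' : (a 0 : ℚ_[p]) ≠ 0 := by exact_mod_cast h0
  have hFm : (mon ℚ_[p] a).Monic := LocLat.mon_monic a h0'
  have hFn : (mon ℚ_[p] a).natDegree = n := LocLat.mon_natDegree a h0'
  have hGF : mon ℚ_[p] a ∣ GZ ℚ_[p] a :=
    ⟨C (a 0 : ℚ_[p]), by rw [LocLat.GZ_eq a h0', mul_comm]⟩
  set D : ℚ_[p][X] := δ.map (algebraMap ℚ ℚ_[p]) with hD
  obtain ⟨G, h1, h2, h4⟩ := LocLat.core2 hne h0' x y hy hxy.symm
  set F := mon ℚ_[p] a with hF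
  have hs' : F ∣ (C (x ^ 2) - X) - D * s ^ 2 := hGF.trans hs
  have hsF : IsCoprime s F := by
    have hF0 : F.eval (x ^ 2) ≠ 0 := by
      have e1 : F.eval (x ^ 2) = (a 0 : ℚ_[p])⁻¹ * y ^ 2 := by
        rw [hF]
        unfold mon
        rw [eval_mul, eval_C, ← hxy]
      rw [e1]
      exact mul_ne_zero (inv_ne_zero h0') (pow_ne_zero _ hy)
    obtain ⟨q, hq⟩ := X_sub_C_dvd_sub_C_eval (a := x ^ 2) (p := F)
    obtain ⟨t, ht⟩ := hs'
    set ε := F.eval (x ^ 2) with hε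
    have hee : (C ε⁻¹ : ℚ_[p][X]) * C ε = 1 := by
      rw [← C_mul, inv_mul_cancel₀ hF0, C_1]
    refine ⟨C ε⁻¹ * q * D * s, C ε⁻¹ * (1 + q * t), ?_⟩
    linear_combination (C ε⁻¹) * hq - C ε⁻¹ * q * ht + hee
  have hsdet := mulMat_det_ne_zero (n := n) _ s hFm hFn hsF
  have key : ∀ k : ℕ, Hank n F (X ^ k * (C (x ^ 2) - X)) =
      mulMat n F s * Hank n F (X ^ k * D) * (mulMat n F s)ᵀ := by
    intro k
    rw [← hank_mul_sq _ _ _ hFm hFn]
    refine hank_congr _ _ _ hFm ?_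
    have e1 : X ^ k * (C (x ^ 2) - X) - X ^ k * D * s ^ 2 =
        X ^ k * ((C (x ^ 2) - X) - D * s ^ 2) := by ring
    rw [e1]
    exact hs'.mul_left (X ^ k)
  have e3 : ∀ H : Matrix (Fin n) (Fin n) ℚ_[p],
      G * mulMat n F s * H * (G * mulMat n F s)ᵀ =
        G * (mulMat n F s * H * (mulMat n F s)ᵀ) * Gᵀ := by
    intro H
    rw [Matrix.transpose_mul]
    simp only [Matrix.mul_assoc]
  have k0 := key 0
  have k1 := key 1
  rw [pow_zero, one_mul, one_mul] at k0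
  rw [pow_one] at k1
  refine ⟨G * mulMat n F s, ?_, ?_, ?_, ?_⟩
  · rw [Matrix.det_mul]
    exact mul_ne_zero h1 hsdet
  · rw [e3, ← k0]
    have h := h2 0 (by norm_num)
    rwa [pow_zero, one_mul] at h
  · rw [e3, ← k1]
    have h := h2 1 le_rfl
    rwa [pow_one] at h
  · rw [e3, ← k0]
    exact h4

end Stoll308.BF
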