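import Pool.Agent.Work.MP_308fa9_nt.BE.Sieve
import Pool.Agent.Work.MP_308fa9_nt.BG.IrrDens
import Pool.Agent.Work.MP_308fa9_nt.BF.Basic

set_option autoImplicit false

/-!
Few of the polynomials are reducible.
-/

namespace Stoll308.BF

open Polynomial Finset BG

namespace ReduIrr

/-- counting a property which implies membership in a finite set -/
lemma cnt_le (n : ℕ) (P : (Fin (n + 1) → ℤ) → Prop) (H : ℕ) (Q : Finset (Fin (n + 1) → ℤ))
    (h : ∀ a : Fin (n + 1) → ℤ, (∀ i, -(H : ℤ) ≤ a i ∧ a i ≤ H) → P a → a ∈ Q) :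
    cnt n P H ≤ Q.card := by
  classical
  unfold cnt
  apply Finset.card_le_card
  intro a ha
  rw [Finset.mem_filter, Fintype.mem_piFinset] at ha
  exact h a (fun i => Finset.mem_Icc.1 (ha.1 i)) ha.2

lemma gpol_coeff {R : Type*} [CommRing R] {n : ℕ} (a : Fin (n + 1) → R) :
    (gpol a).coeff n = a 0 := by
  unfold gpol
  rw [finsetSum_coeff, Finset.sum_eq_single 0]
  · simp
  · intro j _ hj
    rw [coeff_C_mul, coeff_X_pow, if_neg, mul_zero]
    intro h
    apply hj
    ext
    simp only [Fin.val_zero]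
    have := j.2
    omega
  · intro h
    exact absurd (mem_univ _) h

lemma gpol_natDegree_le {R : Type*} [CommRing R] {n : ℕ} (a : Fin (n + 1) → R) :
    (gpol a).natDegree ≤ n := by
  unfold gpol
  refine natDegree_sum_le_of_forall_le _ _ fun i _ => ?_
  exact (natDegree_C_mul_X_pow_le _ _).trans (Nat.sub_le _ _)

lemma gpol_natDegree {R : Type*} [CommRing R] {n : ℕ} (a : Fin (n + 1) → R) (h : a 0 ≠ 0) :
    (gpol a).natDegree = n := by
  refine le_antisymm (gpol_natDegree_le a) ?_
  apply le_natDegree_of_ne_zero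
  rw [gpol_coeff]
  exact h

lemma map_GZ {R : Type*} [CommRing R] {n : ℕ} (a : Fin (n + 1) → ℤ) :
    (GZ ℤ a).map (Int.castRingHom R) = GZ R a := by
  simp [GZ, gpol, Polynomial.map_sum]

/-- Irreducibility modulo a prime. -/
lemma irr_of_mod {n : ℕ} (hn : 1 ≤ n) (a : Fin (n + 1) → ℤ) (l : ℕ) [Fact l.Prime]
    (h0 : ((a 0 : ℤ) : ZMod l) ≠ 0) (h : Irreducible (GZ (ZMod l) a)) :
    Irreducible (GZ ℚ a) := by
  have ha0 : a 0 ≠ 0 := by
    intro h1
    rw [h1] at h0
    simp at h0
  obtain ⟨f, hf⟩ : ∃ f : ℤ[X], f = GZ ℤ a := ⟨_, rfl⟩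
  have hdeg : f.natDegree = n := by
    rw [hf]
    exact gpol_natDegree _ (by simpa using ha0)
  have hf0 : f ≠ 0 := by
    intro h1
    rw [h1, natDegree_zero] at hdeg
    omega
  have hmod : f.map (Int.castRingHom (ZMod l)) = GZ (ZMod l) a := by rw [hf, map_GZ]
  have hrat : f.map (Int.castRingHom ℚ) = GZ ℚ a := by rw [hf, map_GZ]
  have hdegl : (f.map (Int.castRingHom (ZMod l))).natDegree = n := by
    rw [hmod]
    exact gpol_natDegree _ h0
  rw [← hmod] at h
  have hcp := f.eq_C_content_mul_primPart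
  have hprim := f.isPrimitive_primPart
  have hc0 : f.content ≠ 0 := by rw [Ne, content_eq_zero_iff]; exact hf0
  have hpdeg : f.primPart.natDegree = n := by rw [natDegree_primPart, hdeg]
  -- a factorization over the integers
  have key : ∀ u v : ℤ[X], f.primPart = u * v → IsUnit (v.map (Int.castRingHom (ZMod l))) →
      IsUnit v := by
    intro u v huv hv
    have hv0 : (v.map (Int.castRingHom (ZMod l))).natDegree = 0 := natDegree_eq_zero_of_isUnit hv
    have hu0 : u ≠ 0 := by
      rintro rfl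
      rw [zero_mul] at huv
      rw [huv, natDegree_zero] at hpdeg
      omega
    have hvne : v ≠ 0 := by
      rintro rfl
      rw [mul_zero] at huv
      rw [huv, natDegree_zero] at hpdeg
      omega
    have h1 : f.map (Int.castRingHom (ZMod l)) = C ((Int.castRingHom (ZMod l)) f.content) *
        (u.map (Int.castRingHom (ZMod l)) * v.map (Int.castRingHom (ZMod l))) := by
      conv_lhs => rw [hcp]
      rw [Polynomial.map_mul, map_C, huv, Polynomial.map_mul]
    have h2 : n ≤ (u.map (Int.castRingHom (ZMod l))).natDegree := by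
      rw [← hdegl, h1]
      refine (natDegree_C_mul_le _ _).trans (natDegree_mul_le.trans ?_)
      rw [hv0, add_zero]
    have h3 : u.natDegree + v.natDegree = n := by
      rw [← natDegree_mul hu0 hvne, ← huv, hpdeg]
    have h4 : (u.map (Int.castRingHom (ZMod l))).natDegree ≤ u.natDegree := natDegree_map_le
    have h5 : v.natDegree = 0 := by omega
    obtain ⟨k, hk⟩ := natDegree_eq_zero.1 h5
    have h6 : C k ∣ f.primPart := ⟨u, by rw [huv, ← hk]; ring⟩
    have h7 := hprim k h6
    rw [← hk]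
    exact isUnit_C.2 h7
  have hpirr : Irreducible f.primPart := by
    refine ⟨fun hu => ?_, fun u v huv => ?_⟩
    · have := natDegree_eq_zero_of_isUnit hu
      omega
    · have h1 : f.map (Int.castRingHom (ZMod l)) =
          (C ((Int.castRingHom (ZMod l)) f.content) * u.map (Int.castRingHom (ZMod l))) *
            v.map (Int.castRingHom (ZMod l)) := by
        conv_lhs => rw [hcp]
        rw [Polynomial.map_mul, map_C, huv, Polynomial.map_mul, mul_assoc]
      rcases h.isUnit_or_isUnit h1 with h2 | h2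
      · left
        exact key v u (by rw [huv, mul_comm]) (isUnit_of_mul_isUnit_right h2)
      · right
        exact key u v huv h2
  have h8 := (IsPrimitive.Int.irreducible_iff_irreducible_map_cast hprim).1 hpirr
  rw [← hrat, hcp, Polynomial.map_mul, map_C, irreducible_isUnit_mul]
  · exact h8
  · rw [isUnit_C]
    apply IsUnit.mk0
    simpa using hc0

/-- The proportion of the irreducible polynomials modulo `l`. -/
lemma dens (l : ℕ) [Fact l.Prime] (n : ℕ) (hn : 2 ≤ n) (hl : n ^ 2 ≤ l)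
    [DecidablePred fun a : Fin (n + 1) → ZMod l => a 0 ≠ 0 ∧ Irreducible (gpol a)] :
    l ^ (n + 1) ≤ 4 * n *
      (univ.filter fun a : Fin (n + 1) → ZMod l => a 0 ≠ 0 ∧ Irreducible (gpol a)).card := by
  classical
  have hlp : l.Prime := Fact.out
  have h1 := IrrDens.irr_count l n hn hl
  have h2 : ((univ.filter fun c : ZMod l => c ≠ 0) ×ˢ
      (univ.filter fun b : Fin n → ZMod l => Irreducible (fpol 1 b))).card ≤
      (univ.filter fun a : Fin (n + 1) → ZMod l => a 0 ≠ 0 ∧ Irreducible (gpol a)).card := by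
    refine Finset.card_le_card_of_injOn
      (fun x : ZMod l × (Fin n → ZMod l) => (Fin.cons x.1 fun i => x.1 * x.2 i :
        Fin (n + 1) → ZMod l)) ?_ ?_
    · rintro ⟨c, b⟩ hx
      rw [mem_coe, mem_product, mem_filter, mem_filter] at hx
      obtain ⟨⟨-, hc⟩, -, hb⟩ := hx
      rw [mem_coe, mem_filter]
      refine ⟨mem_univ _, by simpa using hc, ?_⟩
      have h3 : gpol (Fin.cons c fun i => c * b i : Fin (n + 1) → ZMod l) = C c * fpol 1 b := by
        unfold gpol fpol
        rw [Fin.sum_univ_succ, Fin.cons_zero, C_1, one_mul, mul_add, Finset.mul_sum]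
        congr 1
        refine Finset.sum_congr rfl fun i _ => ?_
        rw [Fin.cons_succ, Fin.val_succ, C_mul, mul_assoc]
        congr 3
        omega
      simp only
      rw [h3, irreducible_isUnit_mul (isUnit_C.2 (IsUnit.mk0 c hc))]
      exact hb
    · rintro ⟨c, b⟩ hx ⟨c', b'⟩ _ he
      rw [mem_coe, mem_product, mem_filter, mem_filter] at hx
      obtain ⟨⟨-, hc⟩, -⟩ := hx
      simp only at he hc
      have h3 := congrFun he 0
      simp only [Fin.cons_zero] at h3
      subst h3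
      rw [Prod.mk.injEq]
      refine ⟨rfl, ?_⟩
      funext i
      have h4 := congrFun he i.succ
      simp only [Fin.cons_succ] at h4
      exact mul_left_cancel₀ hc h4
  rw [Finset.card_product] at h2
  have h3 : (univ.filter fun c : ZMod l => c ≠ 0).card = l - 1 := by
    rw [Finset.filter_ne' univ (0 : ZMod l), Finset.card_erase_of_mem (mem_univ _),
      Finset.card_univ, ZMod.card]
  rw [h3] at h2
  have h4 : l ≤ 2 * (l - 1) := by have := hlp.two_le; omega
  obtain ⟨I, hI⟩ : ∃ I : ℕ, I = (univ.filter fun b : Fin n → ZMod l =>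
    Irreducible (fpol 1 b)).card := ⟨_, rfl⟩
  rw [← hI] at h1 h2
  calc l ^ (n + 1) = l ^ n * l := pow_succ l n
    _ ≤ (2 * n * I) * (2 * (l - 1)) := Nat.mul_le_mul h1 h4
    _ = 4 * n * ((l - 1) * I) := by ring
    _ ≤ _ := Nat.mul_le_mul_left _ h2

end ReduIrr

open ReduIrr in
theorem irr_small (n : ℕ) (hn : 2 ≤ n) (ε : ℝ) (hε : 0 < ε) :
    ∃ H₀ : ℕ, ∀ H : ℕ, H₀ ≤ H →
      (cnt n (fun a => a 0 ≠ 0 ∧ ¬ Irreducible (GZ ℚ a)) H : ℝ) ≤ ε * H ^ (n + 1) := by
  classical
  obtain ⟨r, hr⟩ : ∃ r : ℝ, r = 1 - 1 / (4 * n) := ⟨_, rfl⟩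
  have hn0 : (0 : ℝ) < n := by exact_mod_cast (by omega : 0 < n)
  have hr1 : r < 1 := by
    rw [hr]
    have : 0 < 1 / (4 * (n : ℝ)) := by positivity
    linarith
  have hr0 : 0 ≤ r := by
    rw [hr]
    have h1 : (1 : ℝ) ≤ 4 * n := by
      have : (1 : ℝ) ≤ n := by exact_mod_cast (by omega : 1 ≤ n)
      linarith
    have : 1 / (4 * (n : ℝ)) ≤ 1 := (div_le_one (by positivity)).2 h1
    linarith
  obtain ⟨k, hk⟩ : ∃ k : ℕ, r ^ k < ε / 3 ^ (n + 1) :=
    exists_pow_lt_of_lt_one (by positivity) hr1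
  -- a set of `k` primes
  have hinf : {p : ℕ | p.Prime ∧ n ^ 2 ≤ p}.Infinite := by
    have h1 := Nat.infinite_setOfPred_prime.sdiff (Set.finite_lt_nat (n ^ 2))
    refine h1.mono ?_
    intro p hp
    exact ⟨hp.1, not_lt.1 hp.2⟩
  obtain ⟨S, hSsub, hScard⟩ := hinf.exists_subset_card_eq k
  have hSp : ∀ l ∈ S, l.Prime ∧ n ^ 2 ≤ l := fun l hl => hSsub hl
  obtain ⟨A, hA⟩ : ∃ A : ℕ → (Fin (n + 1) → ℤ) → Prop,
      ∀ l a, A l a ↔ (((a 0 : ℤ) : ZMod l) ≠ 0 ∧ Irreducible (GZ (ZMod l) a)) :=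
    ⟨fun l a => ((a 0 : ℤ) : ZMod l) ≠ 0 ∧ Irreducible (GZ (ZMod l) a), fun _ _ => Iff.rfl⟩
  obtain ⟨M, hM⟩ : ∃ M : ℕ, M = ∏ l ∈ S, l := ⟨_, rfl⟩
  refine ⟨M + 1, fun H hH => ?_⟩
  have hbox := BE.sieve_box (n := n + 1) S (fun l => l) (fun l hl => (hSp l hl).1.pos)
    (fun l hl l' hl' hne => (Nat.coprime_primes (hSp l hl).1 (hSp l' hl').1).2 hne) A
    (by
      intro l hl t t' htt
      have h1 : ∀ i, ((t i : ℤ) : ZMod l) = ((t' i : ℤ) : ZMod l) := by
        intro i
        rw [ZMod.intCast_eq_intCast_iff_dvd_sub]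
        have := htt i
        rwa [← dvd_neg, neg_sub] at this
      rw [hA, hA, h1 0]
      have h2 : GZ (ZMod l) t = GZ (ZMod l) t' := by
        unfold GZ
        congr 1
        funext i
        exact h1 i
      rw [h2])
    (fun _ => 1 / (4 * n)) (by
      intro l _
      rw [← sub_nonneg, ← hr]
      exact hr0) (by
      intro l hl
      have : Fact l.Prime := ⟨(hSp l hl).1⟩
      have h1 := dens l n hn (hSp l hl).2
      have h2 : (univ.filter fun a : Fin (n + 1) → ZMod l => a 0 ≠ 0 ∧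
          Irreducible (gpol a)).card ≤ (univ.filter fun t : Fin (n + 1) → Fin l =>
            A l (fun i => ((t i : ℕ) : ℤ))).card := by
        refine Finset.card_le_card_of_injOn (fun a i => ⟨(a i).val, ZMod.val_lt (a i)⟩) ?_ ?_
        · intro a ha
          rw [mem_coe, mem_filter] at ha
          rw [mem_coe, mem_filter]
          refine ⟨mem_univ _, ?_⟩
          rw [hA]
          have e : (fun i => ((((a i).val : ℕ) : ℤ) : ZMod l)) = a := by
            funext i
            rw [Int.cast_natCast, ZMod.natCast_zmod_val]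
          refine ⟨?_, ?_⟩
          · rw [show ((((a 0).val : ℕ) : ℤ) : ZMod l) = a 0 from congrFun e 0]
            exact ha.2.1
          · show Irreducible (gpol fun i => ((((a i).val : ℕ) : ℤ) : ZMod l))
            rw [e]
            exact ha.2.2
        · intro a _ a' _ he
          funext i
          have h3 := congrArg Fin.val (congrFun he i)
          exact ZMod.val_injective l h3
      have h3 : (l : ℝ) ^ (n + 1) ≤ 4 * n * ((univ.filter fun t : Fin (n + 1) → Fin l =>
            A l (fun i => ((t i : ℕ) : ℤ))).card : ℝ) := by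
        exact_mod_cast h1.trans (Nat.mul_le_mul_left _ h2)
      rw [div_mul_eq_mul_div, one_mul, div_le_iff₀ (by positivity)]
      linarith)
    (fun _ => -(H : ℤ)) (fun _ => 2 * H + 1)
  have hsub : cnt n (fun a => a 0 ≠ 0 ∧ ¬ Irreducible (GZ ℚ a)) H ≤
      ((Fintype.piFinset fun _ : Fin (n + 1) => Ico (-(H : ℤ)) (-(H : ℤ) + (2 * H + 1 : ℕ))).filter
        fun t => ∀ l ∈ S, ¬ A l t).card := by
    refine cnt_le n _ H _ fun a hb hP => ?_
    rw [mem_filter, Fintype.mem_piFinset]
    refine ⟨fun i => ?_, fun l hl hAl => ?_⟩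
    · have := hb i
      rw [mem_Ico]
      push_cast
      omega
    · have : Fact l.Prime := ⟨(hSp l hl).1⟩
      rw [hA] at hAl
      exact hP.2 (irr_of_mod (by omega) a l hAl.1 hAl.2)
  have hMR : ∏ l ∈ S, ((l : ℕ) : ℝ) = (M : ℝ) := by rw [hM]; push_cast; rfl
  simp only [hMR, Finset.prod_const, Finset.card_univ, Fintype.card_fin, hScard, ← hr] at hbox
  have hH1 : (M : ℝ) + 1 ≤ H := by exact_mod_cast hH
  have hM0 : (0 : ℝ) ≤ M := Nat.cast_nonneg _
  calc (cnt n (fun a => a 0 ≠ 0 ∧ ¬ Irreducible (GZ ℚ a)) H : ℝ)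
      ≤ ((((2 * H + 1 : ℕ) : ℝ) + M) ^ (n + 1)) * r ^ k :=
        le_trans (by exact_mod_cast hsub) hbox
    _ ≤ (3 * H) ^ (n + 1) * (ε / 3 ^ (n + 1)) := by
        refine mul_le_mul ?_ hk.le (pow_nonneg hr0 _) (by positivity)
        refine pow_le_pow_left₀ (by positivity) ?_ _
        push_cast
        linarith
    _ = ε * H ^ (n + 1) := by
        rw [mul_pow]
        field_simp

end Stoll308.BF
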