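import Pool.Agent.Work.MP_308fa9_nt.BF.Redu0
import Pool.Agent.Work.MP_308fa9_nt.BF.ReduIrr
import Pool.Agent.Work.MP_308fa9_nt.BG.Redu

set_option autoImplicit false

/-!
Few of the polynomials are reducible, have a square leading coefficient or a small height.
(`height_small` is in `BF.Redu0`, `irr_small` in `BF.ReduIrr`.)
-/

namespace Stoll308.BF

open Polynomial Finset BG

theorem reducible_small (n : ℕ) (hn : 2 ≤ n) (ε : ℝ) (hε : 0 < ε) :
    ∃ H₀ : ℕ, ∀ H : ℕ, H₀ ≤ H →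
      (cnt n (fun a => a 0 = 0 ∨ IsSquare (a 0) ∨ ¬ Irreducible (GZ ℚ a)) H : ℝ) ≤
        ε * H ^ (n + 1) := by
  obtain ⟨H₁, h₁⟩ := irr_small n hn (ε / 2) (half_pos hε)
  obtain ⟨H₂, h₂⟩ := lead_small n (ε / 2) (half_pos hε)
  refine ⟨max H₁ H₂, fun H hH => ?_⟩
  have h1 := h₁ H ((le_max_left _ _).trans hH)
  have h2 := h₂ H ((le_max_right _ _).trans hH)
  have h3 := Redu0.cnt_le_add n (fun a => a 0 = 0 ∨ IsSquare (a 0) ∨ ¬ Irreducible (GZ ℚ a))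
    (fun a => a 0 ≠ 0 ∧ ¬ Irreducible (GZ ℚ a)) (fun a => a 0 = 0 ∨ IsSquare (a 0)) H (by
      intro a ha
      by_cases h0 : a 0 = 0
      · exact Or.inr (Or.inl h0)
      · rcases ha with h | h | h
        · exact Or.inr (Or.inl h)
        · exact Or.inr (Or.inr h)
        · exact Or.inl ⟨h0, h⟩)
  have h4 : (cnt n (fun a => a 0 = 0 ∨ IsSquare (a 0) ∨ ¬ Irreducible (GZ ℚ a)) H : ℝ) ≤
      (cnt n (fun a => a 0 ≠ 0 ∧ ¬ Irreducible (GZ ℚ a)) H : ℝ) +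
        (cnt n (fun a => a 0 = 0 ∨ IsSquare (a 0)) H : ℝ) := by exact_mod_cast h3
  linarith

end Stoll308.BF
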