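import Pool.Agent.Work.MP_308fa9_nt.BF.Redu
import Pool.Agent.Work.MP_308fa9_nt.BF.Irr
import Pool.Agent.Work.MP_308fa9_nt.BG.PSmooth

set_option autoImplicit false

/-!
Few of the curves are singular.
-/

namespace Stoll308.BF

open Polynomial Finset BG

namespace Singular

lemma cnt_le_add (n : ℕ) (P Q : (Fin (n + 1) → ℤ) → Prop) {ι : Type*} (S : Finset ι)
    (R : ι → (Fin (n + 1) → ℤ) → Prop) (H : ℕ) (h : ∀ a, P a → Q a ∨ ∃ x ∈ S, R x a) :
    cnt n P H ≤ cnt n Q H + ∑ x ∈ S, cnt n (R x) H := by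
  classical
  unfold cnt
  refine le_trans (Finset.card_le_card (t := _ ∪ S.biUnion fun x =>
    ((Fintype.piFinset fun _ : Fin (n + 1) => Icc (-(H : ℤ)) (H : ℤ)).filter (R x))) ?_)
    (le_trans (Finset.card_union_le _ _) (Nat.add_le_add_left Finset.card_biUnion_le _))
  intro a ha
  have ha' := Finset.mem_filter.1 ha
  rcases h a ha'.2 with h1 | ⟨x, hx, h1⟩
  · exact Finset.mem_union_left _ (Finset.mem_filter.2 ⟨ha'.1, h1⟩)
  · exact Finset.mem_union_right _ (Finset.mem_biUnion.2 ⟨x, hx, Finset.mem_filter.2 ⟨ha'.1, h1⟩⟩)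

/-- few polynomials have a given root -/
lemma cnt_root (n : ℕ) (ξ : ℂ) (H : ℕ) :
    cnt n (fun a => aeval ξ (GZ ℚ a) = 0) H ≤ (2 * H + 1) ^ n := by
  classical
  have hc : (Fintype.piFinset fun _ : Fin n => Icc (-(H : ℤ)) (H : ℤ)).card = (2 * H + 1) ^ n := by
    rw [Fintype.card_piFinset, Finset.prod_const, Finset.card_univ, Fintype.card_fin, Int.card_Icc]
    congr 1
    omega
  rw [← hc]
  unfold cnt
  refine Finset.card_le_card_of_injOn (fun b i => b i.castSucc) ?_ ?_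
  · intro b hb
    have hb' := (Finset.mem_filter.1 (Finset.mem_coe.1 hb)).1
    rw [Fintype.mem_piFinset] at hb'
    rw [Finset.mem_coe, Fintype.mem_piFinset]
    exact fun i => hb' i.castSucc
  · intro b hb b' hb' hbb
    have h1 := (Finset.mem_filter.1 (Finset.mem_coe.1 hb)).2
    have h2 := (Finset.mem_filter.1 (Finset.mem_coe.1 hb')).2
    have e : ∀ c : Fin (n + 1) → ℤ, aeval ξ (GZ ℚ c) =
        ∑ i : Fin n, (c i.castSucc : ℂ) * ξ ^ (n - (i : ℕ)) + (c (Fin.last n) : ℂ) := by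
      intro c
      unfold GZ gpol
      rw [map_sum, Fin.sum_univ_castSucc]
      simp
    rw [e] at h1 h2
    have h3 : ∀ i : Fin n, b i.castSucc = b' i.castSucc := fun i => congrFun hbb i
    have h4 : ∑ i : Fin n, (b i.castSucc : ℂ) * ξ ^ (n - (i : ℕ)) =
        ∑ i : Fin n, (b' i.castSucc : ℂ) * ξ ^ (n - (i : ℕ)) :=
      Finset.sum_congr rfl fun i _ => by rw [h3 i]
    have h5 : (b (Fin.last n) : ℂ) = (b' (Fin.last n) : ℂ) := by
      have h6 := h1.trans h2.symm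
      rw [h4] at h6
      linear_combination h6
    have h7 : b (Fin.last n) = b' (Fin.last n) := by exact_mod_cast h5
    funext i
    refine Fin.lastCases h7 (fun j => h3 j) i

end Singular

open Singular BG.PSmooth in
theorem singular_small (n : ℕ) (hn : 2 ≤ n) (ψ : ℤ[X]) (hψ : 1 ≤ ψ.natDegree) (ε : ℝ)
    (hε : 0 < ε) : ∃ H₀ : ℕ, ∀ H : ℕ, H₀ ≤ H →
      (cnt n (fun a => ¬ Smooth ψ a) H : ℝ) ≤ ε * H ^ (n + 1) := by
  obtain ⟨H₁, h₁⟩ := reducible_small n hn (ε / 2) (half_pos hε)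
  obtain ⟨H₂, h₂⟩ := exists_nat_ge (2 * ((CP ψ).card * 3 ^ n) / ε)
  refine ⟨max H₁ (H₂ + 1), fun H hH => ?_⟩
  have hH1 := h₁ H ((le_max_left _ _).trans hH)
  have hH2 : H₂ + 1 ≤ H := (le_max_right _ _).trans hH
  have hH3 : (1 : ℝ) ≤ H := by exact_mod_cast (by omega : 1 ≤ H)
  have hH4 : 2 * ((CP ψ).card * 3 ^ n) / ε ≤ H := h₂.trans (by exact_mod_cast (by omega : H₂ ≤ H))
  have h3 := Singular.cnt_le_add n (fun a => ¬ Smooth ψ a)
    (fun a => a 0 = 0 ∨ IsSquare (a 0) ∨ ¬ Irreducible (GZ ℚ a)) (CP ψ)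
    (fun x a => aeval ((aeval x (ψ.map (Int.castRingHom ℚ))) ^ 2) (GZ ℚ a) = 0) H (by
      intro a ha
      by_cases h0 : a 0 = 0
      · exact Or.inl (Or.inl h0)
      by_cases hirr : Irreducible (GZ ℚ a)
      · right
        have h4 : ¬ Squarefree ((GZ ℚ a).comp ((ψ.map (Int.castRingHom ℚ)) ^ 2)) :=
          fun h => ha ⟨h0, h⟩
        obtain ⟨x, hx1, hx2⟩ := crit hirr (by rw [Irr.GZ_natDegree a h0]; exact hn) h4
        exact ⟨x, mem_CP hψ hx1, hx2⟩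
      · exact Or.inl (Or.inr (Or.inr hirr)))
  have h4 : ∑ x ∈ CP ψ, cnt n (fun a => aeval ((aeval x (ψ.map (Int.castRingHom ℚ))) ^ 2)
      (GZ ℚ a) = 0) H ≤ (CP ψ).card * (2 * H + 1) ^ n := by
    rw [← smul_eq_mul]
    exact Finset.sum_le_card_nsmul _ _ _ fun x _ => Singular.cnt_root n _ H
  have h5 : (((2 * H + 1) ^ n : ℕ) : ℝ) ≤ 3 ^ n * (H : ℝ) ^ n := by
    push_cast
    rw [← mul_pow]
    refine pow_le_pow_left₀ (by positivity) ?_ _
    linarith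
  have h7 : (cnt n (fun a => ¬ Smooth ψ a) H : ℝ) ≤
      (cnt n (fun a => a 0 = 0 ∨ IsSquare (a 0) ∨ ¬ Irreducible (GZ ℚ a)) H : ℝ) +
        (CP ψ).card * (((2 * H + 1) ^ n : ℕ) : ℝ) := by
    exact_mod_cast h3.trans (Nat.add_le_add_left h4 _)
  have h8 : ((CP ψ).card : ℝ) * (((2 * H + 1) ^ n : ℕ) : ℝ) ≤ ε / 2 * (H : ℝ) ^ (n + 1) := by
    rw [div_le_iff₀ hε] at hH4
    calc ((CP ψ).card : ℝ) * (((2 * H + 1) ^ n : ℕ) : ℝ)
        ≤ (CP ψ).card * (3 ^ n * (H : ℝ) ^ n) := by gcongr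
      _ = ((CP ψ).card * 3 ^ n) * (H : ℝ) ^ n := by ring
      _ ≤ (ε / 2 * H) * (H : ℝ) ^ n := by
          refine mul_le_mul_of_nonneg_right ?_ (by positivity)
          linarith
      _ = ε / 2 * (H : ℝ) ^ (n + 1) := by ring
  linarith

end Stoll308.BF
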