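import Pool.Agent.Work.MP_308fa9_nt.BF.Rep
import Pool.Agent.Work.MP_308fa9_nt.BF.LargeT
import Pool.Agent.Work.MP_308fa9_nt.BF.Cusp
import Pool.Agent.Work.MP_308fa9_nt.BF.Redu
import Pool.Agent.Work.MP_308fa9_nt.BF.Els
import Pool.Agent.Work.MP_308fa9_nt.BF.Singular

set_option autoImplicit false

/-!
The theorem for the full family.
-/

namespace Stoll308.BF

open Polynomial Finset Matrix BG

lemma cnt_mono {n : ℕ} {P Q : (Fin (n + 1) → ℤ) → Prop} (H : ℕ)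
    (h : ∀ a : Fin (n + 1) → ℤ, (∀ i, |a i| ≤ (H : ℤ)) → P a → Q a) :
    cnt n P H ≤ cnt n Q H := by
  classical
  unfold cnt
  apply card_le_card
  intro b hb
  simp only [mem_filter, Fintype.mem_piFinset, mem_Icc] at hb ⊢
  exact ⟨hb.1, h b (fun i => abs_le.2 (hb.1 i)) hb.2⟩

lemma cnt_or {n : ℕ} (P Q : (Fin (n + 1) → ℤ) → Prop) (H : ℕ) :
    cnt n (fun b => P b ∨ Q b) H ≤ cnt n P H + cnt n Q H := by
  classical
  unfold cnt
  refine le_trans (card_le_card ?_) (card_union_le _ _)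
  intro t ht
  simp only [mem_filter, mem_union] at ht ⊢
  rcases ht.2 with h | h
  · exact Or.inl ⟨ht.1, h⟩
  · exact Or.inr ⟨ht.1, h⟩

lemma cnt_le_of_card {n : ℕ} (P : (Fin (n + 1) → ℤ) → Prop) (H : ℕ) (R : ℝ)
    (h : ∀ T : Finset (Fin (n + 1) → ℤ), (∀ a ∈ T, P a) → (T.card : ℝ) ≤ R) :
    (cnt n P H : ℝ) ≤ R := by
  classical
  unfold cnt
  apply h
  intro a ha
  simp only [mem_filter] at ha
  exact ha.2

lemma local_mloc {n : ℕ} {ψ : ℤ[X]} {a : Fin (n + 1) → ℤ} {δ : ℚ[X]} {K : Type*} [Field K]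
    [Algebra ℚ K] (h : LocalImage ψ a δ K) : MLoc a δ K := by
  obtain ⟨x, y, s, hy, h1, h2⟩ := h
  exact ⟨aeval x ψ, y, s, hy, h1, h2⟩

lemma eval_map_GZ {n : ℕ} (a : Fin (n + 1) → ℤ) {K L : Type*} [Field K] [Field L] (f : K →+* L)
    (x : K) : (GZ L a).eval (f x) = f ((GZ K a).eval x) := by
  rw [← PairEx.GZ_map f a, eval_map, eval₂_hom]

theorem sel_of_point {n : ℕ} (hn : 2 ≤ n) (ψ : ℤ[X]) (a : Fin (n + 1) → ℤ) (h0 : a 0 ≠ 0)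
    (hsq : ¬ IsSquare (a 0)) (hF : Irreducible (GZ ℚ a)) (h : HasPoint ψ a ℚ) : Sel ψ a := by
  obtain ⟨x, y, hxy⟩ | hs := h
  swap
  · exact absurd (Rat.isSquare_intCast_iff.mp hs) hsq
  have hdeg := Irr.GZ_natDegree a h0
  have hy : y ≠ 0 := by
    rintro rfl
    have h1 : (GZ ℚ a).IsRoot ((aeval x ψ) ^ 2) := by
      rw [IsRoot, ← hxy]
      ring
    have h2 : (GZ ℚ a).natDegree = 1 :=
      natDegree_eq_of_degree_eq_some (degree_eq_one_of_irreducible_of_root hF h1)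
    rw [hdeg] at h2
    omega
  have key : ∀ (K : Type) [Field K] [Algebra ℚ K],
      LocalImage ψ a (C ((aeval x ψ) ^ 2) - X) K := by
    intro K _ _
    have hψ : aeval (algebraMap ℚ K x) ψ = algebraMap ℚ K (aeval x ψ) := by
      rw [aeval_def, aeval_def, hom_eval₂]
      congr 1
      exact RingHom.ext_int _ _
    refine ⟨algebraMap ℚ K x, algebraMap ℚ K y, 1, ?_, ?_, ?_⟩
    · exact (map_ne_zero (algebraMap ℚ K)).mpr hy
    · rw [hψ, ← map_pow, ← map_pow, eval_map_GZ, hxy]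
    · rw [hψ]
      simp
  refine ⟨C ((aeval x ψ) ^ 2) - X, ?_, fun p hp => key ℚ_[p], key ℝ⟩
  obtain ⟨q, hq⟩ := X_sub_C_dvd_sub_C_eval (a := (aeval x ψ) ^ 2) (p := GZ ℚ a)
  rw [← hxy] at hq
  have hy2 : (C (y ^ 2)⁻¹ : ℚ[X]) * C (y ^ 2) = 1 := by
    rw [← C_mul, inv_mul_cancel₀ (pow_ne_zero 2 hy), C_1]
  refine ⟨C (y ^ 2)⁻¹ * q, C (y ^ 2)⁻¹, ?_⟩
  linear_combination (C (y ^ 2)⁻¹) * hq + hy2

theorem sel_small (n : ℕ) (hn : 4 ≤ n) (he : Even n) (ψ : ℤ[X]) (ε : ℝ) (hε : 0 < ε) :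
    ∃ H₀ : ℕ, ∀ H : ℕ, H₀ ≤ H →
      (cnt n (fun a => Sel ψ a ∨ HasPoint ψ a ℚ) H : ℝ) ≤ ε * H ^ (n + 1) := by
  obtain ⟨K, hK, hred⟩ := red_of_mloc hn he
  obtain ⟨H₁, h1⟩ := reducible_small n (by omega) (ε / 4) (by positivity)
  obtain ⟨η, hη, H₂, h2⟩ := height_small n (ε / 4) (by positivity)
  obtain ⟨R, H₃, hR, h3⟩ := cusp n hn he K hK η hη (ε / 4) (by positivity)
  obtain ⟨H₄, h4⟩ := large_t hn he K R hK hR (ε / 4) (by positivity)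
  refine ⟨H₁ + H₂ + ⌈|H₃|⌉₊ + ⌈|H₄|⌉₊ + 1, ?_⟩
  intro H hH
  have g1 := h1 H (by omega)
  have g2 := h2 H (by omega)
  have hH₃ : H₃ ≤ H := by
    have e1 : |H₃| ≤ ⌈|H₃|⌉₊ := Nat.le_ceil _
    have e2 : ((⌈|H₃|⌉₊ : ℕ) : ℝ) ≤ H := by
      have : ⌈|H₃|⌉₊ ≤ H := by omega
      exact_mod_cast this
    linarith [le_abs_self H₃]
  have hH₄ : H₄ ≤ H := by
    have e1 : |H₄| ≤ ⌈|H₄|⌉₊ := Nat.le_ceil _
    have e2 : ((⌈|H₄|⌉₊ : ℕ) : ℝ) ≤ H := by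
      have : ⌈|H₄|⌉₊ ≤ H := by omega
      exact_mod_cast this
    linarith [le_abs_self H₄]
  have g3 := cnt_le_of_card _ H _ (h3 H hH₃)
  have g4 := cnt_le_of_card _ H _ (h4 H hH₄)
  set P1 : (Fin (n + 1) → ℤ) → Prop := fun a => a 0 = 0 ∨ IsSquare (a 0) ∨
    ¬ Irreducible (GZ ℚ a) with hP1
  set P2 : (Fin (n + 1) → ℤ) → Prop := fun a => ∀ i, |(a i : ℝ)| < η * H with hP2
  set P3 : (Fin (n + 1) → ℤ) → Prop := fun a => a 0 ≠ 0 ∧ Irreducible (GZ ℚ a) ∧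
    (∃ i, η * H ≤ |(a i : ℝ)|) ∧ ∃ (A B : Matrix (Fin n) (Fin n) ℤ) (t : Fin n → ℝ),
          RPair K H a A B t ∧ ∃ i j, R * t i < t j with hP3
  set P4 : (Fin (n + 1) → ℤ) → Prop := fun a => ∃ (A B : Matrix (Fin n) (Fin n) ℤ)
    (t : Fin n → ℝ), RPair K H a A B t ∧ (∀ i j, t j ≤ R * t i) ∧
      ∀ l : ℕ, l ≠ 2 → ¬ Bad l A B with hP4
  have hle : cnt n (fun a => Sel ψ a ∨ HasPoint ψ a ℚ) H ≤
      cnt n P1 H + (cnt n P2 H + (cnt n P3 H + cnt n P4 H)) := by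
    refine le_trans (cnt_mono (Q := fun b => P1 b ∨ P2 b ∨ P3 b ∨ P4 b) H ?_) ?_
    · intro a ha h
      by_cases hg : P1 a
      · exact Or.inl hg
      right
      rw [hP1] at hg
      simp only [not_or, not_not] at hg
      obtain ⟨h0, hsq, hF⟩ := hg
      have hSel : Sel ψ a := by
        rcases h with h | h
        · exact h
        · exact sel_of_point (by omega) ψ a h0 hsq hF h
      by_cases hη2 : ∃ i, η * H ≤ |(a i : ℝ)|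
      swap
      · left
        push Not at hη2
        exact hη2
      right
      obtain ⟨δ, hδ, hl, hR'⟩ := hSel
      obtain ⟨A, B, t, h5, h6⟩ := hred a h0 hF H (fun i => by exact_mod_cast ha i) δ hδ
        (fun p _ => local_mloc (hl p)) (local_mloc hR')
      by_cases ht : ∃ i j, R * t i < t j
      · exact Or.inl ⟨h0, hF, hη2, A, B, t, h5, ht⟩
      · push Not at ht
        exact Or.inr ⟨A, B, t, h5, ht, h6⟩
    · refine (cnt_or _ _ H).trans ?_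
      gcongr
      refine (cnt_or _ _ H).trans ?_
      gcongr
      exact cnt_or _ _ H
  calc ((cnt n (fun a => Sel ψ a ∨ HasPoint ψ a ℚ) H : ℕ) : ℝ)
      ≤ ((cnt n P1 H + (cnt n P2 H + (cnt n P3 H + cnt n P4 H)) : ℕ) : ℝ) := by
        exact_mod_cast hle
    _ ≤ ε * H ^ (n + 1) := by
        push_cast
        linarith

theorem main (n : ℕ) (hn : 4 ≤ n) (he : Even n) (ψ : ℤ[X]) (hψ : 1 ≤ ψ.natDegree) :
    (∃ c₀ : ℝ, 0 < c₀ ∧ ∃ H₀ : ℕ, ∀ H : ℕ, H₀ ≤ H →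
      c₀ * H ^ (n + 1) ≤ (cnt n (fun a => ELS ψ a ∧ Smooth ψ a) H : ℝ)) ∧
    ∀ ε : ℝ, 0 < ε → ∃ H₀ : ℕ, ∀ H : ℕ, H₀ ≤ H →
      (cnt n (fun a => Sel ψ a ∨ HasPoint ψ a ℚ) H : ℝ) ≤ ε * H ^ (n + 1) := by
  refine ⟨?_, fun ε hε => sel_small n hn he ψ ε hε⟩
  obtain ⟨c, hc, H₁, h1⟩ := els_many n hn he ψ hψ
  obtain ⟨H₂, h2⟩ := singular_small n (by omega) ψ hψ (c / 2) (by positivity)
  refine ⟨c / 2, by positivity, H₁ + H₂, ?_⟩
  intro H hH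
  have g1 := h1 H (by omega)
  have g2 := h2 H (by omega)
  have h3 : cnt n (ELS ψ) H ≤ cnt n (fun a => ELS ψ a ∧ Smooth ψ a) H +
      cnt n (fun a => ¬ Smooth ψ a) H := by
    refine le_trans (cnt_mono (Q := fun a => (ELS ψ a ∧ Smooth ψ a) ∨ ¬ Smooth ψ a) H ?_)
      (cnt_or _ _ H)
    intro b _ hb
    by_cases h : Smooth ψ b
    · exact Or.inl ⟨hb, h⟩
    · exact Or.inr h
  have h4 : (cnt n (ELS ψ) H : ℝ) ≤ cnt n (fun a => ELS ψ a ∧ Smooth ψ a) H +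
      cnt n (fun a => ¬ Smooth ψ a) H := by exact_mod_cast h3
  linarith

end Stoll308.BF
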