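import Pool.Agent.Work.MP_308fa9_nt.BF.Basic
import Pool.Agent.Work.MP_308fa9_nt.BG.Major
import Mathlib.Analysis.Polynomial.MahlerMeasure

set_option autoImplicit false

/-!
The majorant of a pair.
-/

namespace Stoll308.BF

open Polynomial Finset Matrix BG

namespace Major

variable {n : ℕ}

lemma gz_map {R S : Type*} [CommRing R] [CommRing S] (f : R →+* S) (a : Fin (n + 1) → ℤ) :
    (GZ R a).map f = GZ S a := by
  unfold GZ gpol
  rw [Polynomial.map_sum]
  refine sum_congr rfl (fun i _ => ?_)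
  simp

lemma gz_coeff {R : Type*} [CommRing R] (a : Fin (n + 1) → ℤ) (i : Fin (n + 1)) :
    (GZ R a).coeff (n - (i : ℕ)) = (a i : R) := by
  unfold GZ gpol
  rw [finsetSum_coeff, Finset.sum_eq_single i]
  · simp
  · intro b _ hb
    rw [coeff_C_mul, coeff_X_pow, if_neg, mul_zero]
    intro h
    apply hb
    have h1 := b.2
    have h2 := i.2
    exact Fin.ext (by omega)
  · intro h
    exact absurd (Finset.mem_univ _) h

lemma gz_natDegree_le {R : Type*} [CommRing R] (a : Fin (n + 1) → ℤ) :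
    (GZ R a).natDegree ≤ n := by
  unfold GZ gpol
  refine natDegree_sum_le_of_forall_le _ _ (fun i _ => ?_)
  exact (natDegree_C_mul_X_pow_le _ _).trans (Nat.sub_le _ _)

lemma gz_natDegree {R : Type*} [CommRing R] (a : Fin (n + 1) → ℤ) (h : (a 0 : R) ≠ 0) :
    (GZ R a).natDegree = n := by
  refine le_antisymm (gz_natDegree_le a) ?_
  apply le_natDegree_of_ne_zero
  have := gz_coeff (R := R) a 0
  simp only [Fin.val_zero, Nat.sub_zero] at this
  rw [this]
  exact h

lemma gz_lead {R : Type*} [CommRing R] (a : Fin (n + 1) → ℤ) (h : (a 0 : R) ≠ 0) :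
    (GZ R a).leadingCoeff = (a 0 : R) := by
  rw [leadingCoeff, gz_natDegree a h]
  have := gz_coeff (R := R) a 0
  simpa using this

lemma mon_monic {K : Type*} [Field K] (a : Fin (n + 1) → ℤ) (h : (a 0 : K) ≠ 0) :
    (mon K a).Monic := by
  unfold mon
  rw [Monic, leadingCoeff_mul, leadingCoeff_C, gz_lead a h, inv_mul_cancel₀ h]

lemma mon_natDegree {K : Type*} [Field K] (a : Fin (n + 1) → ℤ) (h : (a 0 : K) ≠ 0) :
    (mon K a).natDegree = n := by
  unfold mon
  rw [natDegree_C_mul (inv_ne_zero h), gz_natDegree a h]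

lemma mon_map {K L : Type*} [Field K] [Field L] (f : K →+* L) (a : Fin (n + 1) → ℤ) :
    (mon K a).map f = mon L a := by
  unfold mon
  rw [Polynomial.map_mul, gz_map, map_C, map_inv₀, map_intCast]

lemma mon_eval {K : Type*} [Field K] (a : Fin (n + 1) → ℤ) (h : (a 0 : K) ≠ 0) (z : K) :
    (mon K a).eval z = 0 ↔ (GZ K a).eval z = 0 := by
  unfold mon
  rw [eval_mul, eval_C]
  simp [h]

lemma exists_roots (a : Fin (n + 1) → ℤ) (h0 : a 0 ≠ 0) (hF : Irreducible (GZ ℚ a)) :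
    ∃ θ : Fin n → ℂ, Function.Injective θ ∧ (∀ i, (GZ ℂ a).eval (θ i) = 0) ∧
      (GZ ℂ a).roots = (univ : Finset (Fin n)).val.map θ := by
  classical
  have hm : (GZ ℚ a).map (algebraMap ℚ ℂ) = GZ ℂ a := gz_map _ a
  have h0' : (a 0 : ℂ) ≠ 0 := by exact_mod_cast h0
  have hsep : (GZ ℂ a).Separable := by
    rw [← hm]
    exact hF.separable.map
  have hne : GZ ℂ a ≠ 0 := hsep.ne_zero
  have hcard : (GZ ℂ a).roots.toFinset.card = n := by
    rw [Multiset.toFinset_card_of_nodup (nodup_roots hsep),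
      (IsAlgClosed.splits (GZ ℂ a)).natDegree_eq_card_roots.symm, gz_natDegree a h0']
  let e := Finset.equivFinOfCardEq hcard
  have hinj : Function.Injective (fun i => (e.symm i : ℂ)) :=
    fun i j hij => e.symm.injective (Subtype.ext hij)
  have hmem : ∀ i, ((e.symm i : ℂ)) ∈ (GZ ℂ a).roots := fun i => by
    have := (e.symm i).2
    rwa [Multiset.mem_toFinset] at this
  refine ⟨fun i => (e.symm i : ℂ), hinj, fun i => ?_, ?_⟩
  · have := hmem i
    rw [mem_roots hne] at this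
    exact this
  · refine (Multiset.Nodup.ext (nodup_roots hsep) ?_).2 (fun z => ?_)
    · exact Multiset.Nodup.map hinj (Finset.nodup _)
    · constructor
      · intro hz
        have hz' : z ∈ (GZ ℂ a).roots.toFinset := by
          rwa [Multiset.mem_toFinset]
        rw [Multiset.mem_map]
        refine ⟨e ⟨z, hz'⟩, ?_, by simp⟩
        exact Finset.mem_univ (e ⟨z, hz'⟩)
      · intro hz
        rw [Multiset.mem_map] at hz
        obtain ⟨i, _, rfl⟩ := hz
        exact hmem i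

lemma hank_eq (F : ℂ[X]) (hmon : F.Monic) (hn : F.natDegree = n) (θ : Fin n → ℂ)
    (hθ : Function.Injective θ) (hr : ∀ i, F.eval (θ i) = 0) (δ : ℂ[X]) :
    Hank n F δ = (Matrix.of fun (j k : Fin n) => θ k ^ (j : ℕ)) *
      diagonal (fun k => δ.eval (θ k) / BG.Major.den θ k) *
      (Matrix.of fun (j k : Fin n) => θ k ^ (j : ℕ))ᵀ := by
  classical
  ext i j
  have hdeg : ((δ * X ^ ((i : ℕ) + j)) %ₘ F).degree < #(univ : Finset (Fin n)) := by
    refine (degree_modByMonic_lt _ hmon).trans_le ?_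
    rw [degree_eq_natDegree hmon.ne_zero, hn, card_univ, Fintype.card_fin]
  have h1 := Lagrange.coeff_eq_sum (s := (univ : Finset (Fin n))) (v := θ) (hθ.injOn) hdeg
  rw [card_univ, Fintype.card_fin] at h1
  unfold Hank
  rw [h1, Matrix.mul_apply]
  refine sum_congr rfl (fun k _ => ?_)
  have h2 : ((δ * X ^ ((i : ℕ) + j)) %ₘ F).eval (θ k) =
      δ.eval (θ k) * θ k ^ ((i : ℕ) + j) := by
    have h3 := modByMonic_add_div (δ * X ^ ((i : ℕ) + j)) F
    have h4 := congrArg (fun q => q.eval (θ k)) h3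
    simp only [eval_add, eval_mul, hr k, zero_mul, add_zero, eval_pow, eval_X] at h4
    exact h4
  rw [h2, Matrix.mul_diagonal, Matrix.transpose_apply, Matrix.of_apply, Matrix.of_apply]
  unfold BG.Major.den
  rw [pow_add]
  ring

/-- The Mahler measure of `f` in terms of the roots. -/
lemma mahler_le (a : Fin (n + 1) → ℤ) (H : ℝ) (hH : ∀ i, |(a i : ℝ)| ≤ H) :
    (GZ ℂ a).mahlerMeasure ≤ (n + 1) * H := by
  refine (mahlerMeasure_le_sum_norm_coeff _).trans ?_
  rw [Polynomial.sum_over_range' _ (fun i => norm_zero) (n + 1)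
    (Nat.lt_succ_of_le (gz_natDegree_le a))]
  have h1 : ∀ i ∈ range (n + 1), ‖(GZ ℂ a).coeff i‖ ≤ H := by
    intro i hi
    rw [mem_range] at hi
    have h2 := gz_coeff (R := ℂ) a ⟨n - i, by omega⟩
    have h3 : n - (n - i) = i := by omega
    simp only [h3] at h2
    rw [h2, Complex.norm_intCast]
    exact hH _
  refine (sum_le_sum h1).trans ?_
  rw [sum_const, card_range, nsmul_eq_mul]
  push_cast
  exact le_rfl

lemma coeff_le (a : Fin (n + 1) → ℤ) (h0 : a 0 ≠ 0) (i : Fin (n + 1)) :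
    |(a i : ℝ)| ≤ 2 ^ n * (GZ ℂ a).mahlerMeasure := by
  have h0' : (a 0 : ℂ) ≠ 0 := by exact_mod_cast h0
  have h1 := norm_coeff_le_choose_mul_mahlerMeasure (n - (i : ℕ)) (GZ ℂ a)
  rw [gz_coeff, Complex.norm_intCast, gz_natDegree a h0'] at h1
  refine h1.trans ?_
  refine mul_le_mul_of_nonneg_right ?_ (mahlerMeasure_nonneg _)
  exact_mod_cast Nat.choose_le_two_pow n (n - (i : ℕ))

lemma mahler_eq (a : Fin (n + 1) → ℤ) (h0 : a 0 ≠ 0) (θ : Fin n → ℂ)
    (hr : (GZ ℂ a).roots = (univ : Finset (Fin n)).val.map θ) :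
    (GZ ℂ a).mahlerMeasure = |(a 0 : ℝ)| * ∏ k, max 1 ‖θ k‖ := by
  have h0' : (a 0 : ℂ) ≠ 0 := by exact_mod_cast h0
  rw [mahlerMeasure_eq_leadingCoeff_mul_prod_roots, gz_lead a h0', Complex.norm_intCast, hr,
    Multiset.map_map]
  rfl

end Major

theorem majorant {n : ℕ} (hn : 2 ≤ n) (a : Fin (n + 1) → ℤ) (h0 : a 0 ≠ 0)
    (hF : Irreducible (GZ ℚ a)) (δ : ℚ[X]) (hδ : IsCoprime δ (GZ ℚ a))
    (A B : Matrix (Fin n) (Fin n) ℤ) (h : IsPair a δ A B)
    (hdet : A.det = (-1) ^ (n / 2) * a 0) (H : ℝ) (hH : ∀ i, |(a i : ℝ)| ≤ H) :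
    ∃ P : Matrix (Fin n) (Fin n) ℝ, P.PosDef ∧ P.det ≤ (n + 1) * H ∧
      (∀ i, |(a i : ℝ)| ≤ 2 ^ n * P.det) ∧
      (∀ u v : Fin n → ℝ, (u ⬝ᵥ (A.map (Int.cast : ℤ → ℝ)) *ᵥ v) ^ 2 ≤
        (u ⬝ᵥ P *ᵥ u) * (v ⬝ᵥ P *ᵥ v)) ∧
      (∀ u v : Fin n → ℝ, (u ⬝ᵥ (B.map (Int.cast : ℤ → ℝ)) *ᵥ v) ^ 2 ≤
        (u ⬝ᵥ P *ᵥ u) * (v ⬝ᵥ P *ᵥ v)) := by
  classical
  have _ := hn
  have _ := hδ
  have h0' : (a 0 : ℂ) ≠ 0 := by exact_mod_cast h0
  have h0Q : (a 0 : ℚ) ≠ 0 := by exact_mod_cast h0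
  obtain ⟨θ, hθ, hr, hroots⟩ := Major.exists_roots a h0 hF
  obtain ⟨G, hG, hGA, hGB⟩ := h
  have hAdet : A.det ≠ 0 := by
    rw [hdet]
    exact mul_ne_zero (pow_ne_zero _ (by norm_num)) h0
  -- the conjugation of the roots
  have hm : (GZ ℚ a).map (algebraMap ℚ ℂ) = GZ ℂ a := Major.gz_map _ a
  have hmm : (mon ℚ a).map (algebraMap ℚ ℂ) = mon ℂ a := Major.mon_map _ a
  have hmr : ∀ i, (mon ℂ a).eval (θ i) = 0 := fun i => (Major.mon_eval a h0' _).2 (hr i)
  have hσ0 : ∀ i, ∃ j, θ j = (starRingEnd ℂ) (θ i) := by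
    intro i
    have h1 : (GZ ℂ a).eval ((starRingEnd ℂ) (θ i)) = 0 := by
      rw [← hm, BG.Major.eval_conj, hm, hr i, map_zero]
    have h2 : (starRingEnd ℂ) (θ i) ∈ (GZ ℂ a).roots := by
      rw [mem_roots]
      · exact h1
      · rw [← leadingCoeff_ne_zero, Major.gz_lead a h0']
        exact h0'
    rw [hroots, Multiset.mem_map] at h2
    obtain ⟨j, _, hj⟩ := h2
    exact ⟨j, hj⟩
  choose σ0 hσ0 using hσ0
  have hσinj : Function.Injective σ0 := by
    intro i j hij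
    apply hθ
    have h1 := hσ0 i
    rw [hij, hσ0 j] at h1
    exact (starRingEnd ℂ).injective h1.symm
  let σ : Equiv.Perm (Fin n) := Equiv.ofBijective σ0 (Finite.injective_iff_bijective.1 hσinj)
  have hσ : ∀ i, θ (σ i) = (starRingEnd ℂ) (θ i) := hσ0
  set D : Fin n → ℂ := fun k =>
    (a 0 : ℂ)⁻¹ * ((δ.map (algebraMap ℚ ℂ)).eval (θ k) / BG.Major.den θ k) with hD
  have hden : ∀ k, BG.Major.den θ (σ k) = (starRingEnd ℂ) (BG.Major.den θ k) := by
    intro k
    unfold BG.Major.den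
    rw [map_prod]
    symm
    refine Finset.prod_equiv σ (fun j => ?_) (fun j _ => ?_)
    · simp
    · rw [map_sub, hσ, hσ]
  have hDσ : ∀ k, ‖D (σ k)‖ = ‖D k‖ := by
    intro k
    simp only [hD]
    rw [hσ, BG.Major.eval_conj, hden, ← map_div₀, norm_mul, norm_mul]
    congr 1
    exact Complex.norm_conj _
  have hθσ : ∀ k, ‖θ (σ k)‖ = ‖θ k‖ := by
    intro k
    rw [hσ]
    exact Complex.norm_conj _
  set V : Matrix (Fin n) (Fin n) ℂ := Matrix.of fun (j k : Fin n) => θ k ^ (j : ℕ) with hV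
  set W : Matrix (Fin n) (Fin n) ℂ := G.map (algebraMap ℚ ℂ) * V with hW
  have hWσ : ∀ i k, W i (σ k) = (starRingEnd ℂ) (W i k) := by
    intro i k
    simp only [hW, Matrix.mul_apply, map_sum, map_mul]
    refine sum_congr rfl (fun j _ => ?_)
    rw [hV, Matrix.of_apply, Matrix.of_apply, hσ, map_pow, Matrix.map_apply]
    congr 1
    simp
  have hgen : ∀ (M : Matrix (Fin n) (Fin n) ℤ) (η : ℚ[X]),
      M.map (Int.cast : ℤ → ℚ) = (a 0 : ℚ)⁻¹ • (G * Hank n (mon ℚ a) η * Gᵀ) →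
      M.map (Int.cast : ℤ → ℂ) = W * diagonal (fun k =>
        (a 0 : ℂ)⁻¹ * ((η.map (algebraMap ℚ ℂ)).eval (θ k) / BG.Major.den θ k)) * Wᵀ := by
    intro M η hM
    have h1 : M.map (Int.cast : ℤ → ℂ) =
        (M.map (Int.cast : ℤ → ℚ)).map (algebraMap ℚ ℂ) := by
      ext i j
      simp
    have h2 : (diagonal (fun k =>
        (a 0 : ℂ)⁻¹ * ((η.map (algebraMap ℚ ℂ)).eval (θ k) / BG.Major.den θ k)) :
        Matrix (Fin n) (Fin n) ℂ) = (a 0 : ℂ)⁻¹ • diagonal (fun k =>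
          (η.map (algebraMap ℚ ℂ)).eval (θ k) / BG.Major.den θ k) := by
      rw [← Matrix.diagonal_smul]
      rfl
    have h3 : ((a 0 : ℚ)⁻¹ • (G * Hank n (mon ℚ a) η * Gᵀ)).map (algebraMap ℚ ℂ) =
        (a 0 : ℂ)⁻¹ • ((G * Hank n (mon ℚ a) η * Gᵀ).map (algebraMap ℚ ℂ)) := by
      ext i j
      rw [Matrix.map_apply, Matrix.smul_apply, Matrix.smul_apply, Matrix.map_apply,
        smul_eq_mul, smul_eq_mul, map_mul, map_inv₀, map_intCast]
    rw [h1, hM, h3, Matrix.map_mul, Matrix.map_mul,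
      ← hank_map _ _ _ (Major.mon_monic a h0Q), hmm,
      Major.hank_eq (mon ℂ a) (Major.mon_monic a h0') (Major.mon_natDegree a h0') θ hθ hmr, hW,
      Matrix.transpose_map, Matrix.transpose_mul, h2]
    simp only [Matrix.mul_assoc, hV, Matrix.mul_smul, Matrix.smul_mul]
  have hA : A.map (Int.cast : ℤ → ℂ) = W * diagonal D * Wᵀ := hgen A δ hGA
  have hB : B.map (Int.cast : ℤ → ℂ) = W * diagonal (fun k => θ k * D k) * Wᵀ := by
    rw [hgen B (X * δ) hGB]
    congr 3
    funext k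
    simp only [hD, Polynomial.map_mul, Polynomial.map_X, eval_mul, eval_X]
    ring
  set e : Fin n → ℝ := fun k => max 1 ‖θ k‖ * ‖D k‖ with he
  set E : Fin n → ℂ := fun k => (e k : ℂ) with hE
  have heσ : ∀ k, e (σ k) = e k := by
    intro k
    simp only [he, hDσ, hθσ]
  have he0 : ∀ k, 0 ≤ e k := fun k => by
    simp only [he]
    positivity
  set Q : Matrix (Fin n) (Fin n) ℂ := W * diagonal E * Wᴴ with hQ
  have hQe : ∀ i j, Q i j = ∑ k, E k * (W i k * (starRingEnd ℂ) (W j k)) := by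
    intro i j
    rw [hQ, Matrix.mul_apply]
    refine sum_congr rfl (fun k _ => ?_)
    rw [Matrix.mul_diagonal, Matrix.conjTranspose_apply]
    simp only [RCLike.star_def]
    ring
  have hQr : ∀ i j, (starRingEnd ℂ) (Q i j) = Q i j := by
    intro i j
    rw [hQe, map_sum, ← Equiv.sum_comp σ]
    refine sum_congr rfl (fun k _ => ?_)
    rw [map_mul, map_mul, hWσ, hWσ]
    simp only [hE, heσ, Complex.conj_conj, Complex.conj_ofReal]
  set P : Matrix (Fin n) (Fin n) ℝ := Q.map Complex.re with hP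
  have hPQ : P.map (Complex.ofRealHom) = Q := by
    ext i j
    rw [hP, Matrix.map_apply, Matrix.map_apply]
    exact Complex.conj_eq_iff_re.1 (hQr i j)
  have hdP : (P.det : ℂ) = Q.det := by
    rw [← hPQ]
    exact (RingHom.map_det Complex.ofRealHom P)
  have hdA : ((A.det : ℝ) : ℂ) = W.det * (∏ k, D k) * W.det := by
    have h1 : ((A.det : ℝ) : ℂ) = (A.map (Int.cast : ℤ → ℂ)).det := by
      have := RingHom.map_det (Int.castRingHom ℂ) A
      simpa using this
    rw [h1, hA, Matrix.det_mul, Matrix.det_mul, Matrix.det_diagonal, Matrix.det_transpose]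
  have hdQ : Q.det = W.det * (∏ k, E k) * (starRingEnd ℂ) W.det := by
    rw [hQ, Matrix.det_mul, Matrix.det_mul, Matrix.det_diagonal, Matrix.det_conjTranspose]
    rfl
  have hnd : W.det * (∏ k, D k) * W.det ≠ 0 := by
    rw [← hdA]
    exact_mod_cast hAdet
  have hWdet : W.det ≠ 0 := right_ne_zero_of_mul hnd
  have hDne : ∀ k, D k ≠ 0 := by
    have := right_ne_zero_of_mul (left_ne_zero_of_mul hnd)
    intro k
    exact Finset.prod_ne_zero_iff.1 this k (mem_univ k)
  have hepos : ∀ k, 0 < e k := fun k => by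
    have h1 : 0 < ‖D k‖ := norm_pos_iff.2 (hDne k)
    simp only [he]
    positivity
  -- the determinant
  have hPdet : P.det = (GZ ℂ a).mahlerMeasure := by
    have h1 : ‖((A.det : ℝ) : ℂ)‖ = |(a 0 : ℝ)| := by
      rw [Complex.norm_real, Real.norm_eq_abs, hdet]
      push_cast
      rw [abs_mul, abs_pow, abs_neg, abs_one, one_pow, one_mul]
    have h2 : ((P.det : ℝ) : ℂ) = (((GZ ℂ a).mahlerMeasure : ℝ) : ℂ) := by
      rw [hdP, hdQ, Major.mahler_eq a h0 θ hroots, ← h1, hdA, norm_mul, norm_mul, norm_prod]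
      have : W.det * (starRingEnd ℂ) W.det = ((‖W.det‖ ^ 2 : ℝ) : ℂ) := by
        rw [Complex.mul_conj, Complex.normSq_eq_norm_sq]
      calc W.det * (∏ k, E k) * (starRingEnd ℂ) W.det
          = (W.det * (starRingEnd ℂ) W.det) * ∏ k, E k := by ring
        _ = _ := by
          rw [this]
          simp only [hE, he]
          push_cast
          rw [Finset.prod_mul_distrib]
          ring
    exact_mod_cast h2
  -- the values
  have hcast : ∀ (R : Matrix (Fin n) (Fin n) ℝ) (u v : Fin n → ℝ),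
      ((u ⬝ᵥ R *ᵥ v : ℝ) : ℂ) = (fun i => (u i : ℂ)) ⬝ᵥ (R.map Complex.ofRealHom) *ᵥ
        (fun i => (v i : ℂ)) := by
    intro R u v
    simp [dotProduct, mulVec]
  set b : (Fin n → ℝ) → Fin n → ℂ := fun u => (fun i => (u i : ℂ)) ᵥ* W with hb
  have hPu : ∀ u : Fin n → ℝ, u ⬝ᵥ P *ᵥ u = ∑ k, e k * ‖b u k‖ ^ 2 := by
    intro u
    have h1 : ((u ⬝ᵥ P *ᵥ u : ℝ) : ℂ) = ((∑ k, e k * ‖b u k‖ ^ 2 : ℝ) : ℂ) := by
      rw [hcast, hPQ, hQ, BG.Major.quadH _ _ _ _ (fun i => Complex.conj_ofReal _)]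
      push_cast
      refine sum_congr rfl (fun k _ => ?_)
      rw [mul_assoc, Complex.mul_conj, Complex.normSq_eq_norm_sq]
      push_cast
      rfl
    exact_mod_cast h1
  have hAu : ∀ u v : Fin n → ℝ, ((u ⬝ᵥ (A.map (Int.cast : ℤ → ℝ)) *ᵥ v : ℝ) : ℂ) =
      ∑ k, D k * b u k * b v k := by
    intro u v
    have h1 : (A.map (Int.cast : ℤ → ℝ)).map Complex.ofRealHom = A.map (Int.cast : ℤ → ℂ) := by
      ext i j
      simp
    rw [hcast, h1, hA, BG.Major.quad]
  have hBu : ∀ u v : Fin n → ℝ, ((u ⬝ᵥ (B.map (Int.cast : ℤ → ℝ)) *ᵥ v : ℝ) : ℂ) =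
      ∑ k, θ k * D k * b u k * b v k := by
    intro u v
    have h1 : (B.map (Int.cast : ℤ → ℝ)).map Complex.ofRealHom = B.map (Int.cast : ℤ → ℂ) := by
      ext i j
      simp
    rw [hcast, h1, hB, BG.Major.quad]
  have hCS : ∀ u v : Fin n → ℝ, (∑ k, e k * ‖b u k‖ * ‖b v k‖) ^ 2 ≤
      (u ⬝ᵥ P *ᵥ u) * (v ⬝ᵥ P *ᵥ v) := by
    intro u v
    rw [hPu, hPu]
    refine Finset.sum_sq_le_sum_mul_sum_of_sq_le_mul _
      (fun k _ => mul_nonneg (he0 k) (by positivity))
      (fun k _ => mul_nonneg (he0 k) (by positivity)) (fun k _ => le_of_eq (by ring))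
  refine ⟨P, ?_, ?_, ?_, ?_, ?_⟩
  · refine Matrix.PosDef.of_dotProduct_mulVec_pos ?_ (fun u hu => ?_)
    · ext i j
      rw [Matrix.conjTranspose_apply, star_trivial]
      have h1 : Q j i = Q i j := by
        rw [← hQr j i, hQe, hQe, map_sum]
        refine sum_congr rfl (fun k _ => ?_)
        simp only [map_mul, hE, Complex.conj_ofReal, Complex.conj_conj]
        ring
      rw [hP, Matrix.map_apply, Matrix.map_apply, h1]
    · rw [star_trivial, hPu]
      have hne : b u ≠ 0 := by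
        intro h0
        apply hu
        have h1 : (fun i => (u i : ℂ)) = 0 := by
          refine Matrix.eq_zero_of_vecMul_eq_zero hWdet h0
        funext i
        have := congrFun h1 i
        simpa using this
      obtain ⟨k, hk⟩ := Function.ne_iff.1 hne
      refine Finset.sum_pos' (fun k _ => mul_nonneg (he0 k) (by positivity))
        ⟨k, mem_univ k, ?_⟩
      have h1 : 0 < e k := hepos k
      have h2 : 0 < ‖b u k‖ := norm_pos_iff.2 hk
      positivity
  · rw [hPdet]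
    exact Major.mahler_le a H hH
  · intro i
    rw [hPdet]
    exact Major.coeff_le a h0 i
  · intro u v
    refine le_trans ?_ (hCS u v)
    rw [← sq_abs]
    refine pow_le_pow_left₀ (abs_nonneg _) ?_ 2
    rw [← Real.norm_eq_abs, ← Complex.norm_real, hAu]
    refine (norm_sum_le _ _).trans (sum_le_sum (fun k _ => ?_))
    rw [norm_mul, norm_mul]
    refine mul_le_mul_of_nonneg_right (mul_le_mul_of_nonneg_right ?_ (norm_nonneg _))
      (norm_nonneg _)
    simp only [he]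
    exact le_mul_of_one_le_left (norm_nonneg _) (le_max_left _ _)
  · intro u v
    refine le_trans ?_ (hCS u v)
    rw [← sq_abs]
    refine pow_le_pow_left₀ (abs_nonneg _) ?_ 2
    rw [← Real.norm_eq_abs, ← Complex.norm_real, hBu]
    refine (norm_sum_le _ _).trans (sum_le_sum (fun k _ => ?_))
    rw [norm_mul, norm_mul, norm_mul]
    refine mul_le_mul_of_nonneg_right (mul_le_mul_of_nonneg_right ?_ (norm_nonneg _))
      (norm_nonneg _)
    simp only [he]
    exact mul_le_mul_of_nonneg_right (le_max_right _ _) (norm_nonneg _)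

end Stoll308.BF
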