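import Pool.Agent.Work.MP_308fa9_nt.BF.LocLat
import Pool.Agent.Work.MP_308fa9_nt.BG.Glue

set_option autoImplicit false

/-!
Existence of an integral pair of forms in a class which is locally everywhere the class of a point.
-/

namespace Stoll308.BF

open Polynomial Finset Matrix BG

namespace PairEx

/-! ### The monic multiple -/

lemma GZ_map {R S : Type*} [CommRing R] [CommRing S] {n : ℕ} (f : R →+* S)
    (a : Fin (n + 1) → ℤ) : (GZ R a).map f = GZ S a := by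
  unfold GZ gpol
  rw [Polynomial.map_sum]
  refine Finset.sum_congr rfl fun i _ => ?_
  rw [Polynomial.map_mul, Polynomial.map_pow, map_X, map_C, map_intCast]

lemma GZ_coeff {R : Type*} [CommRing R] {n : ℕ} (a : Fin (n + 1) → ℤ) :
    (GZ R a).coeff n = (a 0 : R) := by
  unfold GZ gpol
  rw [finsetSum_coeff, Finset.sum_eq_single (0 : Fin (n + 1))]
  · rw [coeff_C_mul, coeff_X_pow, if_pos (by simp), mul_one]
  · intro i _ hi
    rw [coeff_C_mul, coeff_X_pow, if_neg, mul_zero]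
    have h1 : (i : ℕ) ≠ 0 := fun h => hi (Fin.ext h)
    have h2 := i.2
    omega
  · intro h
    exact absurd (Finset.mem_univ _) h

lemma GZ_natDegree_le {R : Type*} [CommRing R] {n : ℕ} (a : Fin (n + 1) → ℤ) :
    (GZ R a).natDegree ≤ n := by
  unfold GZ gpol
  refine natDegree_sum_le_of_forall_le _ _ fun i _ => ?_
  exact (natDegree_C_mul_X_pow_le _ _).trans (Nat.sub_le _ _)

lemma mon_coeff {K : Type*} [Field K] {n : ℕ} (a : Fin (n + 1) → ℤ) (h0 : (a 0 : K) ≠ 0) :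
    (mon K a).coeff n = 1 := by
  unfold mon
  rw [coeff_C_mul, GZ_coeff, inv_mul_cancel₀ h0]

lemma mon_natDegree {K : Type*} [Field K] {n : ℕ} (a : Fin (n + 1) → ℤ) (h0 : (a 0 : K) ≠ 0) :
    (mon K a).natDegree = n := by
  apply natDegree_eq_of_le_of_coeff_ne_zero
  · unfold mon
    exact (natDegree_C_mul_le _ _).trans (GZ_natDegree_le a)
  · rw [mon_coeff a h0]
    exact one_ne_zero

lemma mon_monic {K : Type*} [Field K] {n : ℕ} (a : Fin (n + 1) → ℤ) (h0 : (a 0 : K) ≠ 0) :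
    (mon K a).Monic := by
  rw [Monic, leadingCoeff, mon_natDegree a h0, mon_coeff a h0]

lemma mon_map {K L : Type*} [Field K] [Field L] {n : ℕ} (f : K →+* L)
    (a : Fin (n + 1) → ℤ) : (mon K a).map f = mon L a := by
  unfold mon
  rw [Polynomial.map_mul, GZ_map, map_C, map_inv₀, map_intCast]

lemma mon_dvd {K : Type*} [Field K] {n : ℕ} (a : Fin (n + 1) → ℤ) (h0 : (a 0 : K) ≠ 0) {g : K[X]}
    (h : GZ K a ∣ g) : mon K a ∣ g := by
  unfold mon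
  have hu : IsUnit (C ((a 0 : K)⁻¹) : K[X]) := isUnit_C.2 (isUnit_iff_ne_zero.2 (inv_ne_zero h0))
  exact (hu.mul_left_dvd).2 h

/-! ### Integrality -/

/-- A rational number which is integral at all primes is an integer. -/
lemma int_of_norm_le_one (q : ℚ)
    (h : ∀ (p : ℕ) [Fact p.Prime], ‖algebraMap ℚ ℚ_[p] q‖ ≤ 1) : ∃ z : ℤ, (z : ℚ) = q := by
  refine ⟨q.num, ?_⟩
  rw [← Rat.den_eq_one_iff]
  by_contra hd
  obtain ⟨p, hp, hpd⟩ := Nat.exists_prime_and_dvd hd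
  have : Fact p.Prime := ⟨hp⟩
  have h1 := h p
  rw [eq_ratCast] at h1
  have h2 : (q : ℚ_[p]) * (q.den : ℚ_[p]) = (q.num : ℚ_[p]) := by
    have := Rat.mul_den_eq_num q
    exact_mod_cast congrArg (fun x : ℚ => (x : ℚ_[p])) this
  have h3 : ‖(q.den : ℚ_[p])‖ < 1 := Padic.norm_natCast_lt_one_iff.2 hpd
  have h4 : ‖(q.num : ℚ_[p])‖ < 1 := by
    rw [← h2, norm_mul]
    calc ‖(q : ℚ_[p])‖ * ‖(q.den : ℚ_[p])‖ ≤ 1 * ‖(q.den : ℚ_[p])‖ :=
          mul_le_mul_of_nonneg_right h1 (norm_nonneg _)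
      _ < 1 := by rw [one_mul]; exact h3
  have h5 : (p : ℤ) ∣ q.num := Padic.norm_intCast_lt_one_iff.1 h4
  have h6 : p ∣ q.num.natAbs := Int.natCast_dvd.1 h5
  have h7 := Nat.dvd_gcd h6 hpd
  rw [Nat.Coprime.gcd_eq_one q.reduced] at h7
  exact hp.one_lt.ne' (Nat.dvd_one.1 h7)

/-- Entries of a product of integral matrices. -/
lemma norm_mul_le_one {n : ℕ} {p : ℕ} [Fact p.Prime] {U V : Matrix (Fin n) (Fin n) ℚ_[p]}
    (hU : ∀ i j, ‖U i j‖ ≤ 1) (hV : ∀ i j, ‖V i j‖ ≤ 1) (i j : Fin n) : ‖(U * V) i j‖ ≤ 1 := by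
  rw [mul_apply]
  refine IsUltrametricDist.norm_sum_le_of_forall_le_of_nonneg zero_le_one fun k _ => ?_
  rw [norm_mul]
  exact mul_le_one₀ (hU i k) (norm_nonneg _) (hV k j)

lemma norm_congr_le_one {n : ℕ} {p : ℕ} [Fact p.Prime] {U V : Matrix (Fin n) (Fin n) ℚ_[p]}
    (hU : ∀ i j, ‖U i j‖ ≤ 1) (hV : ∀ i j, ‖V i j‖ ≤ 1) (i j : Fin n) :
    ‖(U * V * Uᵀ) i j‖ ≤ 1 :=
  norm_mul_le_one (norm_mul_le_one hU hV) (fun i j => hU j i) i j

lemma norm_congr_det {n : ℕ} {p : ℕ} [Fact p.Prime] {U V : Matrix (Fin n) (Fin n) ℚ_[p]}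
    (hU : ‖U.det‖ = 1) : ‖(U * V * Uᵀ).det‖ = ‖V.det‖ := by
  rw [det_mul, det_mul, det_transpose, norm_mul, norm_mul, hU]; ring

/-- A rational number is a unit outside a finite set of primes. -/
lemma norm_eq_one {q : ℚ} {p : ℕ} [Fact p.Prime] (h1 : ¬ p ∣ q.den) (h2 : ¬ p ∣ q.num.natAbs) :
    ‖algebraMap ℚ ℚ_[p] q‖ = 1 := by
  rw [eq_ratCast]
  have h3 : (q : ℚ_[p]) * (q.den : ℚ_[p]) = (q.num : ℚ_[p]) := by
    exact_mod_cast congrArg (fun x : ℚ => (x : ℚ_[p])) (Rat.mul_den_eq_num q)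
  have h4 : ‖(q.num : ℚ_[p])‖ = 1 := by
    refine le_antisymm (Padic.norm_int_le_one _) ?_
    by_contra h
    rw [not_le] at h
    have h5 : (p : ℤ) ∣ q.num := Padic.norm_intCast_lt_one_iff.1 h
    exact h2 (Int.natCast_dvd.1 h5)
  refine le_antisymm (Padic.norm_rat_le_one h1) ?_
  rw [← h4, ← h3, norm_mul]
  have h6 : ‖(q.den : ℚ_[p])‖ ≤ 1 := by
    have := Padic.norm_int_le_one (p := p) (q.den : ℤ)
    rwa [Int.cast_natCast] at this
  exact mul_le_of_le_one_right (norm_nonneg _) h6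

/-- The primes at which the identity does not work. -/
lemma exists_finset {n : ℕ} (κ : ℚ) (hκ : κ ≠ 0) (H H1 : Matrix (Fin n) (Fin n) ℚ)
    (hH : H.det ≠ 0) :
    ∃ S : Finset ℕ, ∀ (p : ℕ) [Fact p.Prime], p ∉ S →
      (∀ i j, ‖(H.map (algebraMap ℚ ℚ_[p])) i j‖ ≤ 1) ∧
      (∀ i j, ‖(H1.map (algebraMap ℚ ℚ_[p])) i j‖ ≤ 1) ∧
      ‖(H.map (algebraMap ℚ ℚ_[p])).det‖ = ‖algebraMap ℚ ℚ_[p] κ‖ := by
  obtain ⟨N, hN⟩ : ∃ N : ℕ, N = (∏ i, ∏ j, (H i j).den) * (∏ i, ∏ j, (H1 i j).den) *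
    (H.det.num.natAbs * H.det.den * (κ.num.natAbs * κ.den)) := ⟨_, rfl⟩
  have hN0 : N ≠ 0 := by
    rw [hN]
    refine mul_ne_zero (mul_ne_zero ?_ ?_) (mul_ne_zero (mul_ne_zero ?_ ?_) (mul_ne_zero ?_ ?_))
    · exact Finset.prod_ne_zero_iff.2 fun i _ => Finset.prod_ne_zero_iff.2 fun j _ =>
        (H i j).den_nz
    · exact Finset.prod_ne_zero_iff.2 fun i _ => Finset.prod_ne_zero_iff.2 fun j _ =>
        (H1 i j).den_nz
    · exact Int.natAbs_ne_zero.2 (Rat.num_ne_zero.2 hH)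
    · exact H.det.den_nz
    · exact Int.natAbs_ne_zero.2 (Rat.num_ne_zero.2 hκ)
    · exact κ.den_nz
  refine ⟨N.primeFactors, ?_⟩
  intro p hp hpN
  have hpN' : ¬ p ∣ N := fun h => hpN (Nat.mem_primeFactors.2 ⟨hp.out, h, hN0⟩)
  rw [hN] at hpN'
  refine ⟨fun i j => ?_, fun i j => ?_, ?_⟩
  · rw [map_apply, eq_ratCast]
    refine Padic.norm_rat_le_one fun h => hpN' ?_
    refine Dvd.dvd.mul_right (Dvd.dvd.mul_right (h.trans ?_) _) _
    exact (Finset.dvd_prod_of_mem (fun j => (H i j).den) (mem_univ j)).trans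
      (Finset.dvd_prod_of_mem (fun i => ∏ j, (H i j).den) (mem_univ i))
  · rw [map_apply, eq_ratCast]
    refine Padic.norm_rat_le_one fun h => hpN' ?_
    refine Dvd.dvd.mul_right (Dvd.dvd.mul_left (h.trans ?_) _) _
    exact (Finset.dvd_prod_of_mem (fun j => (H1 i j).den) (mem_univ j)).trans
      (Finset.dvd_prod_of_mem (fun i => ∏ j, (H1 i j).den) (mem_univ i))
  · have h2 : (H.map (algebraMap ℚ ℚ_[p])).det = algebraMap ℚ ℚ_[p] H.det := by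
      rw [← RingHom.mapMatrix_apply, ← RingHom.map_det]
    rw [h2, norm_eq_one, norm_eq_one]
    · exact fun h => hpN' (Dvd.dvd.mul_left (Dvd.dvd.mul_left (Dvd.dvd.mul_left h _) _) _)
    · exact fun h => hpN' (Dvd.dvd.mul_left (Dvd.dvd.mul_left (Dvd.dvd.mul_right h _) _) _)
    · exact fun h => hpN' (Dvd.dvd.mul_left (Dvd.dvd.mul_right (Dvd.dvd.mul_left h _) _) _)
    · exact fun h => hpN' (Dvd.dvd.mul_left (Dvd.dvd.mul_right (Dvd.dvd.mul_right h _) _) _)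

lemma smul_congr {n : ℕ} {K : Type*} [CommRing K] (c : K) (G H : Matrix (Fin n) (Fin n) K) :
    c • (G * H * Gᵀ) = G * (c • H) * Gᵀ := by
  rw [Matrix.mul_smul, Matrix.smul_mul]

/-- The determinant of the rational matrix. -/
lemma det_smul_congr {n : ℕ} {K : Type*} [CommRing K] (c : K) (G H : Matrix (Fin n) (Fin n) K) :
    (c • (G * H * Gᵀ)).det = c ^ n * (G.det ^ 2 * H.det) := by
  rw [Matrix.det_smul, Fintype.card_fin, det_mul, det_mul, det_transpose]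
  ring

lemma triangle_even {n : ℕ} (he : Even n) :
    ((-1 : ℝ)) ^ (n * (n - 1) / 2) = (-1) ^ (n / 2) := by
  obtain ⟨m, rfl⟩ := he
  have h1 : (m + m) * (m + m - 1) / 2 = m * (m + m - 1) := by
    rw [show (m + m) * (m + m - 1) = 2 * (m * (m + m - 1)) by ring, Nat.mul_div_cancel_left _
      (by norm_num)]
  have h2 : (m + m) / 2 = m := by omega
  rw [h1, h2]
  obtain _ | k := m
  · simp
  · have h3 : (k + 1) * (k + 1 + (k + 1) - 1) = 2 * (k * (k + 1)) + (k + 1) := by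
      have : k + 1 + (k + 1) - 1 = 2 * k + 1 := by omega
      rw [this]; ring
    rw [h3, pow_add, pow_mul, neg_one_sq, one_pow, one_mul]

end PairEx

open PairEx

lemma IsPair.conj {n : ℕ} {a : Fin (n + 1) → ℤ} {δ : ℚ[X]} {A B U : Matrix (Fin n) (Fin n) ℤ}
    (h : IsPair a δ A B) (hU : IsUnit U.det) : IsPair a δ (U * A * Uᵀ) (U * B * Uᵀ) := by
  obtain ⟨G, hG, hA, hB⟩ := h
  have key : ∀ M : Matrix (Fin n) (Fin n) ℤ, (U * M * Uᵀ).map (Int.cast : ℤ → ℚ) =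
      U.map (Int.cast : ℤ → ℚ) * M.map (Int.cast : ℤ → ℚ) * (U.map (Int.cast : ℤ → ℚ))ᵀ := by
    intro M
    have e := (Int.castRingHom ℚ).mapMatrix.map_mul (U * M) Uᵀ
    have e2 := (Int.castRingHom ℚ).mapMatrix.map_mul U M
    rw [e2] at e
    exact e
  refine ⟨U.map (Int.cast : ℤ → ℚ) * G, ?_, ?_, ?_⟩
  · rw [Matrix.det_mul, HankL.det_cast]
    refine mul_ne_zero ?_ hG
    exact_mod_cast hU.ne_zero
  · rw [key, hA, Matrix.transpose_mul, Matrix.mul_smul, Matrix.smul_mul]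
    simp only [Matrix.mul_assoc]
  · rw [key, hB, Matrix.transpose_mul, Matrix.mul_smul, Matrix.smul_mul]
    simp only [Matrix.mul_assoc]

lemma IsPair.symmA {n : ℕ} {a : Fin (n + 1) → ℤ} {δ : ℚ[X]} {A B : Matrix (Fin n) (Fin n) ℤ}
    (h : IsPair a δ A B) : A.IsSymm := by
  obtain ⟨G, _, h1, _⟩ := h
  apply HankL.map_symm
  rw [h1]
  exact (HankL.conj_symm (hank_isSymm _ _)).smul _

lemma IsPair.symmB {n : ℕ} {a : Fin (n + 1) → ℤ} {δ : ℚ[X]} {A B : Matrix (Fin n) (Fin n) ℤ}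
    (h : IsPair a δ A B) : B.IsSymm := by
  obtain ⟨G, _, _, h1⟩ := h
  apply HankL.map_symm
  rw [h1]
  exact (HankL.conj_symm (hank_isSymm _ _)).smul _

lemma IsPair.hasChar {n : ℕ} {a : Fin (n + 1) → ℤ} (h0 : a 0 ≠ 0) {δ : ℚ[X]}
    {A B : Matrix (Fin n) (Fin n) ℤ} (h : IsPair a δ A B) (hd : A.det = (-1) ^ (n / 2) * a 0) :
    HasChar a A B := by
  obtain ⟨G, hG, hA, hB⟩ := h
  have h0' : ((a 0 : ℤ) : ℚ) ≠ 0 := by exact_mod_cast h0
  have hFm : (mon ℚ a).Monic := mon_monic a h0'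
  have hFn : (mon ℚ a).natDegree = n := mon_natDegree a h0'
  have hdet : ((A.det : ℤ) : ℚ) = ((a 0 : ℚ)⁻¹) ^ n *
      (G.det ^ 2 * (Hank n (mon ℚ a) δ).det) := by
    rw [← HankL.det_cast, hA, det_smul_congr]
  unfold HasChar
  apply Polynomial.map_injective (Int.castRingHom ℚ) Int.cast_injective
  rw [Polynomial.map_mul, map_C, GZ_map, ← coe_mapRingHom, RingHom.map_det]
  have e1 : (mapRingHom (Int.castRingHom ℚ)).mapMatrix
      ((X : ℤ[X]) • A.map C - B.map C) =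
      (C ((a 0 : ℚ)⁻¹) : ℚ[X]) • (G.map C * ((X : ℚ[X]) • (Hank n (mon ℚ a) δ).map C -
        (Hank n (mon ℚ a) (X * δ)).map C) * (G.map C)ᵀ) := by
    have e2 : (mapRingHom (Int.castRingHom ℚ)).mapMatrix ((X : ℤ[X]) • A.map C - B.map C) =
        (X : ℚ[X]) • (A.map (Int.cast : ℤ → ℚ)).map C - (B.map (Int.cast : ℤ → ℚ)).map C := by
      ext i j : 2
      rw [RingHom.mapMatrix_apply, Matrix.map_apply, Matrix.sub_apply, Matrix.smul_apply,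
        Matrix.map_apply, Matrix.map_apply, Matrix.sub_apply, Matrix.smul_apply,
        Matrix.map_apply, Matrix.map_apply, Matrix.map_apply, Matrix.map_apply, smul_eq_mul,
        smul_eq_mul, map_sub, map_mul, coe_mapRingHom, map_X, map_C, map_C]
      rfl
    have e5 : ∀ M : Matrix (Fin n) (Fin n) ℚ, ((a 0 : ℚ)⁻¹ • M).map (C : ℚ →+* ℚ[X]) =
        (C ((a 0 : ℚ)⁻¹) : ℚ[X]) • M.map (C : ℚ →+* ℚ[X]) := by
      intro M
      ext i j : 2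
      rw [Matrix.map_apply, Matrix.smul_apply, Matrix.smul_apply, Matrix.map_apply, smul_eq_mul,
        smul_eq_mul, C_mul]
    have e6 : ∀ M : Matrix (Fin n) (Fin n) ℚ, (G * M * Gᵀ).map (C : ℚ →+* ℚ[X]) =
        G.map C * M.map C * (G.map (C : ℚ →+* ℚ[X]))ᵀ := by
      intro M
      rw [Matrix.map_mul, Matrix.map_mul, Matrix.transpose_map]
    rw [e2, hA, hB, e5, e5, e6, e6, smul_comm, ← smul_sub, Matrix.mul_sub, Matrix.sub_mul,
      Matrix.mul_smul, Matrix.smul_mul]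
  have e3 : ((G.map (C : ℚ →+* ℚ[X]))).det = C G.det := by
    rw [RingHom.map_det]
    rfl
  rw [e1, det_smul_congr, e3, hank_char (mon ℚ a) δ hFm hFn]
  have e4 : (C ((a 0 : ℚ)⁻¹) : ℚ[X]) ^ n * (C G.det ^ 2 *
      (C (Hank n (mon ℚ a) δ).det * mon ℚ a)) = C ((A.det : ℤ) : ℚ) * mon ℚ a := by
    rw [hdet]
    simp only [C_mul, C_pow]
    ring
  rw [e4, hd]
  unfold mon
  rw [← mul_assoc, ← C_mul]
  congr 2
  push_cast
  rw [mul_assoc, mul_inv_cancel₀ h0', mul_one]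
  simp

theorem exists_pair {n : ℕ} (hn : 4 ≤ n) (he : Even n) (a : Fin (n + 1) → ℤ) (h0 : a 0 ≠ 0)
    (hl : a (Fin.last n) ≠ 0) (δ : ℚ[X]) (hδ : IsCoprime δ (GZ ℚ a))
    (hloc : ∀ (p : ℕ) [Fact p.Prime], MLoc a δ ℚ_[p]) (hR : MLoc a δ ℝ) :
    ∃ A B : Matrix (Fin n) (Fin n) ℤ, IsPair a δ A B ∧ A.det = (-1) ^ (n / 2) * a 0 := by
  have h0' : ((a 0 : ℤ) : ℚ) ≠ 0 := by exact_mod_cast h0
  have hFm : (mon ℚ a).Monic := mon_monic a h0'
  have hFn : (mon ℚ a).natDegree = n := mon_natDegree a h0'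
  have hδF : IsCoprime δ (mon ℚ a) := by
    refine hδ.of_isCoprime_of_dvd_right (mon_dvd a h0' dvd_rfl)
  obtain ⟨c, hc⟩ : ∃ c : ℚ, c = ((a 0 : ℤ) : ℚ)⁻¹ := ⟨_, rfl⟩
  have hc0 : c ≠ 0 := by rw [hc]; exact inv_ne_zero h0'
  obtain ⟨H, hHdef⟩ : ∃ H, H = c • Hank n (mon ℚ a) δ := ⟨_, rfl⟩
  obtain ⟨H1, hH1def⟩ : ∃ H, H = c • Hank n (mon ℚ a) (X * δ) := ⟨_, rfl⟩
  have hHk : (Hank n (mon ℚ a) δ).det ≠ 0 := hank_det_ne_zero _ _ hFm hFn hδF
  have hH : H.det ≠ 0 := by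
    rw [hHdef, Matrix.det_smul]
    exact mul_ne_zero (pow_ne_zero _ hc0) hHk
  have hmapsmul : ∀ (p : ℕ) [Fact p.Prime] (M : Matrix (Fin n) (Fin n) ℚ),
      (c • M).map (algebraMap ℚ ℚ_[p]) = ((a 0 : ℤ) : ℚ_[p])⁻¹ • M.map (algebraMap ℚ ℚ_[p]) := by
    intro p hp M
    ext i j
    rw [Matrix.map_apply, Matrix.smul_apply, Matrix.smul_apply, Matrix.map_apply, smul_eq_mul,
      smul_eq_mul, map_mul, hc, map_inv₀, map_intCast]
  have hHp : ∀ (p : ℕ) [Fact p.Prime], H.map (algebraMap ℚ ℚ_[p]) =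
      ((a 0 : ℤ) : ℚ_[p])⁻¹ • Hank n (mon ℚ_[p] a) (δ.map (algebraMap ℚ ℚ_[p])) := by
    intro p hp
    rw [hHdef, hmapsmul, ← hank_map _ _ _ hFm, mon_map]
  have hH1p : ∀ (p : ℕ) [Fact p.Prime], H1.map (algebraMap ℚ ℚ_[p]) =
      ((a 0 : ℤ) : ℚ_[p])⁻¹ • Hank n (mon ℚ_[p] a) (X * δ.map (algebraMap ℚ ℚ_[p])) := by
    intro p hp
    rw [hH1def, hmapsmul, ← hank_map _ _ _ hFm, mon_map, Polynomial.map_mul, Polynomial.map_X]
  obtain ⟨S, hS⟩ := exists_finset ((a 0 : ℤ) : ℚ) h0' H H1 hH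
  have hl' : ∀ (p : ℕ) [Fact p.Prime], ∃ g : Matrix (Fin n) (Fin n) ℚ_[p], g.det ≠ 0 ∧
      (∀ i j, ‖(g * H.map (algebraMap ℚ ℚ_[p]) * gᵀ) i j‖ ≤ 1) ∧
      (∀ i j, ‖(g * H1.map (algebraMap ℚ ℚ_[p]) * gᵀ) i j‖ ≤ 1) ∧
      ‖(g * H.map (algebraMap ℚ ℚ_[p]) * gᵀ).det‖ = ‖((a 0 : ℤ) : ℚ_[p])‖ := by
    intro p hp
    obtain ⟨g, h1, h2, h3, h4⟩ := loc_lattice hn he a h0 hl δ p (hloc p)
    rw [smul_congr, ← hHp p] at h2 h4
    rw [smul_congr, ← hH1p p] at h3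
    exact ⟨g, h1, h2, h3, h4⟩
  choose g hg1 hg2 hg3 hg4 using hl'
  obtain ⟨G, hG, hGS, hGN⟩ := glue S (fun p _ => g p) (fun p _ _ => hg1 p)
  -- the transformed matrices at each prime
  have key : ∀ (p : ℕ) [Fact p.Prime],
      (∀ i j, ‖((G * H * Gᵀ).map (algebraMap ℚ ℚ_[p])) i j‖ ≤ 1) ∧
      (∀ i j, ‖((G * H1 * Gᵀ).map (algebraMap ℚ ℚ_[p])) i j‖ ≤ 1) ∧
      ‖((G * H * Gᵀ).map (algebraMap ℚ ℚ_[p])).det‖ = ‖((a 0 : ℤ) : ℚ_[p])‖ := by
    intro p hp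
    have hm : ∀ H : Matrix (Fin n) (Fin n) ℚ, (G * H * Gᵀ).map (algebraMap ℚ ℚ_[p]) =
        G.map (algebraMap ℚ ℚ_[p]) * H.map (algebraMap ℚ ℚ_[p]) *
          (G.map (algebraMap ℚ ℚ_[p]))ᵀ := by
      intro H
      rw [Matrix.map_mul, Matrix.map_mul, Matrix.transpose_map]
    rw [hm, hm]
    by_cases hpS : p ∈ S
    · obtain ⟨hU1, hU2⟩ := hGS p hpS
      obtain ⟨U, hU⟩ : ∃ U, U = G.map (algebraMap ℚ ℚ_[p]) * (g p)⁻¹ := ⟨_, rfl⟩
      rw [← hU] at hU1 hU2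
      have hUg : G.map (algebraMap ℚ ℚ_[p]) = U * g p := by
        rw [hU, Matrix.mul_assoc, nonsing_inv_mul _ (isUnit_iff_ne_zero.2 (hg1 p)),
          Matrix.mul_one]
      have he : ∀ V : Matrix (Fin n) (Fin n) ℚ_[p], (U * g p) * V * (U * g p)ᵀ =
          U * (g p * V * (g p)ᵀ) * Uᵀ := by
        intro V
        rw [transpose_mul]
        simp only [Matrix.mul_assoc]
      rw [hUg, he, he]
      exact ⟨norm_congr_le_one hU1 (hg2 p), norm_congr_le_one hU1 (hg3 p), by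
        rw [norm_congr_det hU2]; exact hg4 p⟩
    · obtain ⟨hU1, hU2⟩ := hGN p hpS
      obtain ⟨h1, h2, h3⟩ := hS p hpS
      rw [map_intCast] at h3
      exact ⟨norm_congr_le_one hU1 h1, norm_congr_le_one hU1 h2, by
        rw [norm_congr_det hU2]; exact h3⟩
  have hA : ∀ i j, ∃ z : ℤ, (z : ℚ) = (G * H * Gᵀ) i j := fun i j =>
    int_of_norm_le_one _ fun p _ => (key p).1 i j
  have hB : ∀ i j, ∃ z : ℤ, (z : ℚ) = (G * H1 * Gᵀ) i j := fun i j =>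
    int_of_norm_le_one _ fun p _ => (key p).2.1 i j
  choose A hA using hA
  choose B hB using hB
  have hAm : (Matrix.of A).map (Int.cast : ℤ → ℚ) = G * H * Gᵀ := by
    ext i j; exact hA i j
  have hBm : (Matrix.of B).map (Int.cast : ℤ → ℚ) = G * H1 * Gᵀ := by
    ext i j; exact hB i j
  refine ⟨Matrix.of A, Matrix.of B, ⟨G, hG, by rw [hAm, hHdef, smul_congr, hc],
    by rw [hBm, hH1def, smul_congr, hc]⟩, ?_⟩
  have hdet : (((Matrix.of A).det : ℤ) : ℚ) = (G * H * Gᵀ).det := by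
    rw [← hAm]
    exact (Int.castRingHom ℚ).map_det (Matrix.of A)
  have hdet0 : (((Matrix.of A).det : ℤ) : ℚ) ≠ 0 := by
    rw [hdet, det_mul, det_mul, det_transpose]
    exact mul_ne_zero (mul_ne_zero hG hH) hG
  have hnorm : ∀ (p : ℕ) [Fact p.Prime], ‖algebraMap ℚ ℚ_[p] (((Matrix.of A).det : ℤ) : ℚ)‖ =
      ‖algebraMap ℚ ℚ_[p] ((a 0 : ℤ) : ℚ)‖ := by
    intro p hp
    have h := (key p).2.2
    have e : ((G * H * Gᵀ).map (algebraMap ℚ ℚ_[p])).det =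
        algebraMap ℚ ℚ_[p] (((Matrix.of A).det : ℤ) : ℚ) := by
      rw [hdet, ← RingHom.mapMatrix_apply, ← RingHom.map_det]
    rw [e] at h
    rw [h, map_intCast]
  obtain ⟨z, hz⟩ := int_of_norm_le_one (((a 0 : ℤ) : ℚ) / ((Matrix.of A).det : ℤ)) (by
    intro p hp
    rw [map_div₀, norm_div, hnorm p]
    exact div_self_le_one _)
  obtain ⟨w, hw⟩ := int_of_norm_le_one ((((Matrix.of A).det : ℤ) : ℚ) / ((a 0 : ℤ) : ℚ)) (by
    intro p hp
    rw [map_div₀, norm_div, hnorm p]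
    exact div_self_le_one _)
  rw [eq_div_iff hdet0] at hz
  rw [eq_div_iff h0'] at hw
  have hz' : z * (Matrix.of A).det = a 0 := by exact_mod_cast hz
  have hw' : w * a 0 = (Matrix.of A).det := by exact_mod_cast hw
  have hzw : z * w = 1 := by
    have : (z * w) * a 0 = 1 * a 0 := by rw [mul_assoc, hw', hz', one_mul]
    exact mul_right_cancel₀ h0 this
  -- the sign
  obtain ⟨x, y, s, hy, hxy, hdvd⟩ := hR
  have h0R : ((a 0 : ℤ) : ℝ) ≠ 0 := by exact_mod_cast h0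
  have hFmR : (mon ℝ a).Monic := mon_monic a h0R
  have hFnR : (mon ℝ a).natDegree = n := mon_natDegree a h0R
  have hHR : Hank n (mon ℝ a) (C (x ^ 2) - X) =
      mulMat n (mon ℝ a) s * (Hank n (mon ℚ a) δ).map (algebraMap ℚ ℝ) *
        (mulMat n (mon ℝ a) s)ᵀ := by
    rw [hank_congr _ _ _ hFmR (mon_dvd a h0R hdvd), hank_mul_sq _ _ _ hFmR hFnR,
      ← hank_map _ _ _ hFm, mon_map]
  have hdR : (mulMat n (mon ℝ a) s).det ^ 2 * (((Hank n (mon ℚ a) δ).det : ℚ) : ℝ) =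
      (-1) ^ (n / 2) * ((a 0 : ℝ)⁻¹ * y ^ 2) := by
    have e1 := congrArg Matrix.det hHR
    rw [hank_lin_det _ hFmR hFnR, det_mul, det_mul, det_transpose, triangle_even he] at e1
    have e2 : ((Hank n (mon ℚ a) δ).map (algebraMap ℚ ℝ)).det =
        (((Hank n (mon ℚ a) δ).det : ℚ) : ℝ) := by
      rw [← RingHom.mapMatrix_apply, ← RingHom.map_det, eq_ratCast]
    have e3 : (mon ℝ a).eval (x ^ 2) = (a 0 : ℝ)⁻¹ * y ^ 2 := by
      unfold mon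
      rw [eval_mul, eval_C, ← hxy]
    rw [e2, e3] at e1
    rw [e1]; ring
  have hdetR : ((((Matrix.of A).det : ℤ)) : ℝ) =
      ((a 0 : ℝ)⁻¹) ^ n * (((G.det : ℚ) : ℝ) ^ 2 * (((Hank n (mon ℚ a) δ).det : ℚ) : ℝ)) := by
    have e1 : (((Matrix.of A).det : ℤ) : ℚ) = c ^ n * (G.det ^ 2 * (Hank n (mon ℚ a) δ).det) := by
      rw [hdet, hHdef, ← smul_congr, det_smul_congr]
    have e2 := congrArg (fun q : ℚ => (q : ℝ)) e1
    simp only [Rat.cast_intCast, Rat.cast_mul, Rat.cast_pow] at e2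
    rw [e2, hc, Rat.cast_inv, Rat.cast_intCast]
  have hpos : 0 < (-1 : ℝ) ^ (n / 2) * (a 0 : ℝ) * ((((Matrix.of A).det : ℤ)) : ℝ) := by
    have hsq : 0 < (mulMat n (mon ℝ a) s).det ^ 2 := by
      rcases (sq_nonneg (mulMat n (mon ℝ a) s).det).lt_or_eq with h | h
      · exact h
      · exfalso
        rw [← h, zero_mul] at hdR
        have h1 : ((-1 : ℝ)) ^ (n / 2) ≠ 0 := pow_ne_zero _ (by norm_num)
        exact mul_ne_zero h1 (mul_ne_zero (inv_ne_zero h0R) (pow_ne_zero 2 hy)) hdR.symm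
    have hGR : 0 < ((G.det : ℚ) : ℝ) ^ 2 := by
      have : ((G.det : ℚ) : ℝ) ≠ 0 := by exact_mod_cast hG
      positivity
    have hcn : 0 < ((a 0 : ℝ)⁻¹) ^ n := he.pow_pos (inv_ne_zero h0R)
    have h1 : 0 < (mulMat n (mon ℝ a) s).det ^ 2 *
        ((-1 : ℝ) ^ (n / 2) * (a 0 : ℝ) * (((Hank n (mon ℚ a) δ).det : ℚ) : ℝ)) := by
      have e : (mulMat n (mon ℝ a) s).det ^ 2 *
          ((-1 : ℝ) ^ (n / 2) * (a 0 : ℝ) * (((Hank n (mon ℚ a) δ).det : ℚ) : ℝ)) =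
          ((-1 : ℝ) ^ (n / 2)) ^ 2 * ((a 0 : ℝ) * (a 0 : ℝ)⁻¹) * y ^ 2 := by
        linear_combination ((-1 : ℝ) ^ (n / 2) * (a 0 : ℝ)) * hdR
      rw [e, mul_inv_cancel₀ h0R, ← pow_mul, mul_comm (n / 2) 2, pow_mul, neg_one_sq, one_pow]
      positivity
    have h2 := (mul_pos_iff_of_pos_left hsq).1 h1
    rw [hdetR]
    have e : (-1 : ℝ) ^ (n / 2) * (a 0 : ℝ) * (((a 0 : ℝ)⁻¹) ^ n * (((G.det : ℚ) : ℝ) ^ 2 *
        (((Hank n (mon ℚ a) δ).det : ℚ) : ℝ))) = ((a 0 : ℝ)⁻¹) ^ n * ((G.det : ℚ) : ℝ) ^ 2 *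
          ((-1 : ℝ) ^ (n / 2) * (a 0 : ℝ) * (((Hank n (mon ℚ a) δ).det : ℚ) : ℝ)) := by ring
    rw [e]
    positivity
  have hposZ : 0 < (-1 : ℤ) ^ (n / 2) * a 0 * (Matrix.of A).det := by exact_mod_cast hpos
  have hww : w = 1 ∨ w = -1 := Int.isUnit_iff.1 (IsUnit.of_mul_eq_one z (by rw [mul_comm]; exact hzw))
  have hsgn : (-1 : ℤ) ^ (n / 2) = 1 ∨ (-1 : ℤ) ^ (n / 2) = -1 := neg_one_pow_eq_or ℤ _
  have ha2 : 0 < a 0 * a 0 := by
    have := sq_pos_of_ne_zero h0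
    rwa [sq] at this
  rcases hww with rfl | rfl <;> rcases hsgn with h | h <;> rw [h] at hposZ ⊢ <;>
    rw [← hw'] at hposZ ⊢ <;> first | (ring_nf; done) | (exfalso; nlinarith)

end Stoll308.BF
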