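import Pool.Agent.Work.MP_308fa9_nt.BF.Basic

set_option autoImplicit false

/-!
Few of the polynomials have a square leading coefficient or a small height.
-/

namespace Stoll308.BF

open Polynomial Finset

namespace Redu0

/-- counting a property which implies membership in a product of finite sets -/
lemma cnt_le_pi (n : ℕ) (P : (Fin (n + 1) → ℤ) → Prop) (H : ℕ) (S : Fin (n + 1) → Finset ℤ)
    (h : ∀ a : Fin (n + 1) → ℤ, (∀ i, |a i| ≤ H) → P a → ∀ i, a i ∈ S i) :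
    cnt n P H ≤ ∏ i, (S i).card := by
  classical
  unfold cnt
  rw [← Fintype.card_piFinset]
  apply Finset.card_le_card
  intro a ha
  rw [Finset.mem_filter, Fintype.mem_piFinset] at ha
  rw [Fintype.mem_piFinset]
  refine h a (fun i => ?_) ha.2
  have := Finset.mem_Icc.1 (ha.1 i)
  exact abs_le.2 this

/-- subadditivity of the counting function -/
lemma cnt_le_add (n : ℕ) (P Q R : (Fin (n + 1) → ℤ) → Prop) (H : ℕ)
    (h : ∀ a, P a → Q a ∨ R a) : cnt n P H ≤ cnt n Q H + cnt n R H := by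
  classical
  unfold cnt
  refine le_trans (Finset.card_le_card ?_) (Finset.card_union_le _ _)
  intro a ha
  have ha' := Finset.mem_filter.1 ha
  rcases h a ha'.2 with h1 | h1
  · exact Finset.mem_union_left _ (Finset.mem_filter.2 ⟨ha'.1, h1⟩)
  · exact Finset.mem_union_right _ (Finset.mem_filter.2 ⟨ha'.1, h1⟩)

end Redu0

theorem height_small (n : ℕ) (ε : ℝ) (hε : 0 < ε) :
    ∃ η : ℝ, 0 < η ∧ ∃ H₀ : ℕ, ∀ H : ℕ, H₀ ≤ H →
      (cnt n (fun a => ∀ i, |(a i : ℝ)| < η * H) H : ℝ) ≤ ε * H ^ (n + 1) := by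
  set η : ℝ := min 1 ε / 3 with hη
  have hη0 : 0 < η := by positivity
  have h3 : 3 * η = min 1 ε := by rw [hη]; ring
  refine ⟨η, hη0, ⌈1 / η⌉₊, fun H hH => ?_⟩
  have hH1 : 1 ≤ η * H := by
    have h1 := (Nat.le_ceil (1 / η)).trans (Nat.cast_le.2 hH)
    rw [div_le_iff₀ hη0] at h1
    linarith
  have h0 : (0 : ℤ) ≤ ⌊η * H⌋ := Int.floor_nonneg.2 (by linarith)
  have hc := Redu0.cnt_le_pi n (fun a => ∀ i, |(a i : ℝ)| < η * H) H
    (fun _ => Icc (-⌊η * H⌋) ⌊η * H⌋) (by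
      intro a _ ha i
      rw [Finset.mem_Icc, ← abs_le]
      apply Int.le_floor.2
      have := (ha i).le
      exact_mod_cast this)
  rw [Finset.prod_const, Finset.card_univ, Fintype.card_fin, Int.card_Icc] at hc
  have hcard : (((⌊η * H⌋ + 1 - -⌊η * H⌋).toNat : ℕ) : ℝ) ≤ 3 * η * H := by
    have h1 : (((⌊η * H⌋ + 1 - -⌊η * H⌋).toNat : ℕ) : ℤ) = 2 * ⌊η * H⌋ + 1 := by
      rw [Int.toNat_of_nonneg (by linarith)]
      ring
    have h2 : (((⌊η * H⌋ + 1 - -⌊η * H⌋).toNat : ℕ) : ℝ) = 2 * (⌊η * H⌋ : ℝ) + 1 := by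
      exact_mod_cast h1
    have h3 := Int.floor_le (η * H)
    rw [h2]
    linarith
  have hmin : min 1 ε ≤ 1 := min_le_left _ _
  calc (cnt n (fun a => ∀ i, |(a i : ℝ)| < η * H) H : ℝ)
      ≤ ((((⌊η * H⌋ + 1 - -⌊η * H⌋).toNat : ℕ) : ℝ)) ^ (n + 1) := by exact_mod_cast hc
    _ ≤ (3 * η * H) ^ (n + 1) := pow_le_pow_left₀ (Nat.cast_nonneg _) hcard _
    _ = (min 1 ε) ^ (n + 1) * H ^ (n + 1) := by rw [h3, mul_pow]
    _ ≤ min 1 ε * H ^ (n + 1) := by
      refine mul_le_mul_of_nonneg_right ?_ (by positivity)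
      rw [pow_succ]
      exact mul_le_of_le_one_left (by positivity) (pow_le_one₀ (by positivity) hmin)
    _ ≤ ε * H ^ (n + 1) := mul_le_mul_of_nonneg_right (min_le_right _ _) (by positivity)

/-- few leading coefficients are squares -/
theorem lead_small (n : ℕ) (ε : ℝ) (hε : 0 < ε) :
    ∃ H₀ : ℕ, ∀ H : ℕ, H₀ ≤ H →
      (cnt n (fun a => a 0 = 0 ∨ IsSquare (a 0)) H : ℝ) ≤ ε * H ^ (n + 1) := by
  set c : ℝ := 2 * 3 ^ n / ε with hc
  refine ⟨max 1 ⌈c ^ 2⌉₊, fun H hH => ?_⟩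
  have hH1 : 1 ≤ H := (le_max_left _ _).trans hH
  have hH1' : (1 : ℝ) ≤ H := by exact_mod_cast hH1
  have hcH : c ≤ √(H : ℝ) := by
    apply Real.le_sqrt_of_sq_le
    exact (Nat.le_ceil _).trans (by exact_mod_cast (le_max_right _ _).trans hH)
  have hs1 : 1 ≤ √(H : ℝ) := Real.one_le_sqrt.2 hH1'
  set S : Finset ℤ := (range (Nat.sqrt H + 1)).image fun r : ℕ => (r : ℤ) ^ 2 with hS
  have hcnt := Redu0.cnt_le_pi n (fun a => a 0 = 0 ∨ IsSquare (a 0)) H
    (Fin.cons S fun _ => Icc (-(H : ℤ)) H) (by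
      intro a hb ha i
      refine Fin.cases ?_ (fun j => ?_) i
      · rw [Fin.cons_zero, hS, Finset.mem_image]
        have hsq : IsSquare (a 0) := by
          rcases ha with h | h
          · rw [h]; exact ⟨0, by simp⟩
          · exact h
        obtain ⟨r, hr⟩ := hsq
        refine ⟨r.natAbs, ?_, ?_⟩
        · rw [Finset.mem_range, Nat.lt_succ_iff, Nat.le_sqrt]
          have h1 := (le_abs_self _).trans (hb 0)
          rw [hr, ← Int.natAbs_mul_self] at h1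
          exact_mod_cast h1
        · rw [hr, sq]
          exact Int.natAbs_mul_self
      · rw [Fin.cons_succ, Finset.mem_Icc]
        exact abs_le.1 (hb _))
  rw [Fin.prod_univ_succ, Fin.cons_zero] at hcnt
  simp only [Fin.cons_succ] at hcnt
  rw [Finset.prod_const, Finset.card_univ, Fintype.card_fin, Int.card_Icc] at hcnt
  have e1 : ((H : ℤ) + 1 - -(H : ℤ)).toNat = 2 * H + 1 := by omega
  rw [e1] at hcnt
  have e2 : S.card ≤ Nat.sqrt H + 1 := by
    rw [hS]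
    exact Finset.card_image_le.trans (by rw [Finset.card_range])
  have e3 : (Nat.sqrt H : ℝ) ≤ √(H : ℝ) := Real.nat_sqrt_le_real_sqrt
  have e4 : (S.card : ℝ) ≤ 2 * √(H : ℝ) := by
    have : (S.card : ℝ) ≤ (Nat.sqrt H : ℝ) + 1 := by exact_mod_cast e2
    linarith
  have e5 : ((2 * H + 1 : ℕ) : ℝ) ≤ 3 * H := by
    push_cast
    linarith
  calc (cnt n (fun a => a 0 = 0 ∨ IsSquare (a 0)) H : ℝ)
      ≤ (S.card : ℝ) * ((2 * H + 1 : ℕ) : ℝ) ^ n := by exact_mod_cast hcnt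
    _ ≤ (2 * √(H : ℝ)) * (3 * H) ^ n :=
      mul_le_mul e4 (pow_le_pow_left₀ (Nat.cast_nonneg _) e5 _) (by positivity) (by positivity)
    _ = (2 * 3 ^ n) * √(H : ℝ) * H ^ n := by rw [mul_pow]; ring
    _ = ε * c * √(H : ℝ) * H ^ n := by
      rw [hc]
      field_simp
    _ ≤ ε * √(H : ℝ) * √(H : ℝ) * H ^ n := by gcongr
    _ = ε * (√(H : ℝ) * √(H : ℝ)) * H ^ n := by ring
    _ = ε * H ^ (n + 1) := by
      rw [Real.mul_self_sqrt (by positivity), pow_succ]
      ring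

end Stoll308.BF
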